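import Pool.Agent.Helper63.Stab.CalE

/-! Iterated suspensions of graded functors and iterated structure maps. -/

open CategoryTheory Topology Filter Set Opposite

noncomputable section

namespace Pool.Agent.Helper63.Stab

open Pool.Agent.Helper1.Stab

theorem isTest_sus {K : LC} (h : IsTest K) : ∀ n, IsTest (susL n K)
  | 0 => h
  | n + 1 => (isTest_sus h n).prodC

/-- iterated suspension of test spaces -/
def susT (n : ℕ) (K : Test) : Test := ⟨susL n K.obj, isTest_sus K.property n⟩

/-- iterated suspension in a graded functor -/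
def sgm (H : GF) (c : ℕ) (K : Test) : ∀ n, ((H.h c).obj (op K) : Type) →
    ((H.h (c + n)).obj (op (susT n K)) : Type)
  | 0 => fun x => x
  | n + 1 => fun x => (H.σ (c + n)).hom.app (op (susT n K)) (sgm H c K n x)

theorem σ_bijective (H : GF) (b : ℕ) (K : Test) :
    Function.Bijective ((H.σ b).hom.app (op K)) :=
  ConcreteCategory.bijective_of_isIso _

theorem sgm_bijective (H : GF) (c : ℕ) (K : Test) (n : ℕ) :
    Function.Bijective (sgm H c K n) := by
  induction n with
  | zero => exact Function.bijective_id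
  | succ n ih => exact (σ_bijective H (c + n) (susT n K)).comp ih

theorem sgm_natural {G H : GF} (Φ : G ⟶ H) (c : ℕ) (K : Test) (n : ℕ)
    (x : ((G.h c).obj (op K) : Type)) :
    (Φ.app (c + n)).app (op (susT n K)) (sgm G c K n x) =
      sgm H c K n ((Φ.app c).app (op K) x) := by
  induction n with
  | zero => rfl
  | succ n ih =>
    have h := ConcreteCategory.congr_hom (Φ.comm_apply (c + n) (op (susT n K))) (sgm G c K n x)
    refine Eq.trans h ?_
    exact congrArg ((H.σ (c + n)).hom.app (op (susT n K))) ih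

/-- surjectivity can be checked after suspensions -/
theorem exists_of_sgm {G H : GF} (Φ : G ⟶ H) (c : ℕ) (K : Test) (n : ℕ)
    (x : ((H.h c).obj (op K) : Type)) (z : ((G.h (c + n)).obj (op (susT n K)) : Type))
    (hz : (Φ.app (c + n)).app (op (susT n K)) z = sgm H c K n x) :
    ∃ y, (Φ.app c).app (op K) y = x := by
  obtain ⟨y, rfl⟩ := (sgm_bijective G c K n).2 z
  refine ⟨y, (sgm_bijective H c K n).1 ?_⟩
  rw [← sgm_natural, hz]

theorem sgm_gf (R : Biv) (c : ℕ) (K : Test) (n : ℕ) (x : R.Hom K.obj (Zb c)) :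
    sgm R.gf c K n x = susM x n := by
  induction n with
  | zero => rfl
  | succ n ih => exact congrArg (fun t => R.ltens LC.C t) ih

/-! ## Iterated structure maps -/

variable {G : Prespectrum} (L : Levels G)

/-- iterated structure map -/
def istep (m : ℕ) : ∀ j, PMap (susL j (L.K m)) (L.K (m + j)).plus
  | 0 => PMap.id _
  | j + 1 => (L.step (m + j)).comp (PMap.ltens LC.C (istep m j))

/-- change of the index -/
def kcast {a b : ℕ} (h : a = b) : L.K a ≃ₜ L.K b := h ▸ Homeomorph.refl _

variable {L} {R : Biv} {x : ∀ n, R.Hom (L.K n) (Zb n)}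

theorem istep_comp (hx : ∀ n, R.comp (R.J (L.step n)) (x (n + 1)) = R.ltens LC.C (x n))
    (m j : ℕ) : R.comp (R.J (istep L m j)) (x (m + j)) = susM (x m) j := by
  induction j with
  | zero => exact R.id_comp _
  | succ j ih =>
    have h1 : R.comp (R.J (istep L m (j + 1))) (x (m + j + 1)) =
        R.comp (R.ltens LC.C (R.J (istep L m j))) (R.comp (R.J (L.step (m + j))) (x (m + j + 1))) := by
      rw [istep, R.J_comp, R.assoc, ltens_J]
      rfl
    refine Eq.trans h1 ?_
    rw [hx]
    refine (ltens_comp R LC.C (R.J (istep L m j)) (x (m + j))).symm.trans ?_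
    exact congrArg (fun t => R.ltens LC.C t) ih

theorem kcast_comp {a b : ℕ} (h : a = b) :
    R.comp (jh R (kcast L h)) (x b) = R.comp (x a) (jh R (zcast h)) := by
  subst h
  exact (R.id_comp _).trans (R.comp_id _).symm

/-- A class is in the image if its suspension is the pull-back of a class on a level. -/
theorem exists_of_level (Φ : hP.obj G ⟶ R.gf)
    (hΦ : ∀ n, (Φ.app n).app (op (L.T n)) (L.u n) = x n)
    (hx : ∀ n, R.comp (R.J (L.step n)) (x (n + 1)) = R.ltens LC.C (x n))
    {c : ℕ} {K : Test} {N m j : ℕ} (hm : m + j = c + N) (w : R.Hom K.obj (Zb c))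
    (φ : PMap (susL N K.obj) (susL j (L.K m)).plus)
    (hφ : R.comp (R.J φ) (R.comp (susM (x m) j) (jh R (zcast hm))) = susM w N) :
    ∃ y, (Φ.app c).app (op K) y = w := by
  obtain ⟨ψ, hψ⟩ : ∃ ψ : PMap (susL N K.obj) (L.K (c + N)).plus,
      ψ = (PMap.ofHomeo (kcast L hm)).comp ((istep L m j).comp φ) := ⟨_, rfl⟩
  have h1 : R.comp (R.J ψ) (x (c + N)) = susM w N := by
    rw [hψ, R.J_comp, R.J_comp, R.assoc, R.assoc, jh_def, kcast_comp, ← R.assoc (R.J (istep L m j)),
      istep_comp hx, hφ]
  refine exists_of_sgm Φ c K N w (((hP.obj G).h (c + N)).map (Quiver.Hom.op (X := susT N K)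
    (Y := L.T (c + N)) (ObjectProperty.homMk ψ.cls)) (L.u (c + N))) ?_
  rw [sgm_gf]
  have h2 := ConcreteCategory.congr_hom ((Φ.app (c + N)).naturality (Quiver.Hom.op (X := susT N K)
        (Y := L.T (c + N)) (ObjectProperty.homMk ψ.cls))) (L.u (c + N))
  refine Eq.trans h2 ?_
  refine Eq.trans (congrArg (R.gf.h (c + N)|>.map (Quiver.Hom.op (X := susT N K)
        (Y := L.T (c + N)) (ObjectProperty.homMk ψ.cls))) (hΦ (c + N))) ?_
  exact h1

end Pool.Agent.Helper63.Stab
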