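import Pool.Agent.Helper63.Stab.GrC

/-! # The stages of `BG D` are neighbourhood retracts -/

open Topology Filter Set Matrix

set_option autoImplicit false

noncomputable section

namespace Pool.Agent.Helper63.Stab

open Pool.Agent.Helper1.Stab

/-- `C` is a neighbourhood retract. -/
def NR {E : Type} [TopologicalSpace E] (C : Set E) : Prop :=
  ∃ (U : Set E) (r : E → E), IsOpen U ∧ C ⊆ U ∧ ContinuousOn r U ∧ (∀ x ∈ U, r x ∈ C) ∧
    ∀ x ∈ C, r x = x

lemma NR.image {E F : Type} [TopologicalSpace E] [TopologicalSpace F] {C : Set E} (h : NR C)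
    (e : E ≃ₜ F) : NR (e '' C) := by
  obtain ⟨U, r, hU, hCU, hr, h1, h2⟩ := h
  refine ⟨e '' U, fun x => e (r (e.symm x)), e.isOpenMap _ hU, image_mono hCU, ?_, ?_, ?_⟩
  · refine e.continuous.comp_continuousOn (hr.comp e.symm.continuous.continuousOn ?_)
    rintro _ ⟨y, hy, rfl⟩
    rwa [e.symm_apply_apply]
  · rintro _ ⟨y, hy, rfl⟩
    simp only
    rw [e.symm_apply_apply]
    exact mem_image_of_mem _ (h1 y hy)
  · rintro _ ⟨y, hy, rfl⟩
    simp only
    rw [e.symm_apply_apply, h2 y hy]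

section univ

open scoped Matrix.Norms.L2Operator

/-- The neighbourhood of the projections of rank `l`. -/
def U1 (l : ℕ) : Set (Matrix (Fin (2 * l)) (Fin (2 * l)) ℂ) :=
  {M | ‖hm M * hm M - hm M‖ < 2 / 9 ∧ |(r1 M).trace.re - l| < 1 / 2}

lemma U1_open (l : ℕ) : IsOpen (U1 l) := by
  have h1 : Continuous fun M : Matrix (Fin (2 * l)) (Fin (2 * l)) ℂ =>
      ‖hm M * hm M - hm M‖ := ((hm_cont.mul hm_cont).sub hm_cont).norm
  have h2 : Continuous fun M : Matrix (Fin (2 * l)) (Fin (2 * l)) ℂ =>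
      |(r1 M).trace.re - l| :=
    ((Complex.continuous_re.comp r1_cont.matrix_trace).sub continuous_const).abs
  exact (isOpen_lt h1 continuous_const).inter (isOpen_lt h2 continuous_const)

lemma r1_mem {l : ℕ} {M : Matrix (Fin (2 * l)) (Fin (2 * l)) ℂ} (h : M ∈ U1 l) :
    ∃ A : Frame l, pj A = r1 M := by
  obtain ⟨h1, h2⟩ := h
  have h3 := r1_idem h1
  obtain ⟨k, hk⟩ := trace_nat h3
  have hkl : k = l := by
    rw [hk, Complex.natCast_re] at h2
    rw [abs_lt] at h2
    have h4 : (k : ℝ) < l + 1 := by linarith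
    have h5 : (l : ℝ) < k + 1 := by linarith
    have h6 : k < l + 1 := by exact_mod_cast h4
    have h7 : l < k + 1 := by exact_mod_cast h5
    omega
  rw [hkl] at hk
  obtain ⟨A, hA, hA2⟩ := exists_iso (r1_star M) h3 hk
  obtain ⟨B, hB⟩ := cm_surj A hA
  exact ⟨B, by rw [pj, hB, hA2]⟩

lemma pj_mem {l : ℕ} (A : Frame l) : pj A ∈ U1 l ∧ r1 (pj A) = pj A := by
  have h := r1_of_idem (pj_star A) (pj_idem A)
  refine ⟨⟨?_, ?_⟩, h⟩
  · rw [hm_of_sa (pj_star A), pj_idem, sub_self, norm_zero]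
    norm_num
  · rw [h, pj_trace, Complex.natCast_re, sub_self, abs_zero]
    norm_num

lemma NR_univ (l : ℕ) : NR (range (pj : Frame l → _)) := by
  refine ⟨U1 l, r1, U1_open l, ?_, r1_cont.continuousOn, ?_, ?_⟩
  · rintro _ ⟨A, rfl⟩
    exact (pj_mem A).1
  · intro M hM
    exact r1_mem hM
  · rintro _ ⟨A, rfl⟩
    exact (pj_mem A).2

end univ

section one

lemma twist {l : ℕ} (hl : 0 < l) (A : Frame l) {u : ℂ} (hu : u * star u = 1) :
    ∃ B : Frame l, pj B = pj A ∧ ∀ J, om B J = u * om A J := by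
  classical
  set g : Matrix (Fin l) (Fin l) ℂ := Matrix.diagonal fun i => if i = ⟨0, hl⟩ then u else 1
    with hg
  have hgd : g.det = u := by
    rw [hg, Matrix.det_diagonal, Finset.prod_ite_eq' Finset.univ (⟨0, hl⟩ : Fin l) fun _ => u]
    simp
  have hgg : g * gᴴ = 1 := by
    rw [hg, Matrix.diagonal_conjTranspose, Matrix.diagonal_mul_diagonal, ← Matrix.diagonal_one]
    congr 1
    funext i
    by_cases hi : i = ⟨0, hl⟩
    · simp only [hi, if_true, Pi.star_apply]
      exact hu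
    · simp only [hi, if_false, Pi.star_apply, star_one, mul_one]
  have hgu : g ∈ Matrix.unitaryGroup (Fin l) ℂ := Matrix.mem_unitaryGroup_iff.2 hgg
  have hgg' : gᴴ * g = 1 := Matrix.mem_unitaryGroup_iff'.1 hgu
  obtain ⟨B, hB⟩ := cm_surj (cm A * g) (by
    rw [Matrix.conjTranspose_mul, Matrix.mul_assoc, ← Matrix.mul_assoc (cm A)ᴴ, cm_iso,
      Matrix.one_mul, hgg'])
  refine ⟨B, (pj_of_rel hgu hB).symm, fun J => ?_⟩
  rw [om_mul hB, hgd, mul_comm]

variable {l : ℕ}

/-- the ambient space -/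
abbrev E2 (l : ℕ) : Type :=
  Matrix (Fin (2 * l)) (Fin (2 * l)) ℂ × ((Fin l → Fin (2 * l)) → ℂ)

/-- the vector `Λ(P) w` -/
def vv (x : E2 l) (I : Fin l → Fin (2 * l)) : ℂ := ∑ J, Lam (r1 x.1) I J * x.2 J

/-- the square of its norm -/
def tt (x : E2 l) : ℝ := ∑ I, ‖vv x I‖ ^ 2

/-- the trace of `Λ(P)` -/
def TT (x : E2 l) : ℝ := ∑ I, (Lam (r1 x.1) I I).re

/-- the retraction -/
def r2 (x : E2 l) : E2 l :=
  (r1 x.1, fun I => ((Real.sqrt (TT x) / Real.sqrt (tt x) : ℝ) : ℂ) * vv x I)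

lemma r1x_cont : Continuous fun x : E2 l => r1 x.1 := r1_cont.comp continuous_fst

lemma vv_cont (I : Fin l → Fin (2 * l)) : Continuous fun x : E2 l => vv x I := by
  unfold vv
  refine continuous_finsetSum _ fun J _ => ?_
  exact ((Lam_cont I J).comp r1x_cont).mul ((continuous_apply J).comp continuous_snd)

lemma tt_cont : Continuous (tt : E2 l → ℝ) := by
  unfold tt
  exact continuous_finsetSum _ fun I _ => ((vv_cont I).norm).pow 2

lemma TT_cont : Continuous (TT : E2 l → ℝ) := by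
  unfold TT
  exact continuous_finsetSum _ fun I _ => Complex.continuous_re.comp ((Lam_cont I I).comp r1x_cont)

/-- the scalar product with the minors -/
def cc (A : Frame l) (w : (Fin l → Fin (2 * l)) → ℂ) : ℂ := ∑ J, star (om A J) * w J

/-- the square of the norm of the minors -/
def SS (A : Frame l) : ℝ := ∑ J, ‖om A J‖ ^ 2

lemma SS_pos (A : Frame l) : 0 < SS A := by
  obtain ⟨J, hJ⟩ := om_ne A
  refine Finset.sum_pos' (fun _ _ => by positivity) ⟨J, Finset.mem_univ J, by positivity⟩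

lemma vv_eq {x : E2 l} {A : Frame l} (h : pj A = r1 x.1) (I : Fin l → Fin (2 * l)) :
    vv x I = om A I * cc A x.2 := by
  unfold vv cc
  rw [← h, Finset.mul_sum]
  refine Finset.sum_congr rfl fun J _ => ?_
  rw [Lam_pj]
  ring

lemma tt_eq {x : E2 l} {A : Frame l} (h : pj A = r1 x.1) : tt x = ‖cc A x.2‖ ^ 2 * SS A := by
  unfold tt SS
  rw [Finset.mul_sum]
  refine Finset.sum_congr rfl fun I _ => ?_
  rw [vv_eq h, norm_mul, mul_pow, mul_comm]

lemma TT_eq {x : E2 l} {A : Frame l} (h : pj A = r1 x.1) : TT x = SS A := by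
  unfold TT SS
  refine Finset.sum_congr rfl fun I _ => ?_
  rw [← h, Lam_pj, Complex.star_def, Complex.mul_conj, Complex.normSq_eq_norm_sq,
    Complex.ofReal_re]

lemma r2_eq {x : E2 l} {A : Frame l} (h : pj A = r1 x.1) :
    r2 x = (pj A, fun I => (cc A x.2 / (‖cc A x.2‖ : ℂ)) * om A I) := by
  unfold r2
  rw [← h, TT_eq h, tt_eq h]
  refine Prod.ext rfl ?_
  funext I
  simp only
  rw [vv_eq h, Real.sqrt_mul (by positivity), Real.sqrt_sq (norm_nonneg _)]
  have hS : Real.sqrt (SS A) ≠ 0 := (Real.sqrt_pos.2 (SS_pos A)).ne'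
  have e : Real.sqrt (SS A) / (‖cc A x.2‖ * Real.sqrt (SS A)) = 1 / ‖cc A x.2‖ := by
    rw [mul_comm, ← div_div, div_self hS]
  rw [e, Complex.ofReal_div, Complex.ofReal_one]
  ring

lemma cc_self (A : Frame l) : cc A (om A) = (SS A : ℂ) := by
  unfold cc SS
  rw [Complex.ofReal_sum]
  refine Finset.sum_congr rfl fun J _ => ?_
  rw [Complex.star_def, mul_comm, Complex.mul_conj, Complex.normSq_eq_norm_sq]

lemma NR_one (hl : 0 < l) : NR (range fun A : Frame l => ((pj A, om A) : E2 l)) := by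
  refine ⟨{x : E2 l | x.1 ∈ U1 l} ∩ {x | 0 < tt x}, r2, ?_, ?_, ?_, ?_, ?_⟩
  · exact ((U1_open l).preimage continuous_fst).inter (isOpen_lt continuous_const tt_cont)
  · rintro _ ⟨A, rfl⟩
    refine ⟨(pj_mem A).1, ?_⟩
    have h1 : pj A = r1 ((pj A, om A) : E2 l).1 := (pj_mem A).2.symm
    change 0 < tt ((pj A, om A) : E2 l)
    rw [tt_eq h1]
    simp only
    rw [cc_self]
    have := SS_pos A
    have h2 : ‖(SS A : ℂ)‖ = SS A := by
      rw [Complex.norm_real, Real.norm_of_nonneg this.le]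
    rw [h2]
    positivity
  · refine ContinuousOn.prodMk r1x_cont.continuousOn ?_
    refine continuousOn_pi.2 fun I => ?_
    refine ContinuousOn.mul ?_ (vv_cont I).continuousOn
    refine Complex.continuous_ofReal.comp_continuousOn ?_
    refine ContinuousOn.div (Real.continuous_sqrt.comp TT_cont).continuousOn
      (Real.continuous_sqrt.comp tt_cont).continuousOn ?_
    rintro x ⟨_, hx⟩
    exact (Real.sqrt_pos.2 hx).ne'
  · rintro x ⟨hx1, hx2⟩
    obtain ⟨A, hA⟩ := r1_mem hx1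
    have hc : cc A x.2 ≠ 0 := by
      intro h0
      change 0 < tt x at hx2
      rw [tt_eq hA, h0, norm_zero] at hx2
      simp at hx2
    have hn : (‖cc A x.2‖ : ℂ) ≠ 0 := by
      rw [Complex.ofReal_ne_zero]
      exact norm_ne_zero_iff.2 hc
    obtain ⟨B, hB1, hB2⟩ := twist hl A (u := cc A x.2 / (‖cc A x.2‖ : ℂ)) (by
      rw [Complex.star_def, map_div₀, Complex.conj_ofReal, div_mul_div_comm, Complex.mul_conj,
        Complex.normSq_eq_norm_sq, Complex.ofReal_pow, ← pow_two]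
      exact div_self (pow_ne_zero 2 hn))
    refine ⟨B, ?_⟩
    simp only
    rw [r2_eq hA, hB1]
    exact Prod.ext rfl (funext hB2)
  · rintro _ ⟨A, rfl⟩
    have h1 : pj A = r1 ((pj A, om A) : E2 l).1 := (pj_mem A).2.symm
    simp only
    rw [r2_eq h1]
    refine Prod.ext rfl (funext fun I => ?_)
    simp only
    rw [cc_self]
    have := SS_pos A
    have h2 : ‖(SS A : ℂ)‖ = SS A := by
      rw [Complex.norm_real, Real.norm_of_nonneg this.le]
    rw [h2, div_self (Complex.ofReal_ne_zero.2 this.ne'), one_mul]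

end one

/-- The general comparison. -/
theorem nr_of {D : Set ℂ} {l : ℕ} [T2Space (range (toBG D l))] {E : Type} [AddCommGroup E]
    [Module ℝ E] [TopologicalSpace E] [IsTopologicalAddGroup E] [ContinuousSMul ℝ E] [T2Space E]
    [FiniteDimensional ℝ E] (φ : Frame l → E) (hφ : Continuous φ)
    (hrel : ∀ A B : Frame l, toBG D l (Quot.mk _ A) = toBG D l (Quot.mk _ B) ↔ φ A = φ B)
    (hC : NR (range φ)) : ∃ (N : ℕ) (C : Set (Fin N → ℝ)), IsCompact C ∧ NR C ∧
      Nonempty (range (toBG D l) ≃ₜ C) := by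
  let e : E ≃ₜ (Fin (Module.finrank ℝ E) → ℝ) :=
    (ContinuousLinearEquiv.ofFinrankEq (𝕜 := ℝ) (E := E)
      (F := Fin (Module.finrank ℝ E) → ℝ) (by simp)).toHomeomorph
  refine ⟨Module.finrank ℝ E, e '' range φ, (isCompact_range hφ).image e.continuous,
    hC.image e, ?_⟩
  -- the quotient map
  let q : Frame l → range (toBG D l) := fun A => ⟨toBG D l (Quot.mk _ A), mem_range_self _⟩
  have hq : Continuous q :=
    Continuous.subtype_mk ((toBG D l).continuous.comp continuous_quot_mk) _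
  have hqs : Function.Surjective q := by
    rintro ⟨_, ⟨y, rfl⟩⟩
    obtain ⟨A, rfl⟩ := Quot.exists_rep y
    exact ⟨A, rfl⟩
  have hqq : IsQuotientMap q := (hq.isClosedMap).isQuotientMap hq hqs
  have : CompactSpace (range (toBG D l)) := by
    refine ⟨?_⟩
    rw [← hqs.range_eq]
    exact isCompact_range hq
  let ψ : range (toBG D l) → (e '' range φ : Set _) := fun x =>
    ⟨e (φ (hqs x).choose), mem_image_of_mem _ (mem_range_self _)⟩
  have hψq : ∀ A, (ψ (q A) : Fin (Module.finrank ℝ E) → ℝ) = e (φ A) := by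
    intro A
    have h1 : q (hqs (q A)).choose = q A := (hqs (q A)).choose_spec
    have h2 := (hrel _ _).1 (congrArg Subtype.val h1)
    change e (φ (hqs (q A)).choose) = e (φ A)
    rw [h2]
  have hψ : Continuous ψ := by
    rw [hqq.continuous_iff, continuous_induced_rng]
    have : Subtype.val ∘ (ψ ∘ q) = fun A => e (φ A) := funext hψq
    rw [this]
    exact e.continuous.comp hφ
  have hinj : Function.Injective ψ := by
    intro x y hxy
    obtain ⟨A, rfl⟩ := hqs x
    obtain ⟨B, rfl⟩ := hqs y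
    have h1 := congrArg Subtype.val hxy
    rw [hψq, hψq] at h1
    exact Subtype.ext ((hrel A B).2 (e.injective h1))
  have hsurj : Function.Surjective ψ := by
    rintro ⟨_, _, ⟨A, rfl⟩, rfl⟩
    exact ⟨q A, Subtype.ext (hψq A)⟩
  exact ⟨Continuous.homeoOfEquivCompactToT2 (f := Equiv.ofBijective ψ ⟨hinj, hsurj⟩) hψ⟩

theorem exists_nr {D : Set ℂ} (hD : D = Set.univ ∨ D = {1}) (l : ℕ)
    [T2Space (range (toBG D l))] : ∃ (N : ℕ) (C : Set (Fin N → ℝ)), IsCompact C ∧ NR C ∧
      Nonempty (range (toBG D l) ≃ₜ C) := by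
  rcases hD with rfl | rfl
  · exact nr_of (pj : Frame l → Matrix (Fin (2 * l)) (Fin (2 * l)) ℂ) (pj_cont l)
      (fun A B => toBG_univ) (NR_univ l)
  · refine nr_of (fun A : Frame l => ((pj A, om A) : E2 l)) ((pj_cont l).prodMk (om_cont l))
      (fun A B => toBG_one) ?_
    rcases Nat.eq_zero_or_pos l with rfl | hl
    · have hs : ∀ A B : Frame 0, A = B := fun A B => cm_inj (Subsingleton.elim _ _)
      refine ⟨univ, fun _ => (pj (Frame.std 0), om (Frame.std 0)), isOpen_univ, subset_univ _,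
        continuousOn_const, fun _ _ => mem_range_self _, ?_⟩
      rintro _ ⟨A, rfl⟩
      rw [hs A (Frame.std 0)]
    · exact NR_one hl

end Pool.Agent.Helper63.Stab
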