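import Pool.Agent.Helper1.Stab.GF
import Pool.Agent.Helper63.Stab.GrD

/-! # Test spaces are invariant under homeomorphisms -/

open Topology Filter Set CategoryTheory

set_option autoImplicit false

noncomputable section

namespace Pool.Agent.Helper63.Stab

open Pool.Agent.Helper1.Stab

theorem isTest_of_homeo {K L : LC} (e : K ≃ₜ L) (h : IsTest K) : IsTest L := by
  obtain ⟨a, N, Q, hQ, hc, i, r, hir⟩ := h
  let f : L ⟶ K := (PMap.ofHomeo e.symm).cls
  let g : K ⟶ L := (PMap.ofHomeo e).cls
  have hfg : f ≫ g = 𝟙 L := by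
    change (PMap.ofHomeo e).cls.comp (PMap.ofHomeo e.symm).cls = (PMap.id L).cls
    rw [HMap.comp_cls]
    congr 1
    ext k
    change ((e (e.symm k) : L) : OnePoint L) = (k : OnePoint L)
    rw [e.apply_symm_apply]
  refine ⟨a, N, Q, hQ, hc, f ≫ i, r ≫ g, ?_⟩
  rw [Category.assoc, ← Category.assoc i, hir, Category.id_comp, hfg]

end Pool.Agent.Helper63.Stab
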