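import Pool.Agent.Helper63.Stab.HurB

/-! The Hurewicz image of `x`: the main computation. -/

open Topology Filter Set Matrix

noncomputable section

namespace Pool.Agent.Helper63.Stab.Hur

open Pool.Agent.Helper1.Stab
open Pool.Agent.Helper37.Stab (mulB mulB_comm mulB_assoc mulB_one mulB_add mulB_pre dg lun)

/-- the tensor product as a continuous map -/
def tensC : C(QQ, Pr (Bool × Bool) 1) := ⟨Pr.tensor, Pr.continuous_tensor⟩

/-- the tensor product as a pointed map -/
def tM : PMap QQ (LC.Pr (Bool × Bool) 1).plus :=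
  PMap.ofCont (K := QQ) (L := LC.Pr (Bool × Bool) 1) tensC tensC.continuous

section
variable (T : GBiv)

theorem one_pre {K L : LC} [CompactSpace K] [CompactSpace L] (f : C(K, L)) :
    T.comp (T.J (PMap.ofCont (K := K) (L := L) f f.continuous)) (T.one L) = T.one K := by
  rw [GBiv.one, GBiv.one, ← T.J_comp]
  congr 1

theorem pi_left : T.comp (T.J (piM.tens (LC.Pr Bool 1))) (T.bun (K := QQ) tensC) =
    T.comp (T.J snM) (tau T Bool) := by
  have h1 : piM.tens (LC.Pr Bool 1) = PMap.ofCont (K := QQ) (L := QQ)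
      (⟨fun x => (Pr.line true, x.2), by fun_prop⟩ : C(QQ, QQ))
      (⟨fun x => (Pr.line true, x.2), by fun_prop⟩ : C(QQ, QQ)).continuous := by
    refine PMap.ext fun x => ?_
    rfl
  have h2 : tensC.comp (⟨fun x => (Pr.line true, x.2), by fun_prop⟩ : C(QQ, QQ)) =
      (⟨Pr.ext (jR true), Pr.continuous_ext _⟩ : C(Pr Bool 1, Pr (Bool × Bool) 1)).comp
        (⟨Prod.snd, continuous_snd⟩ : C(QQ, Pr Bool 1)) := by
    refine ContinuousMap.ext fun x => ?_
    exact tensor_line_left true x.2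
  rw [h1, T.bun_comp, h2]
  exact (bun_ext T (K := QQ) (⟨Prod.snd, continuous_snd⟩ : C(QQ, Pr Bool 1)) (jR true)).trans
    (bun_line T (K := QQ) (⟨Prod.snd, continuous_snd⟩ : C(QQ, Pr Bool 1)))

theorem pi_right : T.comp (T.J (PMap.ltens (LC.Pr Bool 1) piM)) (T.bun (K := QQ) tensC) =
    T.comp (T.J fsM) (tau T Bool) := by
  have h1 : PMap.ltens (LC.Pr Bool 1) piM = PMap.ofCont (K := QQ) (L := QQ)
      (⟨fun x => (x.1, Pr.line true), by fun_prop⟩ : C(QQ, QQ))
      (⟨fun x => (x.1, Pr.line true), by fun_prop⟩ : C(QQ, QQ)).continuous := by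
    refine PMap.ext fun x => ?_
    rfl
  have h2 : tensC.comp (⟨fun x => (x.1, Pr.line true), by fun_prop⟩ : C(QQ, QQ)) =
      (⟨Pr.ext (jL true), Pr.continuous_ext _⟩ : C(Pr Bool 1, Pr (Bool × Bool) 1)).comp
        (⟨Prod.fst, continuous_fst⟩ : C(QQ, Pr Bool 1)) := by
    refine ContinuousMap.ext fun x => ?_
    exact tensor_line_right true x.1
  rw [h1, T.bun_comp, h2]
  exact (bun_ext T (K := QQ) (⟨Prod.fst, continuous_fst⟩ : C(QQ, Pr Bool 1)) (jL true)).trans
    (bun_line T (K := QQ) (⟨Prod.fst, continuous_fst⟩ : C(QQ, Pr Bool 1)))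

theorem pi_both : T.comp (T.J (piM.box piM)) (T.bun (K := QQ) tensC) = T.one QQ := by
  have h1 : piM.box piM = PMap.ofCont (K := QQ) (L := QQ)
      (⟨fun _ => (Pr.line true, Pr.line true), by fun_prop⟩ : C(QQ, QQ))
      (⟨fun _ => (Pr.line true, Pr.line true), by fun_prop⟩ : C(QQ, QQ)).continuous := by
    refine PMap.ext fun x => ?_
    rfl
  have h2 : tensC.comp (⟨fun _ => (Pr.line true, Pr.line true), by fun_prop⟩ : C(QQ, QQ)) =
      ContinuousMap.const QQ (tensC (Pr.line true, Pr.line true)) := by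
    refine ContinuousMap.ext fun x => ?_
    rfl
  rw [h1, T.bun_comp, h2]
  exact T.bun_const (K := QQ) _

end

section
variable {R : Biv} (P : PRTheory R) (o : Orient R)

theorem w0_eq (r : R.Hom LC.C (LC.Pr Bool 1)) :
    ∑ i ∈ Finset.range 4, P.comp (P.inc (R.comp (r2 r) (R.comp (R.J tM)
      (o.upow (Bool × Bool) i)))) (P.b o i) =
      P.comp (P.inc (r2 r)) (P.toGBiv.bun (K := QQ) tensC) := by
  have h1 := bun_line P.toGBiv (K := QQ) tensC
  have h2 := tau_sum P o (Bool × Bool)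
  have h3 : Fintype.card (Bool × Bool) = 4 := by decide
  rw [h3] at h2
  rw [h1, h2]
  have h4 : P.comp (P.J (PMap.ofCont (K := QQ) (L := LC.Pr (Bool × Bool) 1) tensC
      tensC.continuous)) (∑ i ∈ Finset.range 4, P.comp (P.inc (o.upow (Bool × Bool) i))
        (P.b o i)) = ∑ i ∈ Finset.range 4, P.comp (P.J tM)
          (P.comp (P.inc (o.upow (Bool × Bool) i)) (P.b o i)) := comp_sum P.toBiv _ _ _
  rw [h4, comp_sum P.toBiv]
  refine Finset.sum_congr rfl fun i _ => ?_
  rw [P.inc_comp, P.inc_comp, P.inc_J, P.assoc, P.assoc]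

theorem cc_w0 (r : R.Hom LC.C (LC.Pr Bool 1))
    (hr : R.comp (R.J collP1) r = R.J (PMap.id _) - R.J piM) :
    P.comp (P.J cc) (P.comp (P.inc (r2 r)) (P.toGBiv.bun (K := QQ) tensC)) =
      P.toGBiv.bun (K := QQ) tensC - P.comp (P.J snM) (tau P.toGBiv Bool) -
        P.comp (P.J fsM) (tau P.toGBiv Bool) + P.toGBiv.one QQ := by
  have h1 := congrArg P.inc (cc_r2 r hr)
  have hsub : ∀ {K L : LC} (x y : R.Hom K L), P.inc (x - y) = P.inc x - P.inc y := fun x y => by
    rw [eq_sub_iff_add_eq, ← P.inc_add, sub_add_cancel]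
  have sub_comp : ∀ {K L M : LC} (x x' : P.Hom K L) (y : P.Hom L M),
      P.comp (x - x') y = P.comp x y - P.comp x' y := fun x x' y => by
    rw [eq_sub_iff_add_eq, ← P.add_comp, sub_add_cancel]
  rw [P.inc_comp, P.inc_add, hsub, hsub, P.inc_J, P.inc_J, P.inc_J, P.inc_J, P.inc_J] at h1
  rw [← P.assoc, h1, P.add_comp, sub_comp, sub_comp, P.id_comp, pi_left, pi_right, pi_both]

theorem hur_main (r : R.Hom LC.C (LC.Pr Bool 1))
    (hr1 : R.comp r (R.J collP1) = R.J (PMap.id _))
    (hr2 : R.comp (R.J collP1) r = R.J (PMap.id _) - R.J piM)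
    (β : P.Hom LC.C LC.point)
    (hβ : P.comp (P.J collP1) β = tau P.toGBiv Bool - P.toGBiv.one (LC.Pr Bool 1))
    (c : P.Hom (LC.Pr Bool 1) LC.point)
    (hc : P.toGBiv.mul (K := LC.Pr Bool 1) (tau P.toGBiv Bool) c =
      P.toGBiv.one (LC.Pr Bool 1))
    (y : P.Hom (LC.C.prod LC.C) LC.point)
    (hy : P.comp (P.J cc) y = P.toGBiv.mul (K := QQ) (P.toGBiv.mul (K := QQ)
      (P.toGBiv.bun (K := QQ) tensC) (P.comp (P.J fsM) c)) (P.comp (P.J snM) c) -
        P.toGBiv.one QQ) :
    y = (∑ i ∈ Finset.range 4, P.comp (P.inc (R.comp (r2 r) (R.comp (R.J tM)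
      (o.upow (Bool × Bool) i)))) (P.b o i)) - ep P.toBiv β β := by
  have hsq : P.J sqM = 0 := by
    rw [← P.inc_J, J_sqM o]
    have h := P.inc_add (0 : R.Hom (LC.Pr Bool 1) (LC.C.prod LC.C)) 0
    rw [add_zero] at h
    exact left_eq_add.1 h
  have hcc : P.comp (P.inc (r2 r)) (P.J cc) = P.J (PMap.id _) := by
    rw [← P.inc_J cc, ← P.inc_comp, r2_cc r hr1, P.inc_J]
  have hee : mulB P.toBiv (P.comp (P.J collP1) β) (P.comp (P.J collP1) β) = 0 := by
    have h := mulB_J P.toBiv collP1 collP1 β β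
    have h2 : P.J (pr2 collP1 collP1) = 0 := hsq
    rw [h2, PR.zero_comp] at h
    exact h
  -- the inverse of the class of the line
  have hce : c = P.toGBiv.one (LC.Pr Bool 1) - P.comp (P.J collP1) β := by
    let := ringP P.toGBiv (LC.Pr Bool 1)
    have e1 : P.comp (P.J collP1) β * P.comp (P.J collP1) β = 0 := hee
    have e2 : tau P.toGBiv Bool = 1 + P.comp (P.J collP1) β := by
      rw [hβ]
      change _ = P.toGBiv.one (LC.Pr Bool 1) + _
      abel
    have e3 : tau P.toGBiv Bool * c = 1 := hc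
    change c = 1 - P.comp (P.J collP1) β
    rw [e2] at e3
    generalize P.comp (P.J collP1) β = e at *
    linear_combination (1 - e) * e3 + c * e1
  have comp_sub : ∀ {K L M : LC} (x : P.Hom K L) (y y' : P.Hom L M),
      P.comp x (y - y') = P.comp x y - P.comp x y' := fun x y y' => by
    rw [eq_sub_iff_add_eq, ← P.comp_add, sub_add_cancel]
  have hf : P.comp (P.J fsM) c = P.toGBiv.one QQ - P.comp (P.J (collP1.comp fsM)) β := by
    rw [hce, comp_sub, P.J_comp, P.assoc]
    congr 1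
    exact one_pre P.toGBiv (K := QQ) (L := LC.Pr Bool 1)
      (⟨Prod.fst, continuous_fst⟩ : C(QQ, Pr Bool 1))
  have hs : P.comp (P.J snM) c = P.toGBiv.one QQ - P.comp (P.J (collP1.comp snM)) β := by
    rw [hce, comp_sub, P.J_comp, P.assoc]
    congr 1
    exact one_pre P.toGBiv (K := QQ) (L := LC.Pr Bool 1)
      (⟨Prod.snd, continuous_snd⟩ : C(QQ, Pr Bool 1))
  have hft : P.comp (P.J fsM) (tau P.toGBiv Bool) =
      P.toGBiv.one QQ + P.comp (P.J (collP1.comp fsM)) β := by
    have h1 : tau P.toGBiv Bool = P.toGBiv.one (LC.Pr Bool 1) + P.comp (P.J collP1) β := by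
      rw [hβ]
      abel
    rw [h1, P.comp_add, P.J_comp, P.assoc]
    congr 1
    exact one_pre P.toGBiv (K := QQ) (L := LC.Pr Bool 1)
      (⟨Prod.fst, continuous_fst⟩ : C(QQ, Pr Bool 1))
  have hst : P.comp (P.J snM) (tau P.toGBiv Bool) =
      P.toGBiv.one QQ + P.comp (P.J (collP1.comp snM)) β := by
    have h1 : tau P.toGBiv Bool = P.toGBiv.one (LC.Pr Bool 1) + P.comp (P.J collP1) β := by
      rw [hβ]
      abel
    rw [h1, P.comp_add, P.J_comp, P.assoc]
    congr 1
    exact one_pre P.toGBiv (K := QQ) (L := LC.Pr Bool 1)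
      (⟨Prod.snd, continuous_snd⟩ : C(QQ, Pr Bool 1))
  have hw := cc_w0 P r hr2
  rw [hft, hst] at hw
  rw [w0_eq]
  have key : P.comp (P.J cc) y = P.comp (P.J cc)
      (P.comp (P.inc (r2 r)) (P.toGBiv.bun (K := QQ) tensC) - ep P.toBiv β β) := by
    rw [comp_sub, hy, hf, hs]
    let := ringP P.toGBiv QQ
    have m1 : P.comp (P.J (collP1.comp fsM)) β * P.comp (P.J (collP1.comp fsM)) β = 0 := by
      have h3 := mulB_pre P.toBiv fsM (P.comp (P.J collP1) β) (P.comp (P.J collP1) β)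
      rw [hee, PR.comp_zero, ← P.assoc, ← P.J_comp] at h3
      exact h3.symm
    have m2 : P.comp (P.J (collP1.comp snM)) β * P.comp (P.J (collP1.comp snM)) β = 0 := by
      have h3 := mulB_pre P.toBiv snM (P.comp (P.J collP1) β) (P.comp (P.J collP1) β)
      rw [hee, PR.comp_zero, ← P.assoc, ← P.J_comp] at h3
      exact h3.symm
    have m3 : P.comp (P.J (collP1.comp fsM)) β * P.comp (P.J (collP1.comp snM)) β =
        P.comp (P.J cc) (ep P.toBiv β β) := by
      have h := mulB_J P.toBiv (collP1.comp fsM) (collP1.comp snM) β β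
      rw [pr2_cc] at h
      exact h
    have m4 : P.comp (P.J cc) (P.comp (P.inc (r2 r)) (P.toGBiv.bun (K := QQ) tensC)) *
        P.comp (P.J (collP1.comp fsM)) β = 0 := by
      have h := mulB_J P.toBiv cc (collP1.comp fsM)
        (P.comp (P.inc (r2 r)) (P.toGBiv.bun (K := QQ) tensC)) β
      rw [J_pr2_fst _ hsq, PR.zero_comp] at h
      exact h
    have m5 : P.comp (P.J cc) (P.comp (P.inc (r2 r)) (P.toGBiv.bun (K := QQ) tensC)) *
        P.comp (P.J (collP1.comp snM)) β = 0 := by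
      have h := mulB_J P.toBiv cc (collP1.comp snM)
        (P.comp (P.inc (r2 r)) (P.toGBiv.bun (K := QQ) tensC)) β
      rw [J_pr2_snd _ hsq, PR.zero_comp] at h
      exact h
    rw [← m3]
    generalize P.comp (P.J cc) (P.comp (P.inc (r2 r)) (P.toGBiv.bun (K := QQ) tensC)) = w at *
    generalize P.comp (P.J (collP1.comp fsM)) β = a at *
    generalize P.comp (P.J (collP1.comp snM)) β = b at *
    generalize P.toGBiv.bun (K := QQ) tensC = B at *
    change B * (1 - a) * (1 - b) - 1 = w - a * b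
    have hw' : w = B - (1 + b) - (1 + a) + 1 := hw
    linear_combination (-(1 - a) * (1 - b)) * hw' + (b - 1) * m4 - m5 + (b - 1) * m1 + (a - 1) * m2
  calc y = P.comp (P.J (PMap.id _)) y := (P.id_comp _).symm
    _ = P.comp (P.inc (r2 r)) (P.comp (P.J cc) y) := by rw [← hcc, P.assoc]
    _ = _ := by rw [key, ← P.assoc, hcc, P.id_comp]

end

end Pool.Agent.Helper63.Stab.Hur
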