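import Pool.Agent.Helper63.Stab.PrC

/-! The colimit of the groups `R(K, G(κ) × Z)` is a theory over `S[BU]`. -/

open Topology Filter Set

noncomputable section

namespace Pool.Agent.Helper63.Stab

open Pool.Agent.Helper1.Stab

namespace PR

variable {R : Biv}
variable {κ l m κ' l' : Type} [Fintype κ] [Fintype l] [Fintype m] [Fintype κ'] [Fintype l']
variable {K L M N Z W : LC}

/-! ## Exactness -/

theorem cls_neg (x : Rp R κ K Z) : cls (-x) = - cls x := by
  rw [eq_neg_iff_add_eq_zero, ← cls_add, neg_add_cancel, cls_zero]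

theorem cls_sub (x y : Rp R κ K Z) : cls (x - y) = cls x - cls y := by
  rw [sub_eq_add_neg, cls_add, cls_neg, sub_eq_add_neg]

theorem J_zero' (K L : LC) : inc (R.J (PMap.zero K L.plus)) = 0 := by
  rw [R.J_zero, inc, zero_comp, cls_zero]

theorem tens_J' (f : PMap K L.plus) (Z : LC) : tens (inc (R.J f)) Z = inc (R.J (f.tens Z)) := by
  rw [← inc_tens, R.tens_J]

variable (κ L) in
/-- the associativity for the suspension -/
def asR : ((LC.G κ).prod L).prod LC.R ≃ₜ (LC.G κ).prod (L.prod LC.R) :=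
  Homeomorph.prodAssoc (LC.G κ) L LC.R

theorem tn_R (x : Rp R κ K L) : tn x LC.R = R.comp (R.tens x LC.R) (jh R (asR κ L)) := rfl

theorem tn_R_injective (x : Rp R κ K L) (h : tn x LC.R = 0) : x = 0 := by
  have h1 : R.tens x LC.R = 0 := by
    rw [tn_R] at h
    rw [← R.comp_id (R.tens x LC.R), ← jh_comp_symm' R (asR κ L), ← R.assoc, h, zero_comp]
  refine (R.susp K ((LC.G κ).prod L)).1 ?_
  change R.tens x LC.R = R.tens 0 LC.R
  rw [h1]
  have h3 := R.tens_add (0 : R.Hom K ((LC.G κ).prod L)) 0 LC.R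
  rw [add_zero] at h3
  exact (left_eq_add.1 h3).symm

theorem tn_R_surjective (w : Rp R κ (K.prod LC.R) (L.prod LC.R)) :
    ∃ x : Rp R κ K L, tn x LC.R = w := by
  obtain ⟨x, hx⟩ := (R.susp K ((LC.G κ).prod L)).2 (R.comp w (jh R (asR κ L).symm))
  refine ⟨x, ?_⟩
  have hx' : R.tens x LC.R = R.comp w (jh R (asR κ L).symm) := hx
  rw [tn_R, hx', R.assoc, jh_symm_comp', R.comp_id]

theorem susp (K L : LC) : Function.Bijective (fun x : P R K L => tens x LC.R) := by
  constructor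
  · change Function.Injective (tensHom K L LC.R)
    rw [injective_iff_map_eq_zero]
    intro x hx
    obtain ⟨n, y, rfl⟩ := exists_cls x
    have hx' : cls (tn y LC.R) = 0 := (tens_cls y LC.R).symm.trans hx
    obtain ⟨m, hm⟩ := cls_eq_zero hx'
    have h := hm m le_rfl
    rw [← tn_ex] at h
    rw [← cls_ex y (Function.Embedding.inl : Fin n ↪ Fin n ⊕ Fin m), tn_R_injective _ h, cls_zero]
  · intro w
    obtain ⟨n, w, rfl⟩ := exists_cls w
    obtain ⟨x, hx⟩ := tn_R_surjective w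
    exact ⟨cls x, (tens_cls x LC.R).trans (congrArg cls hx)⟩

/-- composition with a class of `R` at a stage -/
theorem comp_ex (x : R.Hom K L) (y : Rp R κ L Z) (j : κ ↪ l) :
    R.comp x (ex y j) = ex (R.comp x y) j := by
  rw [ex, ex, R.assoc]

theorem mv1 (u : C(K, ℝ)) (x : P R K L) (h1 : comp (inc (R.J (MV.iA u))) x = 0)
    (h2 : comp (inc (R.J (MV.iB u))) x = 0) :
    ∃ y : P R (LC.R.prod (MV.C u)) L, x = comp (inc (R.J (MV.delta u))) y := by
  obtain ⟨n, x, rfl⟩ := exists_cls x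
  rw [inc_comp_cls] at h1 h2
  obtain ⟨m1, hm1⟩ := cls_eq_zero h1
  obtain ⟨m2, hm2⟩ := cls_eq_zero h2
  have e1 := hm1 (max m1 m2) (le_max_left _ _)
  have e2 := hm2 (max m1 m2) (le_max_right _ _)
  rw [← comp_ex] at e1 e2
  obtain ⟨y, hy⟩ := R.mv1 u _ e1 e2
  refine ⟨cls y, ?_⟩
  rw [inc_comp_cls, ← hy, cls_ex]

theorem mv2 (u : C(K, ℝ)) (a : P R (MV.A u) L) (b : P R (MV.B u) L)
    (h : comp (inc (R.J (MV.iCA u))) a = comp (inc (R.J (MV.iCB u))) b) :
    ∃ x : P R K L, comp (inc (R.J (MV.iA u))) x = a ∧ comp (inc (R.J (MV.iB u))) x = b := by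
  obtain ⟨n, a, b, rfl, rfl⟩ := exists_common a b
  rw [inc_comp_cls, inc_comp_cls, ← sub_eq_zero, ← cls_sub] at h
  obtain ⟨m, hm⟩ := cls_eq_zero h
  have e := hm m le_rfl
  have e' : R.comp (R.J (MV.iCA u)) (ex a (Function.Embedding.inl : Fin n ↪ Fin n ⊕ Fin m)) =
      R.comp (R.J (MV.iCB u)) (ex b (Function.Embedding.inl : Fin n ↪ Fin n ⊕ Fin m)) := by
    rw [comp_ex, comp_ex]
    have h3 := ex_add (R.comp (R.J (MV.iCA u)) a - R.comp (R.J (MV.iCB u)) b)
      (R.comp (R.J (MV.iCB u)) b) (Function.Embedding.inl : Fin n ↪ Fin n ⊕ Fin m)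
    rw [sub_add_cancel, e, zero_add] at h3
    exact h3
  obtain ⟨x, hx1, hx2⟩ := R.mv2 u _ _ e'
  refine ⟨cls x, ?_, ?_⟩
  · rw [inc_comp_cls, hx1, cls_ex]
  · rw [inc_comp_cls, hx2, cls_ex]

theorem mv3 (u : C(K, ℝ)) (y : P R (LC.R.prod (MV.C u)) L)
    (h : comp (inc (R.J (MV.delta u))) y = 0) :
    ∃ (a : P R (LC.R.prod (MV.A u)) L) (b : P R (LC.R.prod (MV.B u)) L),
      y = comp (inc (R.J (PMap.ltens LC.R (MV.iCA u)))) a -
        comp (inc (R.J (PMap.ltens LC.R (MV.iCB u)))) b := by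
  obtain ⟨n, y, rfl⟩ := exists_cls y
  rw [inc_comp_cls] at h
  obtain ⟨m, hm⟩ := cls_eq_zero h
  have e := hm m le_rfl
  rw [← comp_ex] at e
  obtain ⟨a, b, hab⟩ := R.mv3 u _ e
  refine ⟨cls a, cls b, ?_⟩
  rw [inc_comp_cls, inc_comp_cls, ← cls_sub, ← hab, cls_ex]

variable (R) in
/-- the bivariant theory -/
def biv : Biv where
  toBivData := data R
  J_homotopic h := congrArg inc (R.J_homotopic h)
  J_comp f g := (congrArg inc (R.J_comp f g)).trans (inc_comp _ _)
  J_zero K L := J_zero' K L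
  id_comp x := id_comp x
  comp_id x := comp_id x
  assoc x y z := comp_assoc x y z
  add_comp x x' y := add_comp x x' y
  comp_add x y y' := comp_add x y y'
  tens_add x x' Z := tens_add x x' Z
  tens_comp x y Z := tens_comp x y Z
  tens_J f Z := tens_J' f Z
  tens_tens x Z W := tens_tens x Z W
  tens_point x := tens_point x
  exch x y := exch x y
  susp K L := susp K L
  mv1 u x h1 h2 := mv1 u x h1 h2
  mv2 u a b h := mv2 u a b h
  mv3 u y h := mv3 u y h

/-! ## The Thom classes -/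

variable (R) in
/-- `G κ → G κ × pt` -/
def gp (κ : Type) [Fintype κ] : PMap (LC.G κ) ((LC.G κ).prod LC.point).plus :=
  PMap.ofHomeo (Homeomorph.prodPUnit (LC.G κ) : (LC.G κ).prod LC.point ≃ₜ LC.G κ).symm

variable (R) in
/-- the class of `G κ` -/
def gc (κ : Type) [Fintype κ] : P R (LC.G κ) LC.point := cls (κ := κ) (R.J (gp κ))

theorem g_base (κ : Type) [Fintype κ] :
    comp (inc (R.J (PMap.ofPoint (K := LC.G κ) (GK.base κ)))) (gc R κ) =
      inc (R.J (PMap.id LC.point)) := by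
  rw [gc, inc_comp_cls, inc_eq κ, R.id_comp, ← R.J_comp]
  congr 2

theorem g_reindex (e : κ ≃ l) :
    comp (inc (R.J (PMap.ofHomeo (K := LC.G κ) (L := LC.G l) (GK.reindex e)))) (gc R l) =
      gc R κ := by
  rw [gc, gc, inc_comp_cls, ← cls_ex (R.J (gp κ) : Rp R κ _ _) e.toEmbedding, ex, gx_equiv,
    R.tens_J, ← R.J_comp, ← R.J_comp]
  congr 2

theorem g_sum (κ l : Type) [Fintype κ] [Fintype l] :
    comp (inc (R.J (GK.sumMap κ l))) (gc R (κ ⊕ l)) =
      comp (comp (tens (gc R κ) (LC.G l)) ((data R).ltens LC.point (gc R l)))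
        (inc (R.J (PMap.ofHomeo (Homeomorph.prodPUnit LC.point :
          LC.point.prod LC.point ≃ₜ LC.point)))) := by
  rw [gc, gc, gc, ltens_cls, inc_comp_cls, tens_cls, comp_cls, cls_comp_inc, lt_def, tn, cmp,
    ltens_comp, ← jh_def, ← jh_def]
  simp only [R.tens_J, ltens_J, ← R.J_comp]
  congr 2

theorem tens_g (κ : Type) [Fintype κ] (Z : LC) :
    comp (tens (gc R κ) Z) (inc (R.J (PMap.ofHomeo (Homeomorph.punitProd Z :
      LC.point.prod Z ≃ₜ Z)))) =
      cls (κ := κ) (R.J (PMap.id ((LC.G κ).prod Z))) := by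
  rw [gc, tens_cls, cls_comp_inc, tn, ← jh_def]
  simp only [R.tens_J, ltens_J, ← R.J_comp]
  congr 2

end PR

end Pool.Agent.Helper63.Stab
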