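import Pool.Agent.Helper68.Stab.Unstable

/-! Calculus of a class of a bivariant theory placed at one position of a product. -/

open Topology Filter Set

noncomputable section

namespace Pool.Agent.Helper63.Stab

open Pool.Agent.Helper1.Stab

/-- `(w, z)` with `w` decomposed, a new factor on the right -/
def rp (Z : LC) {M K W : LC} (p : M ≃ₜ K.prod W) : M.prod Z ≃ₜ K.prod (W.prod Z) where
  toFun v := ((p v.1).1, ((p v.1).2, v.2))
  invFun v := (p.symm (v.1, v.2.1), v.2.2)
  left_inv v := by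
    have h : (((p v.1).1, (p v.1).2) : K.prod W) = p v.1 := rfl
    simp only [h, p.symm_apply_apply]
  right_inv v := by simp only [p.apply_symm_apply]
  continuous_toFun := by fun_prop
  continuous_invFun := by fun_prop

/-- a new factor on the left -/
def lp (Z : LC) {M K W : LC} (p : M ≃ₜ K.prod W) : Z.prod M ≃ₜ K.prod (Z.prod W) where
  toFun v := ((p v.2).1, (v.1, (p v.2).2))
  invFun v := (v.2.1, p.symm (v.1, v.2.2))
  left_inv v := by
    have h : (((p v.2).1, (p v.2).2) : K.prod W) = p v.2 := rfl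
    simp only [h, p.symm_apply_apply]
  right_inv v := by simp only [p.apply_symm_apply]
  continuous_toFun := by fun_prop
  continuous_invFun := by fun_prop

variable (R : Biv)

/-- the class of a homeomorphism -/
def jh {K L : LC} (e : K ≃ₜ L) : R.Hom K L := R.J (PMap.ofHomeo e)

theorem jh_def {K L : LC} (e : K ≃ₜ L) : R.J (PMap.ofHomeo e) = jh R e := rfl

theorem jh_congr {K L : LC} {e e' : K ≃ₜ L} (h : ∀ k, e k = e' k) : jh R e = jh R e' := by
  rw [Homeomorph.ext h]

theorem jh_trans {K L M : LC} (e : K ≃ₜ L) (e' : L ≃ₜ M) :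
    jh R (e.trans e') = R.comp (jh R e) (jh R e') := by
  rw [jh, jh, jh, ← R.J_comp]
  congr 1

theorem jh_refl (K : LC) : jh R (Homeomorph.refl K) = R.J (PMap.id K) := rfl

theorem jh_id {K : LC} {e : K ≃ₜ K} (h : ∀ k, e k = k) : jh R e = R.J (PMap.id K) := by
  rw [← jh_refl]
  exact jh_congr R h

theorem jh_refl_comp {K L : LC} (x : R.Hom K L) : R.comp (jh R (Homeomorph.refl K)) x = x :=
  R.id_comp x

theorem comp_jh_refl {K L : LC} (x : R.Hom K L) : R.comp x (jh R (Homeomorph.refl L)) = x :=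
  R.comp_id x

theorem jh_symm_comp {K L M : LC} (e : K ≃ₜ L) (x : R.Hom L M) :
    R.comp (jh R e.symm) (R.comp (jh R e) x) = x := by
  rw [← R.assoc, ← jh_trans, jh_id R (e := e.symm.trans e) (fun k => e.apply_symm_apply k),
    R.id_comp]

theorem jh_comp_symm {K L M : LC} (e : K ≃ₜ L) (x : R.Hom K M) :
    R.comp (jh R e) (R.comp (jh R e.symm) x) = x := by
  rw [← R.assoc, ← jh_trans, jh_id R (e := e.trans e.symm) (fun k => e.symm_apply_apply k),
    R.id_comp]

theorem jh_comp_symm' {K L : LC} (e : K ≃ₜ L) :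
    R.comp (jh R e) (jh R e.symm) = R.J (PMap.id K) := by
  rw [← jh_trans, jh_id R (e := e.trans e.symm) (fun k => e.symm_apply_apply k)]

theorem jh_symm_comp' {K L : LC} (e : K ≃ₜ L) :
    R.comp (jh R e.symm) (jh R e) = R.J (PMap.id L) := by
  rw [← jh_trans, jh_id R (e := e.symm.trans e) (fun k => e.apply_symm_apply k)]

/-- commuting squares of homeomorphisms -/
theorem jh_square {K L M N : LC} {a : K ≃ₜ L} {b : L ≃ₜ N} {c : K ≃ₜ M} {d : M ≃ₜ N}
    (h : ∀ k, b (a k) = d (c k)) : R.comp (jh R a) (jh R b) = R.comp (jh R c) (jh R d) := by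
  rw [← jh_trans, ← jh_trans]
  exact jh_congr R h

theorem tens_jh {K L : LC} (e : K ≃ₜ L) (Z : LC) :
    R.tens (jh R e) Z = jh R (K := K.prod Z) (L := L.prod Z) (e.prodCongr (Homeomorph.refl Z)) := by
  rw [jh, jh, R.tens_J]
  congr 1

theorem ltens_def (Z : LC) {K L : LC} (x : R.Hom K L) :
    R.ltens Z x = R.comp (jh R (LC.swap Z K)) (R.comp (R.tens x Z) (jh R (LC.swap L Z))) := rfl

theorem ltens_jh {K L : LC} (e : K ≃ₜ L) (Z : LC) :
    R.ltens Z (jh R e) = jh R (K := Z.prod K) (L := Z.prod L) ((Homeomorph.refl Z).prodCongr e) := by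
  rw [ltens_def, tens_jh, ← jh_trans, ← jh_trans]
  exact jh_congr R fun k => rfl

theorem tens_id (K Z : LC) : R.tens (R.J (PMap.id K)) Z = R.J (PMap.id (K.prod Z)) := by
  rw [← jh_refl, tens_jh]
  exact jh_id R fun k => rfl

theorem ltens_id (K Z : LC) : R.ltens Z (R.J (PMap.id K)) = R.J (PMap.id (Z.prod K)) := by
  rw [← jh_refl, ltens_jh]
  exact jh_id R fun k => rfl

theorem ltens_comp (Z : LC) {K L M : LC} (x : R.Hom K L) (y : R.Hom L M) :
    R.ltens Z (R.comp x y) = R.comp (R.ltens Z x) (R.ltens Z y) := by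
  rw [ltens_def, ltens_def, ltens_def, R.tens_comp]
  simp only [R.assoc]
  congr 2
  have h : R.comp (jh R (LC.swap L Z)) (R.comp (jh R (LC.swap Z L))
      (R.comp (R.tens y Z) (jh R (LC.swap M Z)))) = R.comp (R.tens y Z) (jh R (LC.swap M Z)) :=
    jh_comp_symm R (LC.swap L Z) _
  rw [h]

/-- naturality in the spectator -/
theorem tens_nat {K L Z W : LC} (x : R.Hom K L) (e : Z ≃ₜ W) :
    R.comp (R.tens x Z) (jh R (K := L.prod Z) (L := L.prod W) ((Homeomorph.refl L).prodCongr e)) =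
      R.comp (jh R (K := K.prod Z) (L := K.prod W) ((Homeomorph.refl K).prodCongr e))
        (R.tens x W) := by
  have h := R.exch x (jh R e)
  rw [ltens_jh, ltens_jh] at h
  exact h

/-- the class `x` placed at the position given by `p`, `q` -/
def pl {K L : LC} (x : R.Hom K L) {W M N : LC} (p : M ≃ₜ K.prod W) (q : N ≃ₜ L.prod W) :
    R.Hom M N := R.comp (jh R p) (R.comp (R.tens x W) (jh R q.symm))

variable {R}

theorem pl_comp {K L P : LC} (x : R.Hom K L) (y : R.Hom L P) {W M N Q : LC} (p : M ≃ₜ K.prod W)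
    (q : N ≃ₜ L.prod W) (r : Q ≃ₜ P.prod W) :
    R.comp (pl R x p q) (pl R y q r) = pl R (R.comp x y) p r := by
  rw [pl, pl, pl, R.tens_comp]
  simp only [R.assoc]
  rw [jh_symm_comp]

theorem pl_comm {K L : LC} (x : R.Hom K L) {W W' M N M' N' : LC} (a : W ≃ₜ W')
    (p : M ≃ₜ K.prod W) (q : N ≃ₜ L.prod W) (p' : M' ≃ₜ K.prod W') (q' : N' ≃ₜ L.prod W')
    (r : M ≃ₜ M') (r' : N ≃ₜ N') (h1 : ∀ m, p' (r m) = ((p m).1, a (p m).2))
    (h2 : ∀ n, q' (r' n) = ((q n).1, a (q n).2)) :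
    R.comp (jh R r) (pl R x p' q') = R.comp (pl R x p q) (jh R r') := by
  rw [pl, pl]
  simp only [R.assoc]
  have e1 : R.comp (jh R r) (jh R p') = R.comp (jh R p)
      (jh R (K := K.prod W) (L := K.prod W') ((Homeomorph.refl K).prodCongr a)) :=
    jh_square R fun m => h1 m
  have e2 : R.comp (jh R (K := L.prod W) (L := L.prod W') ((Homeomorph.refl L).prodCongr a))
      (jh R q'.symm) = R.comp (jh R q.symm) (jh R r') := by
    refine jh_square R fun n => ?_
    rw [q'.symm_apply_eq, h2, q.apply_symm_apply]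
    rfl
  rw [← R.assoc, e1, R.assoc, ← R.assoc (jh R (K := K.prod W) _) , ← tens_nat, R.assoc, e2]

theorem tens_pl {K L : LC} (x : R.Hom K L) {W M N : LC} (p : M ≃ₜ K.prod W)
    (q : N ≃ₜ L.prod W) (Z : LC) : R.tens (pl R x p q) Z = pl R x (rp Z p) (rp Z q) := by
  have h := R.tens_tens x W Z
  rw [jh_def, jh_def] at h
  have h2 : R.tens (R.tens x W) Z = R.comp (jh R (Homeomorph.prodAssoc K W Z :
      (K.prod W).prod Z ≃ₜ K.prod (W.prod Z))) (R.comp (R.tens x (W.prod Z))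
        (jh R (Homeomorph.prodAssoc L W Z : (L.prod W).prod Z ≃ₜ L.prod (W.prod Z)).symm)) := by
    rw [← R.assoc, ← h, R.assoc, jh_comp_symm', R.comp_id]
  rw [pl, pl, R.tens_comp, R.tens_comp, tens_jh, tens_jh, h2]
  simp only [R.assoc]
  rw [← jh_trans, ← R.assoc, ← jh_trans]
  congr 1

theorem ltens_pl {K L : LC} (x : R.Hom K L) {W M N : LC} (p : M ≃ₜ K.prod W)
    (q : N ≃ₜ L.prod W) (Z : LC) : R.ltens Z (pl R x p q) = pl R x (lp Z p) (lp Z q) := by
  rw [ltens_def, tens_pl]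
  have h := pl_comm x (LC.swap Z W) (lp Z p) (lp Z q) (rp Z p) (rp Z q) (LC.swap Z M) (LC.swap Z N)
    (fun m => rfl) (fun n => rfl)
  rw [← R.assoc, h, R.assoc]
  have h2 : R.comp (jh R (LC.swap Z N)) (jh R (LC.swap N Z)) = R.J (PMap.id _) :=
    jh_comp_symm' R (LC.swap Z N)
  rw [h2, R.comp_id]

theorem tens_eq_pl {K L : LC} (x : R.Hom K L) (Z : LC) :
    R.tens x Z = pl R x (Homeomorph.refl (K.prod Z)) (Homeomorph.refl (L.prod Z)) := by
  rw [pl, jh_refl_comp]
  exact (R.comp_id _).symm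

theorem ltens_eq_pl {K L : LC} (x : R.Hom K L) (Z : LC) :
    R.ltens Z x = pl R x (LC.swap Z K) (LC.swap Z L) := rfl

theorem eq_pl {K L : LC} (x : R.Hom K L) :
    x = pl R x (W := LC.point) (Homeomorph.prodPUnit K).symm (Homeomorph.prodPUnit L).symm := by
  have h := R.tens_point x
  rw [jh_def, jh_def] at h
  rw [pl]
  have h2 : R.comp (R.tens x LC.point) (jh R (Homeomorph.prodPUnit L).symm.symm) =
    R.comp (jh R (Homeomorph.prodPUnit K : K.prod LC.point ≃ₜ K)) x := h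
  rw [h2]
  exact (jh_symm_comp R (K := K.prod LC.point) (L := K) (Homeomorph.prodPUnit K) x).symm

/-- a homeomorphism before a placed class -/
theorem jh_pl {K L : LC} (x : R.Hom K L) {W M N M' : LC} (p : M ≃ₜ K.prod W)
    (q : N ≃ₜ L.prod W) (r : M' ≃ₜ M) : R.comp (jh R r) (pl R x p q) = pl R x (r.trans p) q := by
  rw [pl, pl, jh_trans, R.assoc]

/-- a homeomorphism after a placed class -/
theorem pl_jh {K L : LC} (x : R.Hom K L) {W M N N' : LC} (p : M ≃ₜ K.prod W)
    (q : N ≃ₜ L.prod W) (r : N ≃ₜ N') :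
    R.comp (pl R x p q) (jh R r) = pl R x p (r.symm.trans q) := by
  rw [pl, pl, R.assoc, R.assoc, ← jh_trans]
  rfl

theorem pl_congr {K L : LC} (x : R.Hom K L) {W W' M N : LC} (a : W ≃ₜ W') (p : M ≃ₜ K.prod W)
    (q : N ≃ₜ L.prod W) (p' : M ≃ₜ K.prod W') (q' : N ≃ₜ L.prod W')
    (h1 : ∀ m, p' m = ((p m).1, a (p m).2)) (h2 : ∀ n, q' n = ((q n).1, a (q n).2)) :
    pl R x p' q' = pl R x p q := by
  have h := pl_comm x a p q p' q' (Homeomorph.refl M) (Homeomorph.refl N) h1 h2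
  rwa [jh_refl_comp, comp_jh_refl] at h

theorem tens_tens_eq_pl {K L : LC} (x : R.Hom K L) (Z W : LC) :
    R.tens (R.tens x Z) W = pl R x (W := Z.prod W) (M := (K.prod Z).prod W)
      (N := (L.prod Z).prod W) (Homeomorph.prodAssoc K Z W : (K.prod Z).prod W ≃ₜ K.prod (Z.prod W))
      (Homeomorph.prodAssoc L Z W : (L.prod Z).prod W ≃ₜ L.prod (Z.prod W)) := by
  rw [tens_eq_pl x Z, tens_pl]
  exact pl_congr x (Homeomorph.refl _) _ _ _ _ (fun m => rfl) (fun n => rfl)

theorem pl_tens {K L : LC} (x : R.Hom K L) (Z : LC) {W M N : LC} (p : M ≃ₜ (K.prod Z).prod W)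
    (q : N ≃ₜ (L.prod Z).prod W) : pl R (R.tens x Z) p q = pl R x (W := Z.prod W)
      (p.trans (Homeomorph.prodAssoc K Z W : (K.prod Z).prod W ≃ₜ K.prod (Z.prod W)))
      (q.trans (Homeomorph.prodAssoc L Z W : (L.prod Z).prod W ≃ₜ L.prod (Z.prod W))) := by
  have h : pl R (R.tens x Z) p q =
      R.comp (jh R p) (R.comp (R.tens (R.tens x Z) W) (jh R q.symm)) := rfl
  rw [h, tens_tens_eq_pl, pl_jh, jh_pl]
  exact pl_congr x (Homeomorph.refl _) _ _ _ _ (fun m => rfl) (fun n => rfl)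

/-- two classes at different positions commute -/
theorem exch' {K L Z W : LC} (x : R.Hom K L) (y : R.Hom Z W) :
    R.comp (R.tens x Z) (R.ltens L y) = R.comp (R.ltens K y) (R.tens x W) := R.exch x y

end Pool.Agent.Helper63.Stab
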