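import Pool.Agent.Helper63.Stab.CalA

/-! Spaces with complex coordinates, and classes that are a fixed class up to coordinates. -/

open Topology Filter Set

noncomputable section

namespace Pool.Agent.Helper63.Stab

open Pool.Agent.Helper1.Stab

/-- a space with complex coordinates -/
class Crd (X : Type) [TopologicalSpace X] where
  ι : Type
  fin : Fintype ι
  h : X ≃ₜ (ι → ℂ)

instance crdFin (X : Type) [TopologicalSpace X] [Crd X] : Fintype (Crd.ι X) := Crd.fin

/-- the number of coordinates -/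
def dm (X : Type) [TopologicalSpace X] [Crd X] : ℕ := Fintype.card (Crd.ι X)

instance crdPi (ι : Type) [Fintype ι] : Crd (ι → ℂ) where
  ι := ι
  fin := inferInstance
  h := Homeomorph.refl _

instance crdC : Crd ℂ where
  ι := PUnit
  fin := inferInstance
  h := (Homeomorph.funUnique PUnit ℂ).symm

instance crdPoint : Crd PUnit where
  ι := PEmpty
  fin := inferInstance
  h := { toFun := fun _ => fun i => i.elim
         invFun := fun _ => PUnit.unit
         left_inv := fun _ => rfl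
         right_inv := fun _ => Subsingleton.elim _ _
         continuous_toFun := by fun_prop
         continuous_invFun := by fun_prop }

instance crdPointEmpty : IsEmpty (Crd.ι PUnit.{1}) := inferInstanceAs (IsEmpty PEmpty)

/-- the coordinates of a product -/
def crdProdH {X Y ι κ : Type} [TopologicalSpace X] [TopologicalSpace Y] (h : X ≃ₜ (ι → ℂ))
    (h' : Y ≃ₜ (κ → ℂ)) : X × Y ≃ₜ (ι ⊕ κ → ℂ) where
  toFun v := Sum.elim (h v.1) (h' v.2)
  invFun w := (h.symm fun i => w (Sum.inl i), h'.symm fun i => w (Sum.inr i))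
  left_inv v := by
    refine Prod.ext ?_ ?_
    · exact h.symm_apply_apply v.1
    · exact h'.symm_apply_apply v.2
  right_inv w := by
    funext i
    rcases i with i | i
    · exact congrFun (h.apply_symm_apply _) i
    · exact congrFun (h'.apply_symm_apply _) i
  continuous_toFun := by
    refine continuous_pi fun i => ?_
    rcases i with i | i
    · exact (continuous_apply i).comp (h.continuous.comp continuous_fst)
    · exact (continuous_apply i).comp (h'.continuous.comp continuous_snd)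
  continuous_invFun := by
    refine Continuous.prodMk ?_ ?_
    · exact h.symm.continuous.comp (continuous_pi fun i => continuous_apply _)
    · exact h'.symm.continuous.comp (continuous_pi fun i => continuous_apply _)

instance crdProd (X Y : Type) [TopologicalSpace X] [TopologicalSpace Y] [Crd X] [Crd Y] :
    Crd (X × Y) where
  ι := Crd.ι X ⊕ Crd.ι Y
  fin := inferInstance
  h := crdProdH Crd.h Crd.h

theorem dm_prod (X Y : Type) [TopologicalSpace X] [TopologicalSpace Y] [Crd X] [Crd Y] :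
    dm (X × Y) = dm X + dm Y := Fintype.card_sum

theorem dm_C : dm ℂ = 1 := Fintype.card_punit

theorem dm_point : dm PUnit = 0 := Fintype.card_pempty

theorem dm_pi (ι : Type) [Fintype ι] : dm (ι → ℂ) = Fintype.card ι := rfl

/-- a bijection of coordinates -/
def IsPerm {X Y : Type} [TopologicalSpace X] [TopologicalSpace Y] [Crd X] [Crd Y] (e : X ≃ₜ Y) :
    Prop :=
  ∃ p : Crd.ι X ≃ Crd.ι Y, ∀ k i, Crd.h (e k) (p i) = Crd.h k i

namespace IsPerm

section
variable {X Y Z W : Type} [TopologicalSpace X] [TopologicalSpace Y] [TopologicalSpace Z]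
  [TopologicalSpace W] [Crd X] [Crd Y] [Crd Z] [Crd W]

theorem refl (X : Type) [TopologicalSpace X] [Crd X] : IsPerm (Homeomorph.refl X) :=
  ⟨Equiv.refl _, fun _ _ => rfl⟩

theorem of_eq {e e' : X ≃ₜ Y} (h : IsPerm e) (h' : ∀ k, e' k = e k) : IsPerm e' := by
  rwa [Homeomorph.ext h']

theorem symm {e : X ≃ₜ Y} (h : IsPerm e) : IsPerm e.symm := by
  obtain ⟨p, hp⟩ := h
  refine ⟨p.symm, fun k i => ?_⟩
  have := hp (e.symm k) (p.symm i)
  rw [e.apply_symm_apply, p.apply_symm_apply] at this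
  exact this.symm

theorem trans {e : X ≃ₜ Y} {e' : Y ≃ₜ Z} (h : IsPerm e) (h' : IsPerm e') :
    IsPerm (e.trans e') := by
  obtain ⟨p, hp⟩ := h
  obtain ⟨p', hp'⟩ := h'
  exact ⟨p.trans p', fun k i => (hp' (e k) (p i)).trans (hp k i)⟩

theorem prodCongr {e : X ≃ₜ Y} {e' : Z ≃ₜ W} (h : IsPerm e) (h' : IsPerm e') :
    IsPerm (e.prodCongr e') := by
  obtain ⟨p, hp⟩ := h
  obtain ⟨p', hp'⟩ := h'
  refine ⟨p.sumCongr p', fun k i => ?_⟩
  rcases i with i | i
  · exact hp k.1 i
  · exact hp' k.2 i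

theorem prodAssoc (X Y Z : Type) [TopologicalSpace X] [TopologicalSpace Y] [TopologicalSpace Z]
    [Crd X] [Crd Y] [Crd Z] : IsPerm (Homeomorph.prodAssoc X Y Z) := by
  refine ⟨Equiv.sumAssoc _ _ _, fun k i => ?_⟩
  rcases i with (i | i) | i <;> rfl

theorem prodComm (X Y : Type) [TopologicalSpace X] [TopologicalSpace Y] [Crd X] [Crd Y] :
    IsPerm (Homeomorph.prodComm X Y) := by
  refine ⟨Equiv.sumComm _ _, fun k i => ?_⟩
  rcases i with i | i <;> rfl

theorem prodPUnit (X : Type) [TopologicalSpace X] [Crd X] :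
    IsPerm (Homeomorph.prodPUnit X) := by
  refine ⟨Equiv.sumEmpty _ _, fun k i => ?_⟩
  rcases i with i | i
  · rfl
  · exact i.elim

theorem dm_eq {e : X ≃ₜ Y} (h : IsPerm e) : dm X = dm Y := Fintype.card_congr h.choose

end

variable {K L M N : LC} [Crd K] [Crd L] [Crd M] [Crd N]

theorem rp (Z : LC) [Crd Z] {p : M ≃ₜ K.prod L} (h : IsPerm p) :
    IsPerm (Pool.Agent.Helper63.Stab.rp Z p) :=
  ((h.prodCongr (refl Z)).trans (prodAssoc K L Z)).of_eq fun _ => rfl

theorem lp (Z : LC) [Crd Z] {p : M ≃ₜ K.prod L} (h : IsPerm p) :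
    IsPerm (Pool.Agent.Helper63.Stab.lp Z p) :=
  (((prodComm Z M).trans (h.rp Z)).trans ((refl K).prodCongr (prodComm L Z))).of_eq fun _ => rfl

/-- the class of a bijection of coordinates does not depend on the bijection -/
theorem jh_eq (R : Biv) {e e' : K ≃ₜ L} (h : IsPerm e) (h' : IsPerm e') : jh R e = jh R e' := by
  obtain ⟨p, hp⟩ := h
  obtain ⟨p', hp'⟩ := h'
  have key : ∀ (e : K ≃ₜ L) (p : Crd.ι K ≃ Crd.ι L), (∀ k i, Crd.h (e k) (p i) = Crd.h k i) →
      jh R e = R.comp (jh R (K := K) (L := LC.cpow (Crd.ι K)) Crd.h) (R.comp (jh R (cperm p))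
        (jh R (K := LC.cpow (Crd.ι L)) (L := L) (Crd.h (X := L)).symm)) := by
    intro e p hp
    rw [← jh_trans, ← jh_trans]
    refine jh_congr R fun k => ?_
    refine (Crd.h (X := L)).injective ?_
    change _ = Crd.h ((Crd.h (X := L)).symm _)
    rw [Homeomorph.apply_symm_apply]
    funext i
    have := hp k (p.symm i)
    rw [p.apply_symm_apply] at this
    exact this
  have h2 : jh R (cperm p') = jh R (cperm p) := by
    have h3 : jh R (cperm p') = R.comp (jh R (cperm (p'.trans p.symm))) (jh R (cperm p)) := by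
      rw [← jh_trans]
      refine jh_congr R fun v => ?_
      funext i
      simp [cperm]
    have h4 : jh R (cperm (p'.trans p.symm)) = R.J (PMap.id _) :=
      R.J_homotopic (rotC (p'.trans p.symm))
    rw [h3, h4, R.id_comp]
  rw [key e p hp, key e' p' hp', h2]

end IsPerm

theorem exists_isPerm {X Y : Type} [TopologicalSpace X] [TopologicalSpace Y] [Crd X] [Crd Y]
    (h : dm X = dm Y) : ∃ e : X ≃ₜ Y, IsPerm e := by
  have p : Crd.ι X ≃ Crd.ι Y := Fintype.equivOfCardEq h
  refine ⟨(Crd.h (X := X)).trans ((cperm p : (Crd.ι X → ℂ) ≃ₜ (Crd.ι Y → ℂ)).trans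
    (Crd.h (X := Y)).symm), p, fun k i => ?_⟩
  change Crd.h ((Crd.h (X := Y)).symm _) (p i) = _
  rw [Homeomorph.apply_symm_apply]
  simp [cperm]

/-! ## Classes that are equal to a given class up to coordinates and products -/

variable {R : Biv}

/-- `z` is `θ × W` up to bijections of coordinates -/
def Like {K L K0 L0 : LC} [Crd K] [Crd L] [Crd K0] [Crd L0] (z : R.Hom K L) (θ : R.Hom K0 L0) :
    Prop :=
  ∃ (W : LC) (_ : Crd W) (p : K ≃ₜ K0.prod W) (q : L ≃ₜ L0.prod W), IsPerm p ∧ IsPerm q ∧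
    z = pl R θ p q

namespace Like
variable {K L M N K0 L0 M0 K1 L1 : LC} [Crd K] [Crd L] [Crd M] [Crd N] [Crd K0] [Crd L0] [Crd M0]
  [Crd K1] [Crd L1]

theorem refl (θ : R.Hom K0 L0) : Like θ θ :=
  ⟨LC.point, inferInstance, _, _, (IsPerm.prodPUnit K0).symm, (IsPerm.prodPUnit L0).symm, eq_pl θ⟩

theorem tens {z : R.Hom K L} {θ : R.Hom K0 L0} (h : Like z θ) (Z : LC) [Crd Z] :
    Like (R.tens z Z) θ := by
  obtain ⟨W, _, p, q, hp, hq, rfl⟩ := h
  exact ⟨W.prod Z, inferInstance, _, _, hp.rp Z, hq.rp Z, tens_pl θ p q Z⟩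

theorem ltens {z : R.Hom K L} {θ : R.Hom K0 L0} (h : Like z θ) (Z : LC) [Crd Z] :
    Like (R.ltens Z z) θ := by
  obtain ⟨W, _, p, q, hp, hq, rfl⟩ := h
  exact ⟨Z.prod W, inferInstance, _, _, hp.lp Z, hq.lp Z, ltens_pl θ p q Z⟩

theorem jh_comp {z : R.Hom K L} {θ : R.Hom K0 L0} (h : Like z θ) {e : M ≃ₜ K} (he : IsPerm e) :
    Like (R.comp (jh R e) z) θ := by
  obtain ⟨W, _, p, q, hp, hq, rfl⟩ := h
  exact ⟨W, inferInstance, _, _, he.trans hp, hq, jh_pl θ p q e⟩

theorem comp_jh {z : R.Hom K L} {θ : R.Hom K0 L0} (h : Like z θ) {e : L ≃ₜ M} (he : IsPerm e) :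
    Like (R.comp z (jh R e)) θ := by
  obtain ⟨W, _, p, q, hp, hq, rfl⟩ := h
  exact ⟨W, inferInstance, _, _, hp, he.symm.trans hq, pl_jh θ p q e⟩

theorem trans {z : R.Hom K L} {θ : R.Hom K0 L0} {η : R.Hom K1 L1} (h : Like z θ)
    (h' : Like θ η) : Like z η := by
  obtain ⟨W, _, p, q, hp, hq, rfl⟩ := h
  exact ((h'.tens W).comp_jh hq.symm).jh_comp hp

/-- the coordinates of the source can be chosen -/
theorem exists_source {z : R.Hom K L} {θ : R.Hom K0 L0} (h : Like z θ) {W : LC} [Crd W]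
    {p : K ≃ₜ K0.prod W} (hp : IsPerm p) : ∃ q : L ≃ₜ L0.prod W, IsPerm q ∧ z = pl R θ p q := by
  obtain ⟨W', _, p', q', hp', hq', rfl⟩ := h
  have hd : dm W' = dm W := by
    have h1 := hp.dm_eq
    have h2 := hp'.dm_eq
    rw [dm_prod] at h1 h2
    omega
  obtain ⟨a, ha⟩ := exists_isPerm hd
  refine ⟨q'.trans ((Homeomorph.refl L0).prodCongr a : L0.prod W' ≃ₜ L0.prod W),
    hq'.trans ((IsPerm.refl L0).prodCongr ha), ?_⟩
  have e1 : pl R θ (p'.trans ((Homeomorph.refl K0).prodCongr a : K0.prod W' ≃ₜ K0.prod W))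
      (q'.trans ((Homeomorph.refl L0).prodCongr a : L0.prod W' ≃ₜ L0.prod W)) = pl R θ p' q' :=
    pl_congr θ a p' q' _ _ (fun m => rfl) (fun n => rfl)
  rw [← e1, pl, pl]
  congr 1
  exact IsPerm.jh_eq R (hp'.trans ((IsPerm.refl K0).prodCongr ha)) hp

/-- a class is determined by being like a given class -/
theorem eq {z z' : R.Hom K L} {θ : R.Hom K0 L0} (h : Like z θ) (h' : Like z' θ) : z = z' := by
  obtain ⟨W, _, p, q, hp, hq, rfl⟩ := h
  obtain ⟨q', hq', rfl⟩ := h'.exists_source hp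
  rw [pl, pl]
  congr 2
  exact IsPerm.jh_eq R hq.symm hq'.symm

theorem comp {z : R.Hom K L} {z' : R.Hom L M} {θ : R.Hom K0 L0} {θ' : R.Hom L0 M0}
    (h : Like z θ) (h' : Like z' θ') : Like (R.comp z z') (R.comp θ θ') := by
  obtain ⟨W, _, p, q, hp, hq, rfl⟩ := h
  obtain ⟨q', hq', rfl⟩ := h'.exists_source hq
  rw [pl_comp]
  exact ⟨W, inferInstance, p, q', hp, hq', rfl⟩

/-- products of classes to the point -/
theorem comp_point {z : R.Hom K L} {z' : R.Hom L M} {θ : R.Hom K0 LC.point}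
    {θ' : R.Hom K1 LC.point} (h : Like z θ) (h' : Like z' θ') :
    Like (R.comp z z') (R.comp (R.tens θ K1) (R.comp (jh R (LC.swap LC.point K1))
      (R.comp (jh R (Homeomorph.prodPUnit K1 : K1.prod LC.point ≃ₜ K1)) θ'))) := by
  obtain ⟨W, _, p, q, hp, hq, rfl⟩ := h'
  obtain ⟨W', _, p', q', hp', hq', rfl⟩ := h
  have hd : dm W' = dm (K1.prod W) := by
    have h1 := hp.dm_eq
    have h2 := hq'.dm_eq
    rw [dm_prod] at h1 h2 ⊢
    rw [dm_point] at h2
    omega
  obtain ⟨a, ha⟩ := exists_isPerm hd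
  have e1 := pl_congr (R := R) θ a p' q'
    (p'.trans ((Homeomorph.refl K0).prodCongr a : K0.prod W' ≃ₜ K0.prod (K1.prod W)))
    (q'.trans ((Homeomorph.refl LC.point).prodCongr a :
      LC.point.prod W' ≃ₜ LC.point.prod (K1.prod W))) (fun m => rfl) (fun n => rfl)
  have h1 : Like (pl R θ p' q') (R.tens θ K1) := by
    rw [← e1]
    refine ⟨W, inferInstance, (p'.trans ((Homeomorph.refl K0).prodCongr a :
      K0.prod W' ≃ₜ K0.prod (K1.prod W))).trans (Homeomorph.prodAssoc K0 K1 W).symm,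
      (q'.trans ((Homeomorph.refl LC.point).prodCongr a :
        LC.point.prod W' ≃ₜ LC.point.prod (K1.prod W))).trans
        (Homeomorph.prodAssoc LC.point K1 W).symm, ?_, ?_, ?_⟩
    · exact (hp'.trans ((IsPerm.refl K0).prodCongr ha)).trans (IsPerm.prodAssoc K0 K1 W).symm
    · exact (hq'.trans ((IsPerm.refl LC.point).prodCongr ha)).trans
        (IsPerm.prodAssoc LC.point K1 W).symm
    · rw [pl_tens]
      exact pl_congr θ (Homeomorph.refl _) _ _ _ _ (fun m => rfl) (fun n => rfl)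
  refine Like.comp h1 ?_
  have h2 : θ' = R.comp (jh R (Homeomorph.prodPUnit K1 : K1.prod LC.point ≃ₜ K1).symm)
      (R.comp (jh R (LC.swap LC.point K1).symm) (R.comp (jh R (LC.swap LC.point K1))
      (R.comp (jh R (Homeomorph.prodPUnit K1 : K1.prod LC.point ≃ₜ K1)) θ'))) := by
    rw [jh_symm_comp, jh_symm_comp]
  have h3 : Like (pl R θ' p q) θ' := ⟨W, inferInstance, p, q, hp, hq, rfl⟩
  refine h3.trans ?_
  have h4 := ((Like.refl (R.comp (jh R (LC.swap LC.point K1))
      (R.comp (jh R (Homeomorph.prodPUnit K1 : K1.prod LC.point ≃ₜ K1)) θ'))).jh_comp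
      (M := K1.prod LC.point) (e := (LC.swap LC.point K1).symm)
      (IsPerm.prodComm LC.point K1).symm).jh_comp (M := K1)
      (e := (Homeomorph.prodPUnit K1 : K1.prod LC.point ≃ₜ K1).symm) (IsPerm.prodPUnit K1).symm
  rw [← h2] at h4
  exact h4

end Like

end Pool.Agent.Helper63.Stab
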