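import Pool.Agent.Helper63.Stab.CalB
import Pool.Agent.Helper68.Stab.LocStrict

/-! The class of the transition maps of a datum. -/

open Topology Filter Set

noncomputable section

namespace Pool.Agent.Helper63.Stab

open Pool.Agent.Helper1.Stab

/-! ## Classes of smash products of maps -/

section
variable (R : Biv)

theorem ltens_J (Z : LC) {K L : LC} (f : PMap K L.plus) :
    R.ltens Z (R.J f) = R.J (PMap.ltens Z f) := by
  rw [ltens_def, R.tens_J, jh, jh, ← R.J_comp, ← R.J_comp]
  congr 1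
  have h := PMap.box_swap f (PMap.id Z)
  rw [PMap.tens, h, PMap.comp_assoc]
  have h2 : (PMap.ofHomeo (LC.swap K Z)).comp (PMap.ofHomeo (LC.swap Z K)) = PMap.id _ := by
    ext x; rfl
  rw [h2, PMap.comp_id]

/-- first `f`, then `g` -/
theorem J_box {K L Z W : LC} (f : PMap K L.plus) (g : PMap Z W.plus) :
    R.J (f.box g) = R.comp (R.tens (R.J f) Z) (R.ltens L (R.J g)) := by
  rw [ltens_J, R.tens_J, ← R.J_comp]
  congr 1
  rw [PMap.tens, PMap.ltens, ← PMap.box_comp, PMap.id_comp, PMap.comp_id]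

/-- first `g`, then `f` -/
theorem J_box' {K L Z W : LC} (f : PMap K L.plus) (g : PMap Z W.plus) :
    R.J (f.box g) = R.comp (R.ltens K (R.J g)) (R.tens (R.J f) W) := by
  rw [J_box, R.exch]

end

/-! ## The middle four interchange -/

/-- `(X × G) × (Y × H) = (X × Y) × (G × H)` -/
def mid (X G Y H : LC) : (X.prod G).prod (Y.prod H) ≃ₜ (X.prod Y).prod (G.prod H) where
  toFun v := ((v.1.1, v.2.1), (v.1.2, v.2.2))
  invFun v := ((v.1.1, v.2.1), (v.1.2, v.2.2))
  left_inv _ := rfl
  right_inv _ := rfl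
  continuous_toFun := by fun_prop
  continuous_invFun := by fun_prop

theorem mid_perm (X G Y H : LC) [Crd X] [Crd G] [Crd Y] [Crd H] : IsPerm (mid X G Y H) := by
  refine ⟨⟨fun x => ?_, fun x => ?_, fun x => ?_, fun x => ?_⟩, fun k i => ?_⟩
  · rcases x with (x | x) | (x | x)
    · exact Sum.inl (Sum.inl x)
    · exact Sum.inr (Sum.inl x)
    · exact Sum.inl (Sum.inr x)
    · exact Sum.inr (Sum.inr x)
  · rcases x with (x | x) | (x | x)
    · exact Sum.inl (Sum.inl x)
    · exact Sum.inr (Sum.inl x)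
    · exact Sum.inl (Sum.inr x)
    · exact Sum.inr (Sum.inr x)
  · rcases x with (x | x) | (x | x) <;> rfl
  · rcases x with (x | x) | (x | x) <;> rfl
  · rcases i with (i | i) | (i | i) <;> rfl

variable (R : GBiv) (D : Datum)

/-- the class of the product of `id × s` over `ι` -/
def shC (ι : Type) [Fintype ι] : R.Hom (D.A ι) ((LC.cpow (ι × Option D.u)).prod LC.point) :=
  R.comp (R.J (D.shat ι)) (R.ltens (LC.cpow (ι × Option D.u)) (R.g (ι × Option D.a)))

variable {R D}

/-! ### Renaming -/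

/-- renaming of the coordinates over `ι` -/
def cre {ι κ : Type} [Fintype ι] [Fintype κ] (e : ι ≃ κ) (u : Type) [Fintype u] :
    LC.cpow (ι × Option u) ≃ₜ LC.cpow (κ × Option u) := cperm (e.prodCongr (Equiv.refl _))

theorem cperm_perm {ι κ : Type} [Fintype ι] [Fintype κ] (e : ι ≃ κ) : IsPerm (cperm e) := by
  refine ⟨e, fun k i => ?_⟩
  change k (e.symm (e i)) = k i
  rw [e.symm_apply_apply]

theorem reA_perm {ι κ : Type} [Fintype ι] [Fintype κ] (e : ι ≃ κ) : IsPerm (D.reA e) :=
  (cperm_perm (e.prodCongr (Equiv.refl (Option D.w)))).of_eq fun _ => rfl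

theorem shat_re' {ι κ : Type} [Fintype ι] [Fintype κ] (e : ι ≃ κ) :
    (D.shat κ).comp (PMap.ofHomeo (D.reA e)) = (PMap.ofHomeo (D.reB e)).comp (D.shat ι) := by
  ext v
  exact D.shat_re e v

theorem shC_re {ι κ : Type} [Fintype ι] [Fintype κ] (e : ι ≃ κ) :
    R.comp (jh R.toBiv (D.reA e)) (shC R D κ) = R.comp (shC R D ι)
      (R.tens (jh R.toBiv (cre e D.u)) LC.point) := by
  have h1 : R.comp (jh R.toBiv (D.reA e)) (R.J (D.shat κ)) =
      R.comp (R.J (D.shat ι)) (jh R.toBiv (D.reB e)) := by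
    rw [jh, jh, ← R.J_comp, ← R.J_comp, shat_re']
  have h2 : jh R.toBiv (D.reB e) = R.comp (R.tens (jh R.toBiv (cre e D.u)) _)
      (R.ltens _ (jh R.toBiv (K := LC.G (ι × Option D.a)) (L := LC.G (κ × Option D.a))
        (GK.reindex (e.prodCongr (Equiv.refl _))))) := by
    rw [tens_jh, ltens_jh, ← jh_trans]
    exact jh_congr _ fun _ => rfl
  have h3 : R.comp (jh R.toBiv (K := LC.G (ι × Option D.a)) (L := LC.G (κ × Option D.a))
        (GK.reindex (e.prodCongr (Equiv.refl _)))) (R.g (κ × Option D.a)) = R.g (ι × Option D.a) :=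
    R.g_reindex _
  rw [shC, shC, ← R.assoc, h1, R.assoc, h2, R.assoc, ← ltens_comp, h3, R.exch, R.assoc]

theorem Like.shC_re {ι κ : Type} [Fintype ι] [Fintype κ] (e : ι ≃ κ) {K0 L0 : LC} [Crd K0] [Crd L0]
    {θ : R.Hom K0 L0} (h : Like (shC R D ι) θ) : Like (shC R D κ) θ := by
  have h1 := Pool.Agent.Helper63.Stab.shC_re (R := R) (D := D) e
  have h2 : shC R D κ = R.comp (jh R.toBiv (D.reA e).symm) (R.comp (shC R D ι)
      (R.tens (jh R.toBiv (cre e D.u)) LC.point)) := by
    rw [← h1, jh_symm_comp]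
  rw [h2, tens_jh]
  exact (h.comp_jh ((cperm_perm _).prodCongr (IsPerm.refl _))).jh_comp (reA_perm e).symm

/-! ### Sums -/

/-- the coordinates over a sum -/
def csum (ι κ u : Type) [Fintype ι] [Fintype κ] [Fintype u] :
    (LC.cpow (ι × Option u)).prod (LC.cpow (κ × Option u)) ≃ₜ LC.cpow ((ι ⊕ κ) × Option u) where
  toFun v := fun y => match y.1 with
    | .inl i => v.1 (i, y.2)
    | .inr i => v.2 (i, y.2)
  invFun w := (fun x => w (.inl x.1, x.2), fun x => w (.inr x.1, x.2))
  left_inv v := rfl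
  right_inv w := by ext ⟨i | i, j⟩ <;> rfl
  continuous_toFun := by
    refine continuous_pi ?_
    rintro ⟨i | i, j⟩
    · exact (continuous_apply _).comp continuous_fst
    · exact (continuous_apply _).comp continuous_snd
  continuous_invFun := by
    exact (continuous_pi fun _ => continuous_apply _).prodMk
      (continuous_pi fun _ => continuous_apply _)

theorem csum_perm (ι κ u : Type) [Fintype ι] [Fintype κ] [Fintype u] : IsPerm (csum ι κ u) := by
  refine ⟨(Equiv.sumProdDistrib ι κ (Option u)).symm, fun k i => ?_⟩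
  rcases i with i | i <;> rfl

theorem splitA_perm (ι κ : Type) [Fintype ι] [Fintype κ] : IsPerm (D.splitA ι κ) := by
  refine ⟨Equiv.sumProdDistrib ι κ (Option D.w), fun k i => ?_⟩
  rcases i with ⟨i | i, j⟩ <;> rfl

theorem mulB_eq (ι κ : Type) [Fintype ι] [Fintype κ] :
    D.mulB ι κ = ((PMap.ofHomeo (csum ι κ D.u)).box
      ((PMap.ofHomeo (K := LC.G (ι × Option D.a ⊕ κ × Option D.a))
        (L := LC.G ((ι ⊕ κ) × Option D.a)) (GK.reindex (Equiv.sumProdDistrib ι κ
          (Option D.a)).symm)).comp (GK.sumMap (ι × Option D.a) (κ × Option D.a)))).comp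
      (PMap.ofHomeo (mid (LC.cpow (ι × Option D.u)) (LC.G (ι × Option D.a))
        (LC.cpow (κ × Option D.u)) (LC.G (κ × Option D.a)))) := by
  ext v
  rfl

theorem shat_sum' (ι κ : Type) [Fintype ι] [Fintype κ] :
    D.shat (ι ⊕ κ) = (D.mulB ι κ).comp (((D.shat ι).box (D.shat κ)).comp
      (PMap.ofHomeo (D.splitA ι κ))) := by
  ext v
  rw [D.shat_sum]
  change _ = bnd (bnd (D.shat ι (D.splitA ι κ v).1) fun b => bnd (D.shat κ (D.splitA ι κ v).2)
    fun c => (((b, c) : D.B ι × D.B κ) : OnePoint (D.B ι × D.B κ))) _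
  rw [bnd_assoc]
  congr 1
  funext b
  rw [bnd_assoc]
  rfl

theorem g_sum' (κ l : Type) [Fintype κ] [Fintype l] :
    R.comp (R.J (GK.sumMap κ l)) (R.g (κ ⊕ l)) = R.comp (R.tens (R.g κ) (LC.G l))
      (R.comp (R.ltens LC.point (R.g l)) (jh R.toBiv (K := LC.point.prod LC.point) (L := LC.point)
        (Homeomorph.prodPUnit LC.point))) := by
  rw [R.g_sum, R.assoc]
  rfl

theorem J_mulB (ι κ : Type) [Fintype ι] [Fintype κ] :
    R.comp (R.J (D.mulB ι κ)) (R.ltens (LC.cpow ((ι ⊕ κ) × Option D.u))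
      (R.g ((ι ⊕ κ) × Option D.a))) =
    R.comp (R.tens (R.ltens (LC.cpow (ι × Option D.u)) (R.g (ι × Option D.a))) (D.B κ))
      (R.comp (R.ltens ((LC.cpow (ι × Option D.u)).prod LC.point)
        (R.ltens (LC.cpow (κ × Option D.u)) (R.g (κ × Option D.a))))
        (jh R.toBiv (((mid (LC.cpow (ι × Option D.u)) LC.point
          (LC.cpow (κ × Option D.u)) LC.point).trans
          ((csum ι κ D.u).prodCongr (Homeomorph.prodPUnit LC.point) :
            ((LC.cpow (ι × Option D.u)).prod (LC.cpow (κ × Option D.u))).prod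
              (LC.point.prod LC.point) ≃ₜ
              (LC.cpow ((ι ⊕ κ) × Option D.u)).prod LC.point))))) := by
  have h1 := R.g_reindex (Equiv.sumProdDistrib ι κ (Option D.a)).symm
  rw [jh_def] at h1
  rw [mulB_eq, R.J_comp, R.assoc, J_box', R.assoc, jh_def, jh_def, R.exch, ← R.assoc (R.ltens _ _),
    ← ltens_comp, R.J_comp, R.assoc, jh_def, h1, g_sum', ltens_comp, ltens_comp, tens_jh,
    ltens_jh]
  have h2 : R.comp (jh R.toBiv (mid (LC.cpow (ι × Option D.u)) (LC.G (ι × Option D.a))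
      (LC.cpow (κ × Option D.u)) (LC.G (κ × Option D.a))))
      (R.ltens ((LC.cpow (ι × Option D.u)).prod (LC.cpow (κ × Option D.u)))
        (R.tens (R.g (ι × Option D.a)) (LC.G (κ × Option D.a)))) =
      R.comp (R.tens (R.ltens (LC.cpow (ι × Option D.u)) (R.g (ι × Option D.a))) (D.B κ))
        (jh R.toBiv (mid (LC.cpow (ι × Option D.u)) LC.point
          (LC.cpow (κ × Option D.u)) (LC.G (κ × Option D.a)))) := by
    rw [tens_eq_pl (R.g _), ltens_pl, ltens_eq_pl (R.g _), tens_pl]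
    refine pl_comm (R.g _)
      ({ toFun := fun v => ((v.1, v.2.1), v.2.2)
         invFun := fun v => (v.1.1, (v.1.2, v.2))
         left_inv := fun _ => rfl
         right_inv := fun _ => rfl
         continuous_toFun := by fun_prop
         continuous_invFun := by fun_prop } :
        (LC.cpow (ι × Option D.u)).prod (D.B κ) ≃ₜ ((LC.cpow (ι × Option D.u)).prod
          (LC.cpow (κ × Option D.u))).prod (LC.G (κ × Option D.a))) _ _ _ _ _ _
      (fun _ => rfl) (fun _ => rfl)
  have h3 : R.comp (jh R.toBiv (mid (LC.cpow (ι × Option D.u)) LC.point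
      (LC.cpow (κ × Option D.u)) (LC.G (κ × Option D.a))))
      (R.ltens ((LC.cpow (ι × Option D.u)).prod (LC.cpow (κ × Option D.u)))
        (R.ltens LC.point (R.g (κ × Option D.a)))) =
      R.comp (R.ltens ((LC.cpow (ι × Option D.u)).prod LC.point)
        (R.ltens (LC.cpow (κ × Option D.u)) (R.g (κ × Option D.a))))
        (jh R.toBiv (mid (LC.cpow (ι × Option D.u)) LC.point
          (LC.cpow (κ × Option D.u)) LC.point)) := by
    rw [ltens_eq_pl (R.g _), ltens_pl, ltens_eq_pl (R.g _), ltens_pl]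
    refine pl_comm (R.g _)
      ({ toFun := fun v => ((v.1.1, v.2), v.1.2)
         invFun := fun v => ((v.1.1, v.2), v.1.2)
         left_inv := fun _ => rfl
         right_inv := fun _ => rfl
         continuous_toFun := by fun_prop
         continuous_invFun := by fun_prop } :
        ((LC.cpow (ι × Option D.u)).prod LC.point).prod (LC.cpow (κ × Option D.u)) ≃ₜ
          ((LC.cpow (ι × Option D.u)).prod (LC.cpow (κ × Option D.u))).prod LC.point) _ _ _ _ _ _
      (fun _ => rfl) (fun _ => rfl)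
  rw [R.assoc, R.assoc, ← R.assoc (jh R.toBiv (mid _ _ _ _)), h2, R.assoc,
    ← R.assoc (jh R.toBiv (mid _ _ _ _)), h3, R.assoc, jh_trans, ← jh_trans]
  rfl

theorem shC_sum (ι κ : Type) [Fintype ι] [Fintype κ] :
    shC R D (ι ⊕ κ) = R.comp (jh R.toBiv (D.splitA ι κ)) (R.comp (R.comp
      (R.tens (shC R D ι) (D.A κ)) (R.ltens ((LC.cpow (ι × Option D.u)).prod LC.point)
        (shC R D κ)))
      (jh R.toBiv (((mid (LC.cpow (ι × Option D.u)) LC.point
          (LC.cpow (κ × Option D.u)) LC.point).trans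
          ((csum ι κ D.u).prodCongr (Homeomorph.prodPUnit LC.point) :
            ((LC.cpow (ι × Option D.u)).prod (LC.cpow (κ × Option D.u))).prod
              (LC.point.prod LC.point) ≃ₜ
              (LC.cpow ((ι ⊕ κ) × Option D.u)).prod LC.point))))) := by
  rw [shC, shat_sum', R.J_comp, R.assoc, J_mulB, R.J_comp, J_box, shC, shC, R.tens_comp,
    ltens_comp]
  simp only [R.assoc]
  rw [← R.assoc (R.ltens _ (R.J (D.shat κ))) (R.tens _ (D.B κ)), ← R.exch, R.assoc]
  rfl

theorem Like.shC_sum {ι κ : Type} [Fintype ι] [Fintype κ] {K0 K1 : LC} [Crd K0] [Crd K1]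
    {θ : R.Hom K0 LC.point} {θ' : R.Hom K1 LC.point} (h : Like (shC R D ι) θ)
    (h' : Like (shC R D κ) θ') : Like (shC R D (ι ⊕ κ)) (R.comp (R.tens θ K1)
      (R.comp (jh R.toBiv (LC.swap LC.point K1))
      (R.comp (jh R.toBiv (Homeomorph.prodPUnit K1 : K1.prod LC.point ≃ₜ K1)) θ'))) := by
  rw [Pool.Agent.Helper63.Stab.shC_sum]
  have h1 := Like.comp_point (h.tens (D.A κ))
    (h'.ltens ((LC.cpow (ι × Option D.u)).prod LC.point))
  exact (h1.comp_jh ((mid_perm _ _ _ _).trans
    ((csum_perm ι κ D.u).prodCongr (IsPerm.prodPUnit _)))).jh_comp (splitA_perm ι κ)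

end Pool.Agent.Helper63.Stab
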