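import Pool.Agent.Helper63.Stab.CalC

/-! The class of the transition map over a point and its powers. -/

open Topology Filter Set

noncomputable section

namespace Pool.Agent.Helper63.Stab

open Pool.Agent.Helper1.Stab

variable {R : GBiv} {D : Datum}

/-! ### The transition map over a point -/

/-- `a = PUnit × a` -/
def pun (a : Type) : a ≃ PUnit × a := (Equiv.punitProd a).symm

/-- `Q ↦ base ⊕ Q` -/
def iG (a : Type) [Fintype a] : PMap (LC.G a) (LC.G (PUnit × Option a)).plus :=
  (PMap.ofHomeo (K := LC.G (PUnit ⊕ PUnit × a)) (L := LC.G (PUnit × Option a))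
    (GK.reindex (optEquiv PUnit a))).comp ((GK.sumMap PUnit (PUnit × a)).comp
      (((PMap.ofPoint (K := LC.G PUnit) (GK.base PUnit)).box (PMap.id (LC.G (PUnit × a)))).comp
        ((PMap.ofHomeo (LC.swap (LC.G (PUnit × a)) LC.point)).comp
          ((PMap.ofHomeo (Homeomorph.prodPUnit (LC.G (PUnit × a)) :
              (LC.G (PUnit × a)).prod LC.point ≃ₜ LC.G (PUnit × a)).symm).comp
            (PMap.ofHomeo (K := LC.G a) (L := LC.G (PUnit × a)) (GK.reindex (pun a)))))))

theorem iG_apply (a : Type) [Fintype a] (Q : GK a) : iG a Q =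
    ((GK.reindex (optEquiv PUnit a) (GK.sum (GK.base PUnit, GK.reindex (pun a) Q)) :
      LC.G (PUnit × Option a)) : OnePoint (LC.G (PUnit × Option a))) := rfl

theorem blockDiag_punit (a : Type) [Fintype a] (Q : GK a) :
    blockDiag (fun _ : PUnit => Q) = GK.reindex (pun a) Q := by
  refine Datum.GK.ext ?_
  rintro ⟨⟨i, j⟩, b⟩ ⟨⟨i', j'⟩, b'⟩
  obtain rfl : i = i' := rfl
  exact Datum.blockDiag_eq (fun _ : PUnit => Q) i (j, b) (j', b')

/-- a class of the point, with a point on the left -/
theorem point_left {R : Biv} {K : LC} (x : R.Hom K LC.point) :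
    R.comp (jh R (Homeomorph.prodPUnit K : K.prod LC.point ≃ₜ K).symm)
      (R.comp (jh R (LC.swap K LC.point)) (R.comp (R.ltens LC.point x)
        (jh R (K := LC.point.prod LC.point) (L := LC.point) (Homeomorph.prodPUnit LC.point)))) =
      x := by
  rw [ltens_eq_pl, pl_jh, jh_pl, jh_pl]
  conv_rhs => rw [eq_pl x]
  exact (pl_congr x (Homeomorph.refl _) _ _ _ _ (fun _ => rfl) (fun _ => rfl)).symm

theorem J_iG (a : Type) [Fintype a] :
    R.comp (R.J (iG a)) (R.g (PUnit × Option a)) = R.g a := by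
  have h1 := R.g_reindex (optEquiv PUnit a)
  have h2 := R.g_reindex (pun a)
  have h3 := R.g_base PUnit
  rw [jh_def] at h1 h2
  have h5 : R.J ((PMap.ofPoint (K := LC.G PUnit) (GK.base PUnit)).box
      (PMap.id (LC.G (PUnit × a)))) =
      R.tens (R.J (PMap.ofPoint (K := LC.G PUnit) (GK.base PUnit))) (LC.G (PUnit × a)) :=
    (R.tens_J _ _).symm
  have h6 : R.comp (R.tens (R.J (PMap.ofPoint (K := LC.G PUnit) (GK.base PUnit)))
      (LC.G (PUnit × a))) (R.comp (R.J (GK.sumMap PUnit (PUnit × a))) (R.g (PUnit ⊕ PUnit × a))) =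
      R.comp (R.ltens LC.point (R.g (PUnit × a))) (jh R.toBiv (K := LC.point.prod LC.point)
        (L := LC.point) (Homeomorph.prodPUnit LC.point)) := by
    rw [g_sum', ← R.assoc, ← R.tens_comp, h3, tens_id, R.id_comp]
  rw [iG, R.J_comp, R.J_comp, R.J_comp, R.J_comp, R.J_comp, h5]
  simp only [R.assoc]
  rw [jh_def, jh_def, jh_def, jh_def, h1, h6]
  have h7 := point_left (R := R.toBiv) (R.g (PUnit × a))
  rw [h7, h2]

/-- `A PUnit = ℂ × ℂ^w` -/
def alA (D : Datum) : D.A PUnit ≃ₜ LC.C.prod (LC.cpow D.w) where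
  toFun v := (v (PUnit.unit, none), fun j => v (PUnit.unit, some j))
  invFun x := fun y => match y.2 with
    | none => x.1
    | some j => x.2 j
  left_inv v := by ext ⟨_, _ | j⟩ <;> rfl
  right_inv x := rfl
  continuous_toFun := (continuous_apply _).prodMk (continuous_pi fun _ => continuous_apply _)
  continuous_invFun := by
    refine continuous_pi ?_
    rintro ⟨_, _ | j⟩
    · exact continuous_fst
    · exact (continuous_apply _).comp continuous_snd

/-- `ℂ × ℂ^u = ℂ^(PUnit × Option u)` -/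
def alC (u : Type) [Fintype u] : LC.C.prod (LC.cpow u) ≃ₜ LC.cpow (PUnit × Option u) where
  toFun x := fun y => match y.2 with
    | none => x.1
    | some j => x.2 j
  invFun v := (v (PUnit.unit, none), fun j => v (PUnit.unit, some j))
  left_inv x := rfl
  right_inv v := by ext ⟨_, _ | j⟩ <;> rfl
  continuous_toFun := by
    refine continuous_pi ?_
    rintro ⟨_, _ | j⟩
    · exact continuous_fst
    · exact (continuous_apply _).comp continuous_snd
  continuous_invFun := (continuous_apply _).prodMk (continuous_pi fun _ => continuous_apply _)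

/-- the coordinates of `PUnit × Option u` -/
def optP (u : Type) : PUnit ⊕ u ≃ PUnit × Option u where
  toFun := Sum.elim (fun x => (x, none)) (fun j => (PUnit.unit, some j))
  invFun y := match y.2 with
    | none => .inl PUnit.unit
    | some j => .inr j
  left_inv x := by rcases x with x | j <;> rfl
  right_inv y := by rcases y with ⟨_, _ | j⟩ <;> rfl

theorem alC_perm (u : Type) [Fintype u] : IsPerm (alC u) := by
  refine ⟨optP u, fun k i => ?_⟩
  rcases i with i | i <;> rfl

theorem alA_perm (D : Datum) : IsPerm (alA D) := by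
  refine ⟨(optP D.w).symm, fun k i => ?_⟩
  rcases i with ⟨_, _ | i⟩ <;> rfl

theorem shat_punit (D : Datum) : D.shat PUnit =
    (PMap.ofHomeo (K := LC.C.prod ((LC.cpow D.u).prod (LC.G (PUnit × Option D.a))))
      (L := D.B PUnit) ((Homeomorph.prodAssoc LC.C (LC.cpow D.u)
        (LC.G (PUnit × Option D.a))).symm.trans ((alC D.u).prodCongr (Homeomorph.refl _)))).comp
      ((PMap.ltens LC.C (PMap.ltens (LC.cpow D.u) (iG D.a))).comp
        ((PMap.ltens LC.C D.s).comp (PMap.ofHomeo (alA D)))) := by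
  ext v
  rw [D.shat_eq]
  rcases hs : D.s (fun j => v (PUnit.unit, some j)) with _ | y
  · rw [D.shatG_none PUnit v _ PUnit.unit hs]
    change _ = bnd (bnd (bnd (D.s (fun j => v (PUnit.unit, some j))) _) _) _
    rw [hs]
    rfl
  · rw [D.shatG_some PUnit v _ (fun _ => y) (fun _ => hs)]
    change _ = bnd (bnd (bnd (D.s (fun j => v (PUnit.unit, some j))) _) _) _
    rw [hs]
    have hb := blockDiag_punit D.a y.2
    change (((_, GK.reindex (optEquiv PUnit D.a) (GK.sum (GK.base PUnit,
      blockDiag fun _ => y.2))) : D.B PUnit) : OnePoint (D.B PUnit)) =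
      (((alC D.u ((alA D v).1, y.1), GK.reindex (optEquiv PUnit D.a) (GK.sum (GK.base PUnit,
      GK.reindex (pun D.a) y.2))) : D.B PUnit) : OnePoint (D.B PUnit))
    rw [hb]
    refine congrArg (fun z : D.B PUnit => (z : OnePoint (D.B PUnit))) (Prod.ext ?_ rfl)
    funext x
    rcases x with ⟨_, _ | j⟩ <;> rfl

theorem shC_punit : shC R D PUnit = R.comp (jh R.toBiv (alA D)) (R.comp
    (R.ltens LC.C (R.comp (R.J D.s) (R.ltens (LC.cpow D.u) (R.g D.a))))
    (jh R.toBiv (K := LC.C.prod ((LC.cpow D.u).prod LC.point))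
      (L := (LC.cpow (PUnit × Option D.u)).prod LC.point) ((Homeomorph.prodAssoc LC.C
        (LC.cpow D.u) LC.point).symm.trans ((alC D.u).prodCongr (Homeomorph.refl _))))) := by
  have h1 : R.comp (jh R.toBiv (K := LC.C.prod ((LC.cpow D.u).prod (LC.G (PUnit × Option D.a))))
      (L := D.B PUnit) ((Homeomorph.prodAssoc LC.C (LC.cpow D.u)
        (LC.G (PUnit × Option D.a))).symm.trans ((alC D.u).prodCongr (Homeomorph.refl _))))
      (R.ltens (LC.cpow (PUnit × Option D.u)) (R.g (PUnit × Option D.a))) =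
      R.comp (R.ltens LC.C (R.ltens (LC.cpow D.u) (R.g (PUnit × Option D.a))))
      (jh R.toBiv (K := LC.C.prod ((LC.cpow D.u).prod LC.point))
      (L := (LC.cpow (PUnit × Option D.u)).prod LC.point) ((Homeomorph.prodAssoc LC.C
        (LC.cpow D.u) LC.point).symm.trans ((alC D.u).prodCongr (Homeomorph.refl _)))) := by
    rw [ltens_eq_pl (R.g _), ltens_eq_pl (R.g _), ltens_pl]
    exact pl_comm (R.g _) (alC D.u) _ _ _ _ _ _ (fun _ => rfl) (fun _ => rfl)
  rw [shC, shat_punit, R.J_comp, R.J_comp, R.J_comp]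
  simp only [R.assoc]
  rw [jh_def, jh_def, h1, ← ltens_J, ← ltens_J, ← ltens_J, ← J_iG D.a, ltens_comp, ltens_comp,
    ltens_comp]
  simp only [R.assoc]

theorem Like.shC_punit {K0 L0 : LC} [Crd K0] [Crd L0] {θ : R.Hom K0 L0}
    (h : Like (R.comp (R.J D.s) (R.ltens (LC.cpow D.u) (R.g D.a))) θ) :
    Like (shC R D PUnit) θ := by
  rw [Pool.Agent.Helper63.Stab.shC_punit]
  refine ((h.ltens LC.C).comp_jh ?_).jh_comp (alA_perm D)
  exact (IsPerm.prodAssoc LC.C (LC.cpow D.u) LC.point).symm.trans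
    ((alC_perm D.u).prodCongr (IsPerm.refl _))

/-! ### Powers -/

/-- the power `K^n` -/
def pw (K : LC) : ℕ → LC
  | 0 => LC.point
  | n + 1 => (pw K n).prod K

instance crdPw (K : LC) [Crd K] : ∀ n, Crd (pw K n)
  | 0 => inferInstanceAs (Crd PUnit)
  | n + 1 => by
    haveI := crdPw K n
    exact inferInstanceAs (Crd ((pw K n) × K))

variable {R : Biv} {K : LC}

/-- the power of a class to the point -/
def thp (θ : R.Hom K LC.point) : ∀ n, R.Hom (pw K n) LC.point
  | 0 => R.J (PMap.id _)
  | n + 1 => R.comp (R.tens (thp θ n) K) (R.comp (jh R (LC.swap LC.point K))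
      (R.comp (jh R (Homeomorph.prodPUnit K : K.prod LC.point ≃ₜ K)) θ))

/-- the power of a class out of the point, times `v` -/
def thm (θ' : R.Hom LC.point K) (v : R.Hom LC.point LC.point) : ∀ n, R.Hom LC.point (pw K n)
  | 0 => v
  | n + 1 => R.comp θ' (R.comp (jh R (Homeomorph.prodPUnit K : K.prod LC.point ≃ₜ K).symm)
      (R.comp (jh R (LC.swap LC.point K).symm) (R.tens (thm θ' v n) K)))

/-- `K = pt × K` -/
def pS (K : LC) : K ≃ₜ LC.point.prod K :=
  (Homeomorph.prodPUnit K : K.prod LC.point ≃ₜ K).symm.trans (LC.swap LC.point K).symm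

theorem pS_perm (K : LC) [Crd K] : IsPerm (pS K) :=
  (IsPerm.prodPUnit K).symm.trans (IsPerm.prodComm LC.point K).symm

theorem thm_succ_pl {N : LC} (θ' : R.Hom LC.point K) (v : R.Hom LC.point LC.point) (n : ℕ)
    (q : N ≃ₜ (pw K n).prod K) : R.comp θ' (pl R (thm θ' v n) (pS K) q) =
      R.comp (thm θ' v (n + 1)) (jh R (K := pw K (n + 1)) (L := N) q.symm) := by
  have h1 : jh R (pS K) = R.comp (jh R (Homeomorph.prodPUnit K : K.prod LC.point ≃ₜ K).symm)
      (jh R (LC.swap LC.point K).symm) := jh_trans R _ _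
  change _ = R.comp (R.comp θ' (R.comp (jh R (Homeomorph.prodPUnit K :
    K.prod LC.point ≃ₜ K).symm) (R.comp (jh R (LC.swap LC.point K).symm)
      (R.tens (thm θ' v n) K)))) (jh R q.symm)
  rw [pl, h1]
  simp only [R.assoc]

theorem like_thp_thm [Crd K] (θ : R.Hom K LC.point) (θ' : R.Hom LC.point K)
    (v : R.Hom LC.point LC.point) (h : R.comp θ θ' = R.J (PMap.id _)) (n : ℕ) :
    Like (R.comp (thp θ n) (thm θ' v n)) v := by
  induction n with
  | zero =>
    have h1 : R.comp (thp θ 0) (thm θ' v 0) = v := R.id_comp v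
    rw [h1]
    exact Like.refl v
  | succ n ih =>
    have h1 : R.comp (thp θ (n + 1)) (thm θ' v (n + 1)) =
        R.tens (R.comp (thp θ n) (thm θ' v n)) K := by
      have e1 : ∀ {X : LC} (x : R.Hom K X), R.comp θ (R.comp θ' x) = x := by
        intro X x
        rw [← R.assoc, h, R.id_comp]
      rw [thp, thm, R.tens_comp]
      simp only [R.assoc]
      rw [e1, jh_comp_symm, jh_comp_symm]
      rfl
    rw [h1]
    exact ih.tens K

theorem like_shC_fin {R : GBiv} {D : Datum} {K : LC} [Crd K] (θ : R.Hom K LC.point)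
    (h : Like (R.comp (R.J D.s) (R.ltens (LC.cpow D.u) (R.g D.a))) θ) (n : ℕ) :
    Like (shC R D (Fin (n + 1))) (thp (R := R.toBiv) θ (n + 1)) := by
  induction n with
  | zero =>
    have h1 : Like (shC R D PUnit) θ := Like.shC_punit h
    have h2 : Like (shC R D (Fin 1)) θ := Like.shC_re (finOneEquiv.symm) h1
    refine h2.trans ?_
    have h3 : θ = R.comp (jh R.toBiv (Homeomorph.prodPUnit K : K.prod LC.point ≃ₜ K).symm)
        (R.comp (jh R.toBiv (LC.swap LC.point K).symm) (thp (R := R.toBiv) θ 1)) := by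
      have e0 : thp (R := R.toBiv) θ 1 = R.comp (R.tens (R.J (PMap.id LC.point)) K)
        (R.comp (jh R.toBiv (LC.swap LC.point K))
        (R.comp (jh R.toBiv (Homeomorph.prodPUnit K : K.prod LC.point ≃ₜ K)) θ)) := rfl
      rw [e0, tens_id, R.id_comp, jh_symm_comp, jh_symm_comp]
    have h4 := ((Like.refl (thp (R := R.toBiv) θ 1)).jh_comp (M := K.prod LC.point)
      (e := (LC.swap LC.point K).symm) (IsPerm.prodComm LC.point K).symm).jh_comp (M := K)
      (e := (Homeomorph.prodPUnit K : K.prod LC.point ≃ₜ K).symm) (IsPerm.prodPUnit K).symm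
    exact (congrArg (fun z : R.Hom K LC.point => Like z (thp (R := R.toBiv) θ 1)) h3).mpr h4
  | succ n ih =>
    have h1 : Like (shC R D PUnit) θ := Like.shC_punit h
    have h2 := Like.shC_sum ih h1
    have e : Fin (n + 1) ⊕ PUnit ≃ Fin (n + 1 + 1) :=
      ((Equiv.optionEquivSumPUnit (Fin (n + 1))).symm).trans (finSuccEquiv (n + 1)).symm
    exact Like.shC_re e h2

end Pool.Agent.Helper63.Stab
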