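import Pool.Agent.Helper63.Stab.CalD
import Pool.Agent.Helper1.Stab.Comp

/-! Iterated suspensions and the main formula for the surjectivity of the comparison. -/

open Topology Filter Set

noncomputable section

namespace Pool.Agent.Helper63.Stab

open Pool.Agent.Helper1.Stab

/-! ## Iterated suspensions -/

/-- iterated suspension -/
def susL : ℕ → LC → LC
  | 0, K => K
  | n + 1, K => LC.C.prod (susL n K)

instance crdSus (K : LC) [Crd K] : ∀ n, Crd (susL n K)
  | 0 => inferInstanceAs (Crd K)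
  | n + 1 => by
    haveI := crdSus K n
    exact inferInstanceAs (Crd (ℂ × (susL n K)))

instance crdZb : ∀ n, Crd (Zb n)
  | 0 => inferInstanceAs (Crd PUnit)
  | n + 1 => by
    haveI := crdZb n
    exact inferInstanceAs (Crd (ℂ × (Zb n)))

theorem dm_sus (K : LC) [Crd K] (n : ℕ) : dm (susL n K) = n + dm K := by
  induction n with
  | zero => exact (Nat.zero_add _).symm
  | succ n ih =>
    have h : dm (susL (n + 1) K) = dm ℂ + dm (susL n K) := dm_prod ℂ (susL n K)
    rw [h, dm_C, ih]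
    omega

theorem dm_Zb (n : ℕ) : dm (Zb n) = n := by
  induction n with
  | zero => exact dm_point
  | succ n ih =>
    have h : dm (Zb (n + 1)) = dm ℂ + dm (Zb n) := dm_prod ℂ (Zb n)
    rw [h, dm_C, ih]
    omega

/-- the suspended space, with its spectators on the right -/
def nfS (K : LC) : ∀ n, susL n K ≃ₜ K.prod (susL n LC.point)
  | 0 => (Homeomorph.prodPUnit K : K.prod LC.point ≃ₜ K).symm
  | n + 1 => lp LC.C (nfS K n)

/-- the same for the targets -/
def nfZ (c : ℕ) : ∀ n, Zb (c + n) ≃ₜ (Zb c).prod (susL n LC.point)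
  | 0 => (Homeomorph.prodPUnit (Zb c) : (Zb c).prod LC.point ≃ₜ Zb c).symm
  | n + 1 => lp LC.C (nfZ c n)

theorem nfS_perm (K : LC) [Crd K] (n : ℕ) : IsPerm (nfS K n) := by
  induction n with
  | zero => exact (IsPerm.prodPUnit K).symm
  | succ n ih => exact ih.lp LC.C

theorem nfZ_perm (c n : ℕ) : IsPerm (nfZ c n) := by
  induction n with
  | zero => exact (IsPerm.prodPUnit (Zb c)).symm
  | succ n ih => exact ih.lp LC.C

variable {R : Biv}

/-- iterated suspension of a class -/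
def susX {K L : LC} (x : R.Hom K L) : ∀ n, R.Hom (susL n K) (susL n L)
  | 0 => x
  | n + 1 => R.ltens LC.C (susX x n)

/-- iterated suspension of a class -/
def susM {K : LC} {c : ℕ} (x : R.Hom K (Zb c)) : ∀ n, R.Hom (susL n K) (Zb (c + n))
  | 0 => x
  | n + 1 => R.ltens LC.C (susM x n)

theorem susX_eq {K L : LC} (x : R.Hom K L) (n : ℕ) : susX x n = pl R x (nfS K n) (nfS L n) := by
  induction n with
  | zero => exact eq_pl x
  | succ n ih =>
    rw [susX, ih, ltens_pl]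
    rfl

theorem susM_eq {K : LC} {c : ℕ} (x : R.Hom K (Zb c)) (n : ℕ) :
    susM x n = pl R x (nfS K n) (nfZ c n) := by
  induction n with
  | zero => exact eq_pl x
  | succ n ih =>
    rw [susM, ih, ltens_pl]
    rfl

theorem susM_comp {K L : LC} {c : ℕ} (x : R.Hom K L) (y : R.Hom L (Zb c)) (n : ℕ) :
    susM (R.comp x y) n = R.comp (susX x n) (susM y n) := by
  rw [susM_eq, susM_eq, susX_eq, pl_comp]

/-- a placed class, placed -/
theorem pl_pl {K L M N : LC} (x : R.Hom K L) {W W' M' N' : LC} (p : M ≃ₜ K.prod W)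
    (q : N ≃ₜ L.prod W) (p' : M' ≃ₜ M.prod W') (q' : N' ≃ₜ N.prod W') :
    pl R (pl R x p q) p' q' = pl R x (p'.trans (rp W' p)) (q'.trans (rp W' q)) := by
  have h : pl R (pl R x p q) p' q' =
      R.comp (jh R p') (R.comp (R.tens (pl R x p q) W') (jh R q'.symm)) := rfl
  rw [h, tens_pl, pl_jh, jh_pl]
  rfl

/-- a homeomorphism inside of a placed class -/
theorem pl_inside {K K' L : LC} (e : K ≃ₜ K') (x : R.Hom K' L) {W M N : LC} (p : M ≃ₜ K.prod W)
    (q : N ≃ₜ L.prod W) : pl R (R.comp (jh R e) x) p q =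
      pl R x (p.trans (e.prodCongr (Homeomorph.refl W) : K.prod W ≃ₜ K'.prod W)) q := by
  rw [pl, pl, R.tens_comp, tens_jh, jh_trans, R.assoc, R.assoc]

/-- change of the index -/
def zcast {a b : ℕ} (h : a = b) : Zb a ≃ₜ Zb b := h ▸ Homeomorph.refl _

theorem zcast_perm {a b : ℕ} (h : a = b) : IsPerm (zcast h) := by
  subst h
  exact IsPerm.refl _

theorem Like.pl {K L K0 L0 K1 L1 W : LC} [Crd K] [Crd L] [Crd K0] [Crd L0] [Crd W] [Crd K1] [Crd L1]
    {z : R.Hom K0 L0} {θ : R.Hom K1 L1} (h : Like z θ) {p : K ≃ₜ K0.prod W} {q : L ≃ₜ L0.prod W}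
    (hp : IsPerm p) (hq : IsPerm q) : Like (Pool.Agent.Helper63.Stab.pl R z p q) θ :=
  Like.trans ⟨W, inferInstance, p, q, hp, hq, rfl⟩ h

theorem Like.susM {K : LC} [Crd K] {c : ℕ} {x : R.Hom K (Zb c)} {K1 L1 : LC} [Crd K1] [Crd L1]
    {θ : R.Hom K1 L1} (h : Like x θ) (n : ℕ) : Like (Pool.Agent.Helper63.Stab.susM x n) θ := by
  rw [susM_eq]
  exact h.pl (nfS_perm K n) (nfZ_perm c n)

/-! ## The main formula -/

/-- `(y, z) ↦ ((y, P), z)`, inverse -/
def outB (C G Z : LC) : (C.prod G).prod Z ≃ₜ G.prod (C.prod Z) where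
  toFun v := (v.1.2, (v.1.1, v.2))
  invFun v := ((v.2.1, v.1), v.2.2)
  left_inv _ := rfl
  right_inv _ := rfl
  continuous_toFun := by fun_prop
  continuous_invFun := by fun_prop

theorem outB_perm (C G Z : LC) [Crd C] [Crd G] [Crd Z] : IsPerm (outB C G Z) :=
  (((IsPerm.prodComm C G).prodCongr (IsPerm.refl Z)).trans (IsPerm.prodAssoc G C Z)).of_eq
    fun _ => rfl

theorem main_formula {R : GBiv} {D : Datum} {ι : Type} [Fintype ι] {K : LC} {c : ℕ}
    (x : R.Hom K (Zb c)) (F : D.Rep ι K (Zb c))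
    (hF : R.comp (R.J F) (R.tens (R.ltens (LC.cpow (ι × Option D.u)) (R.g (ι × Option D.a)))
      (Zb c)) = R.comp (R.tens (shC R D ι) K)
        (R.ltens ((LC.cpow (ι × Option D.u)).prod LC.point) x))
    {G0 V : LC} (h0 : LC.G (ι × Option D.a) ≃ₜ G0) (g0 : R.Hom G0 LC.point)
    (hg : R.comp (jh R.toBiv h0) g0 = R.g (ι × Option D.a)) [Crd V] {m : ℕ} (b : R.Hom V (Zb m))
    {j N : ℕ} (hV : dm V + j = Fintype.card (ι × Option D.u) + c)
    (hN : Fintype.card (ι × Option D.w) = N) (hm : m + j = c + N)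
    {K1 : LC} [Crd K1] (θ : R.Hom K1 LC.point) (θ' : R.Hom LC.point K1)
    (v : R.Hom LC.point LC.point) (hθ : Like (shC R D ι) θ) (hθ' : Like b θ')
    (hv : Like (R.comp θ θ') v) (y : R.Hom (Zb c) (Zb c)) (hy : Like y v) :
    ∃ φ : PMap (susL N K) (susL j (V.prod G0)).plus,
      R.comp (R.J φ) (R.comp (susM (R := R.toBiv) (R.comp (R.ltens V g0)
        (R.comp (jh R.toBiv (Homeomorph.prodPUnit V : V.prod LC.point ≃ₜ V)) b)) j)
        (jh R.toBiv (zcast hm))) = susM (R := R.toBiv) (R.comp x y) N := by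
  obtain ⟨a1, ha1⟩ := exists_isPerm (X := susL N LC.point) (Y := D.A ι) (by
    rw [dm_sus, dm_point, add_zero]
    exact hN.symm)
  obtain ⟨a2, ha2⟩ := exists_isPerm (X := (LC.cpow (ι × Option D.u)).prod (Zb c))
    (Y := V.prod (susL j LC.point)) (by
      rw [dm_prod, dm_prod, dm_sus, dm_point, dm_Zb, add_zero]
      exact hV.symm)
  -- the homeomorphisms
  obtain ⟨i1, hi1⟩ : ∃ i1 : susL N K ≃ₜ (D.A ι).prod K, i1 = (nfS K N).trans
      (((Homeomorph.refl K).prodCongr a1 : K.prod (susL N LC.point) ≃ₜ K.prod (D.A ι)).trans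
        (LC.swap K (D.A ι))) := ⟨_, rfl⟩
  obtain ⟨i4, hi4⟩ : ∃ i4 : Zb (c + N) ≃ₜ (D.A ι).prod (Zb c), i4 = (nfZ c N).trans
      (((Homeomorph.refl (Zb c)).prodCongr a1 :
        (Zb c).prod (susL N LC.point) ≃ₜ (Zb c).prod (D.A ι)).trans
        (LC.swap (Zb c) (D.A ι))) := ⟨_, rfl⟩
  obtain ⟨i2, hi2⟩ : ∃ i2 : (D.B ι).prod (Zb c) ≃ₜ susL j (V.prod G0), i2 =
      (outB (LC.cpow (ι × Option D.u)) (LC.G (ι × Option D.a)) (Zb c)).trans
        ((h0.prodCongr a2 : (LC.G (ι × Option D.a)).prod ((LC.cpow (ι × Option D.u)).prod (Zb c))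
          ≃ₜ G0.prod (V.prod (susL j LC.point))).trans
          ((outB V G0 (susL j LC.point)).symm.trans (nfS (V.prod G0) j).symm)) := ⟨_, rfl⟩
  obtain ⟨i3, hi3⟩ : ∃ i3 : ((LC.cpow (ι × Option D.u)).prod LC.point).prod (Zb c) ≃ₜ susL j V,
      i3 = (((Homeomorph.prodPUnit (LC.cpow (ι × Option D.u)) :
        (LC.cpow (ι × Option D.u)).prod LC.point ≃ₜ LC.cpow (ι × Option D.u)).prodCongr
        (Homeomorph.refl (Zb c)) : ((LC.cpow (ι × Option D.u)).prod LC.point).prod (Zb c) ≃ₜ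
          (LC.cpow (ι × Option D.u)).prod (Zb c)).trans (a2.trans (nfS V j).symm)) := ⟨_, rfl⟩
  have pi4 : IsPerm i4 := by
    rw [hi4]
    exact (nfZ_perm c N).trans (((IsPerm.refl (Zb c)).prodCongr ha1).trans
      (IsPerm.prodComm (Zb c) (D.A ι)))
  have pi3 : IsPerm i3 := by
    rw [hi3]
    exact ((IsPerm.prodPUnit (LC.cpow (ι × Option D.u))).prodCongr (IsPerm.refl (Zb c))).trans
      (ha2.trans (nfS_perm V j).symm)
  refine ⟨(PMap.ofHomeo i2).comp (PMap.comp F (PMap.ofHomeo i1)), ?_⟩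
  have e1 : R.comp (jh R.toBiv i1) (R.ltens (D.A ι) x) =
      R.comp (susM (R := R.toBiv) x N) (jh R.toBiv i4) := by
    rw [susM_eq, ltens_eq_pl]
    refine pl_comm (R := R.toBiv) x a1 _ _ _ _ _ _ (fun k => ?_) (fun k => ?_)
    · rw [hi1]; rfl
    · rw [hi4]; rfl
  have hg' : g0 = R.comp (jh R.toBiv h0.symm) (R.g (ι × Option D.a)) := by
    rw [← hg, jh_symm_comp]
  have e2 : R.comp (jh R.toBiv i2) (susX (R := R.toBiv) (R.comp (R.ltens V g0)
      (jh R.toBiv (Homeomorph.prodPUnit V : V.prod LC.point ≃ₜ V))) j) =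
      R.comp (R.tens (R.ltens (LC.cpow (ι × Option D.u)) (R.g (ι × Option D.a))) (Zb c))
        (jh R.toBiv i3) := by
    rw [susX_eq, ltens_eq_pl, pl_jh, pl_pl, hg', pl_inside, ltens_eq_pl, tens_pl]
    refine pl_comm (R := R.toBiv) (R.g (ι × Option D.a)) a2 _ _ _ _ _ _ (fun k => ?_) (fun k => ?_)
    · rw [hi2]
      simp only [Homeomorph.trans_apply, Homeomorph.apply_symm_apply]
      refine Prod.ext ?_ rfl
      exact h0.symm_apply_apply _
    · rw [hi3]
      simp only [Homeomorph.trans_apply, Homeomorph.apply_symm_apply]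
      rfl
  -- the bracket
  have e3 : R.comp (R.comp (jh R.toBiv i4) (R.tens (shC R D ι) (Zb c))) (R.comp (R.comp
      (jh R.toBiv i3) (susM (R := R.toBiv) b j)) (jh R.toBiv (zcast hm))) =
      pl R.toBiv y (nfZ c N) (nfZ c N) := by
    refine Like.eq (θ := v) ?_ (hy.pl (nfZ_perm c N) (nfZ_perm c N))
    refine Like.trans ?_ hv
    exact Like.comp ((hθ.tens (Zb c)).jh_comp pi4)
      (((hθ'.susM j).jh_comp pi3).comp_jh (zcast_perm hm))
  have e4 : susM (R := R.toBiv) (R.comp x y) N =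
      R.comp (susM (R := R.toBiv) x N) (pl R.toBiv y (nfZ c N) (nfZ c N)) := by
    rw [susM_eq, susM_eq, pl_comp]
  have e5 : R.comp (R.tens (shC R D ι) K)
        (R.ltens ((LC.cpow (ι × Option D.u)).prod LC.point) x) =
      R.comp (R.ltens (D.A ι) x) (R.tens (shC R D ι) (Zb c)) := R.exch _ _
  rw [e4, ← e3, ← R.assoc (R.ltens V g0), susM_comp, R.J_comp, R.J_comp]
  simp only [R.assoc]
  rw [jh_def, jh_def, ← R.assoc (jh R.toBiv i2), e2, R.assoc, ← R.assoc (R.J F), hF, e5,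
    R.assoc, ← R.assoc (jh R.toBiv i1), e1]
  simp only [R.assoc]

end Pool.Agent.Helper63.Stab
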