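import Mathlib

/-! # Neighbourhood retraction to the Hermitian projections -/

open Topology Filter Set Matrix

set_option autoImplicit false

noncomputable section

namespace Pool.Agent.Helper63.Stab

open scoped Matrix.Norms.L2Operator

variable {n : Type} [Fintype n] [DecidableEq n]

/-- a cut-off function -/
def chi (x : ℝ) : ℝ := max 0 (min 1 (3 * x - 1))

lemma chi_cont : Continuous chi := by unfold chi; fun_prop

lemma chi_zero {x : ℝ} (h : x ≤ 1 / 3) : chi x = 0 := by
  unfold chi
  exact max_eq_left ((min_le_right _ _).trans (by linarith))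

lemma chi_one {x : ℝ} (h : 2 / 3 ≤ x) : chi x = 1 := by
  unfold chi
  rw [min_eq_left (by linarith), max_eq_right (by norm_num)]

/-- the Hermitian part -/
def hm (M : Matrix n n ℂ) : Matrix n n ℂ := (1 / 2 : ℂ) • (M + star M)

lemma hm_sa (M : Matrix n n ℂ) : IsSelfAdjoint (hm M) := by
  unfold hm
  rw [isSelfAdjoint_iff, star_smul, star_add, star_star, add_comm (star M) M]
  congr 1
  simp

omit [Fintype n] [DecidableEq n] in
lemma hm_cont : Continuous (hm : Matrix n n ℂ → Matrix n n ℂ) := by
  unfold hm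
  exact (continuous_id.add (continuous_star (R := Matrix n n ℂ))).const_smul (1 / 2 : ℂ)

omit [Fintype n] [DecidableEq n] in
lemma hm_of_sa {P : Matrix n n ℂ} (h : star P = P) : hm P = P := by
  unfold hm
  rw [h, ← two_smul ℂ, smul_smul]
  norm_num

/-- the retraction -/
def r1 (M : Matrix n n ℂ) : Matrix n n ℂ := cfc chi (hm M)

lemma r1_cont : Continuous (r1 : Matrix n n ℂ → Matrix n n ℂ) := by
  unfold r1
  exact Continuous.cfc_of_mem_nhdsSet (s := univ) chi Filter.univ_mem hm_cont
    (fun M => hm_sa M) chi_cont.continuousOn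

lemma r1_star (M : Matrix n n ℂ) : star (r1 M) = r1 M := by
  have : IsSelfAdjoint (r1 M) := cfc_predicate _ _
  exact this

lemma r1_idem {M : Matrix n n ℂ} (h : ‖hm M * hm M - hm M‖ < 2 / 9) : r1 M * r1 M = r1 M := by
  unfold r1
  rw [← cfc_mul chi chi (hm M) chi_cont.continuousOn chi_cont.continuousOn]
  refine cfc_congr fun x hx => ?_
  have e1 : cfc (fun x : ℝ => x * x - x) (hm M) = hm M * hm M - hm M := by
    have ha := hm_sa M
    rw [cfc_sub (fun x : ℝ => x * x) (fun x => x) (hm M), cfc_mul (fun x : ℝ => x) (fun x => x) (hm M),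
      cfc_id' ℝ (hm M)]
  have h1 : ‖x * x - x‖ ≤ ‖hm M * hm M - hm M‖ := by
    rw [← e1]
    exact norm_apply_le_norm_cfc (fun x : ℝ => x * x - x) (hm M) hx
      (by fun_prop) (hm_sa M)
  have h2 : |x * x - x| < 2 / 9 := h1.trans_lt h
  rw [abs_lt] at h2
  rcases le_or_gt x (1 / 3) with h3 | h3
  · rw [chi_zero h3, mul_zero]
  · rcases le_or_gt (2 / 3) x with h4 | h4
    · rw [chi_one h4, mul_one]
    · exfalso
      nlinarith

lemma r1_of_idem {P : Matrix n n ℂ} (h1 : star P = P) (h2 : P * P = P) : r1 P = P := by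
  unfold r1
  rw [hm_of_sa h1]
  have ha : IsSelfAdjoint P := h1
  have hs := (isIdempotentElem_iff_spectrum_subset ℝ P ha).1 h2
  have e : cfc chi P = cfc (fun x : ℝ => x) P := by
    refine cfc_congr fun x hx => ?_
    rcases hs hx with h | h
    · rw [h, chi_zero (by norm_num)]
    · rw [mem_singleton_iff] at h
      rw [h, chi_one (by norm_num)]
  rw [e, cfc_id' ℝ P]

lemma trace_nat {P : Matrix n n ℂ} (h2 : P * P = P) : ∃ k : ℕ, P.trace = k := by
  have h3 : IsIdempotentElem (Matrix.toLin' P) := by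
    unfold IsIdempotentElem
    change Matrix.toLin' P ∘ₗ Matrix.toLin' P = _
    rw [← Matrix.toLin'_mul, h2]
  have h4 := LinearMap.IsProj.trace (LinearMap.IsIdempotentElem.isProj_range _ h3)
  rw [Matrix.trace_toLin'_eq] at h4
  exact ⟨_, h4⟩

/-- A Hermitian projection of rank `l` is `A A^*` for an isometry `A`. -/
lemma exists_iso {l : ℕ} {P : Matrix n n ℂ} (h1 : star P = P) (h2 : P * P = P)
    (h3 : P.trace = l) : ∃ A : Matrix n (Fin l) ℂ, Aᴴ * A = 1 ∧ A * Aᴴ = P := by
  set f : EuclideanSpace ℂ n →ₗ[ℂ] EuclideanSpace ℂ n := Matrix.toEuclideanLin P with hf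
  have hfv : ∀ v : EuclideanSpace ℂ n, ∀ i, f v i = ∑ k, P i k * v k := fun v i => rfl
  have hff : IsIdempotentElem f := by
    unfold IsIdempotentElem
    change f ∘ₗ f = f
    rw [hf]
    ext v i
    simp [Matrix.toLpLin_apply, h2]
  have htr : (Module.finrank ℂ (LinearMap.range f) : ℂ) = l := by
    have h4 := LinearMap.IsProj.trace (LinearMap.IsIdempotentElem.isProj_range _ hff)
    rw [← h4, ← h3, LinearMap.trace_eq_matrix_trace ℂ (EuclideanSpace.basisFun n ℂ).toBasis,
      hf, Matrix.toEuclideanLin_eq_toLin_orthonormal, LinearMap.toMatrix_toLin]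
  have hfin : Module.finrank ℂ (LinearMap.range f) = l := by exact_mod_cast htr
  let b : OrthonormalBasis (Fin l) ℂ (LinearMap.range f) :=
    (stdOrthonormalBasis ℂ (LinearMap.range f)).reindex (finCongr hfin)
  let A : Matrix n (Fin l) ℂ := fun i j => ((b j : LinearMap.range f) : EuclideanSpace ℂ n) i
  have hA1 : Aᴴ * A = 1 := by
    ext j k
    have h5 := (orthonormal_iff_ite.1 b.orthonormal) j k
    rw [Matrix.mul_apply, Matrix.one_apply, ← h5, Submodule.coe_inner, PiLp.inner_apply]
    refine Finset.sum_congr rfl fun i _ => ?_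
    rw [Matrix.conjTranspose_apply, RCLike.inner_apply]
    exact mul_comm _ _
  have hA2 : P * A = A := by
    ext i j
    obtain ⟨v, hv⟩ := (b j).2
    have h5 : f (b j : EuclideanSpace ℂ n) = (b j : EuclideanSpace ℂ n) := by
      rw [← hv]
      exact LinearMap.congr_fun hff v
    have h6 := hfv (b j : EuclideanSpace ℂ n) i
    rw [h5] at h6
    exact h6.symm
  have hA3 : A * (Aᴴ * P) = P := by
    ext i k
    have h5 := b.sum_repr' ⟨f (EuclideanSpace.single k 1), LinearMap.mem_range_self f _⟩
    have h6 := congrArg (fun x : LinearMap.range f => (x : EuclideanSpace ℂ n) i) h5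
    simp only [Submodule.coe_sum, Submodule.coe_smul, Submodule.coe_inner] at h6
    have h7 : ∀ i, f (EuclideanSpace.single k 1) i = P i k := by
      intro i
      rw [hfv]
      simp
    rw [h7] at h6
    rw [← h6, Matrix.mul_apply]
    have h8 : (∑ j, inner ℂ (b j : EuclideanSpace ℂ n) (f (EuclideanSpace.single k 1)) •
        (b j : EuclideanSpace ℂ n)) i = ∑ j, inner ℂ (b j : EuclideanSpace ℂ n)
        (f (EuclideanSpace.single k 1)) * A i j := by
      simp [A]
    rw [h8]
    refine Finset.sum_congr rfl fun j _ => ?_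
    rw [mul_comm, Matrix.mul_apply, PiLp.inner_apply]
    congr 1
    refine Finset.sum_congr rfl fun i' _ => ?_
    rw [Matrix.conjTranspose_apply, RCLike.inner_apply, h7]
    exact mul_comm _ _
  refine ⟨A, hA1, ?_⟩
  have h5 := congrArg Matrix.conjTranspose hA3
  have hP : Pᴴ = P := h1
  rw [Matrix.conjTranspose_mul, Matrix.conjTranspose_mul, Matrix.conjTranspose_conjTranspose,
    hP, hA2] at h5
  exact h5

end Pool.Agent.Helper63.Stab
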