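import Pool.Agent.Helper1.Stab.Defs
import Pool.Agent.Helper63.Stab.GrA

/-! # Frames: projections and minors -/

open Topology Filter Set Matrix

set_option autoImplicit false

noncomputable section

namespace Pool.Agent.Helper63.Stab

open Pool.Agent.Helper1.Stab

/-- the matrix of a frame -/
def cm {l : ℕ} (A : Frame l) : Matrix (Fin (2 * l)) (Fin l) ℂ := fun i j => A.1 i j

lemma cm_iso {l : ℕ} (A : Frame l) : (cm A)ᴴ * cm A = 1 := by
  ext j j'
  rw [Matrix.mul_apply, Matrix.one_apply]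
  have h := A.2.2 j j.2 j' j'.2
  rw [← Fin.sum_univ_eq_sum_range (fun i => star (A.1 i j) * A.1 i j') (2 * l)] at h
  simp only [Fin.ext_iff]
  rw [← h]
  rfl

lemma cm_inj {l : ℕ} {A B : Frame l} (h : cm A = cm B) : A = B := by
  refine Subtype.ext (funext fun i => funext fun j => ?_)
  by_cases hij : 2 * l ≤ i ∨ l ≤ j
  · rw [A.2.1 i j hij, B.2.1 i j hij]
  · push Not at hij
    exact congrFun (congrFun h ⟨i, hij.1⟩) ⟨j, hij.2⟩

lemma cm_surj {l : ℕ} (M : Matrix (Fin (2 * l)) (Fin l) ℂ) (hM : Mᴴ * M = 1) :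
    ∃ A : Frame l, cm A = M := by
  refine ⟨⟨fun i j => if h : i < 2 * l ∧ j < l then M ⟨i, h.1⟩ ⟨j, h.2⟩ else
    if i = 2 * j then 1 else 0, fun i j hij => dif_neg (by omega), fun j hj j' hj' => ?_⟩, ?_⟩
  · have h1 := congrFun (congrFun hM ⟨j, hj⟩) ⟨j', hj'⟩
    rw [Matrix.mul_apply, Matrix.one_apply] at h1
    simp only [Fin.mk.injEq] at h1
    rw [← h1, ← Fin.sum_univ_eq_sum_range (fun i => star (if h : i < 2 * l ∧ j < l then
      M ⟨i, h.1⟩ ⟨j, h.2⟩ else if i = 2 * j then 1 else 0) * (if h : i < 2 * l ∧ j' < l then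
      M ⟨i, h.1⟩ ⟨j', h.2⟩ else if i = 2 * j' then 1 else 0)) (2 * l)]
    refine Finset.sum_congr rfl fun i _ => ?_
    rw [dif_pos ⟨i.2, hj⟩, dif_pos ⟨i.2, hj'⟩]
    rfl
  · ext i j
    exact dif_pos ⟨i.2, j.2⟩

lemma cm_cont (l : ℕ) : Continuous (cm : Frame l → Matrix (Fin (2 * l)) (Fin l) ℂ) := by
  refine continuous_pi fun i => continuous_pi fun j => ?_
  exact (continuous_apply (j : ℕ)).comp ((continuous_apply (i : ℕ)).comp continuous_subtype_val)

lemma frameRel_cm {D : Set ℂ} {l : ℕ} {A B : Frame l} : FrameRel D l A B ↔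
    ∃ g ∈ Matrix.unitaryGroup (Fin l) ℂ, Matrix.det g ∈ D ∧ cm B = cm A * g := by
  constructor
  · rintro ⟨g, hg, hd, h⟩
    refine ⟨g, hg, hd, ?_⟩
    ext i j
    rw [Matrix.mul_apply]
    exact h i j
  · rintro ⟨g, hg, hd, h⟩
    refine ⟨g, hg, hd, fun i j => ?_⟩
    by_cases hi : i < 2 * l
    · have := congrFun (congrFun h ⟨i, hi⟩) j
      rw [Matrix.mul_apply] at this
      exact this
    · rw [B.2.1 i j (Or.inl (by omega)), if_neg (by have := j.2; omega)]
      symm
      refine Finset.sum_eq_zero fun m _ => ?_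
      rw [A.2.1 i m (Or.inl (by omega)), if_neg (by have := m.2; omega), zero_mul]

/-- the projection -/
def pj {l : ℕ} (A : Frame l) : Matrix (Fin (2 * l)) (Fin (2 * l)) ℂ := cm A * (cm A)ᴴ

/-- the minors -/
def om {l : ℕ} (A : Frame l) : (Fin l → Fin (2 * l)) → ℂ :=
  fun J => ((cm A).submatrix J id).det

lemma pj_cont (l : ℕ) : Continuous (pj : Frame l → _) := by
  unfold pj
  exact (cm_cont l).matrix_mul (cm_cont l).matrix_conjTranspose

lemma om_cont (l : ℕ) : Continuous (om : Frame l → _) := by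
  refine continuous_pi fun J => ?_
  exact ((cm_cont l).matrix_submatrix J id).matrix_det

lemma pj_star {l : ℕ} (A : Frame l) : star (pj A) = pj A := by
  unfold pj
  rw [Matrix.star_eq_conjTranspose, Matrix.conjTranspose_mul, Matrix.conjTranspose_conjTranspose]

lemma pj_mul_cm {l : ℕ} (A : Frame l) : pj A * cm A = cm A := by
  unfold pj
  rw [Matrix.mul_assoc, cm_iso, Matrix.mul_one]

lemma pj_idem {l : ℕ} (A : Frame l) : pj A * pj A = pj A := by
  conv_lhs => rw [show pj A * pj A = (pj A * cm A) * (cm A)ᴴ by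
    conv_lhs => rw [pj]
    unfold pj
    simp only [Matrix.mul_assoc]]
  rw [pj_mul_cm]
  rfl

lemma pj_trace {l : ℕ} (A : Frame l) : (pj A).trace = l := by
  unfold pj
  rw [Matrix.trace_mul_comm, cm_iso, Matrix.trace_one, Fintype.card_fin]

/-- Some minor is not zero. -/
lemma om_ne {l : ℕ} (A : Frame l) : ∃ J, om A J ≠ 0 := by
  by_contra h
  push Not at h
  have h1 : ((cm A)ᴴ * cm A).det = 0 := by
    have e : (cm A)ᴴ * cm A = fun i => ∑ a, star (cm A a i) • cm A a := by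
      ext i j
      rw [Matrix.mul_apply, Finset.sum_apply]
      rfl
    rw [e]
    have h2 := (Matrix.detRowAlternating (n := Fin l) (R := ℂ)).toMultilinearMap.map_sum
      (fun (i : Fin l) (a : Fin (2 * l)) => star (cm A a i) • cm A a)
    refine Eq.trans h2 ?_
    refine Finset.sum_eq_zero fun J _ => ?_
    have h3 := (Matrix.detRowAlternating (n := Fin l) (R := ℂ)).toMultilinearMap.map_smul_univ
      (fun i => star (cm A (J i) i)) (fun i => cm A (J i))
    rw [h3]
    have h4 : (Matrix.detRowAlternating (n := Fin l) (R := ℂ)).toMultilinearMap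
        (fun i => cm A (J i)) = om A J := rfl
    rw [h4, h J, smul_zero]
  rw [cm_iso, Matrix.det_one] at h1
  exact one_ne_zero h1

lemma om_mul {l : ℕ} {A B : Frame l} {g : Matrix (Fin l) (Fin l) ℂ} (h : cm B = cm A * g)
    (J : Fin l → Fin (2 * l)) : om B J = om A J * g.det := by
  unfold om
  rw [h, ← Matrix.det_mul]
  rfl

/-- The minors of the projection. -/
def Lam {l : ℕ} (P : Matrix (Fin (2 * l)) (Fin (2 * l)) ℂ) (I J : Fin l → Fin (2 * l)) : ℂ :=
  (P.submatrix I J).det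

lemma Lam_cont {l : ℕ} (I J : Fin l → Fin (2 * l)) :
    Continuous fun P : Matrix (Fin (2 * l)) (Fin (2 * l)) ℂ => Lam P I J :=
  (continuous_id.matrix_submatrix I J).matrix_det

lemma Lam_pj {l : ℕ} (A : Frame l) (I J : Fin l → Fin (2 * l)) :
    Lam (pj A) I J = om A I * star (om A J) := by
  unfold Lam pj om
  have e : (cm A * (cm A)ᴴ).submatrix I J =
      (cm A).submatrix I id * ((cm A).submatrix J id)ᴴ := rfl
  rw [e, Matrix.det_mul, Matrix.det_conjTranspose]

lemma rel_of_pj {l : ℕ} {A B : Frame l} (h : pj A = pj B) :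
    ∃ g ∈ Matrix.unitaryGroup (Fin l) ℂ, cm B = cm A * g := by
  have h1 : cm A * ((cm A)ᴴ * cm B) = cm B := by
    rw [← Matrix.mul_assoc]
    change pj A * cm B = cm B
    rw [h, pj_mul_cm]
  refine ⟨(cm A)ᴴ * cm B, ?_, h1.symm⟩
  rw [Matrix.mem_unitaryGroup_iff', Matrix.star_eq_conjTranspose, Matrix.conjTranspose_mul,
    Matrix.conjTranspose_conjTranspose, Matrix.mul_assoc, h1, cm_iso]

lemma pj_of_rel {l : ℕ} {A B : Frame l} {g : Matrix (Fin l) (Fin l) ℂ}
    (hg : g ∈ Matrix.unitaryGroup (Fin l) ℂ) (h : cm B = cm A * g) : pj A = pj B := by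
  have hg' : g * gᴴ = 1 := Matrix.mem_unitaryGroup_iff.1 hg
  unfold pj
  rw [h, Matrix.conjTranspose_mul, Matrix.mul_assoc, ← Matrix.mul_assoc g, hg', Matrix.one_mul]

lemma rel_univ {l : ℕ} {A B : Frame l} : FrameRel Set.univ l A B ↔ pj A = pj B := by
  rw [frameRel_cm]
  constructor
  · rintro ⟨g, hg, _, h⟩
    exact pj_of_rel hg h
  · intro h
    obtain ⟨g, hg, h1⟩ := rel_of_pj h
    exact ⟨g, hg, trivial, h1⟩

lemma rel_one {l : ℕ} {A B : Frame l} : FrameRel {1} l A B ↔ pj A = pj B ∧ om A = om B := by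
  rw [frameRel_cm]
  constructor
  · rintro ⟨g, hg, hd, h⟩
    rw [mem_singleton_iff] at hd
    refine ⟨pj_of_rel hg h, ?_⟩
    ext J
    rw [om_mul h, hd, mul_one]
  · rintro ⟨h, h'⟩
    obtain ⟨g, hg, h1⟩ := rel_of_pj h
    obtain ⟨J, hJ⟩ := om_ne A
    refine ⟨g, hg, ?_, h1⟩
    have h2 := om_mul h1 J
    rw [← h'] at h2
    rw [mem_singleton_iff]
    exact mul_left_cancel₀ hJ (by rw [← h2, mul_one])

end Pool.Agent.Helper63.Stab
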