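import Pool.Agent.Helper63.Stab.GrB

/-! # The stages of `BG D` -/

open Topology Filter Set Matrix

set_option autoImplicit false

noncomputable section

namespace Pool.Agent.Helper63.Stab

open Pool.Agent.Helper1.Stab

/-- the matrix of the first `L` columns and the rows `J` -/
def rows (X : ℕ → ℕ → ℂ) {m : Type} (L : ℕ) (J : m → ℕ) : Matrix m (Fin L) ℂ :=
  fun i j => X (J i) j

/-- the matrix of the relation at the stage `k`, seen at the stage `k + e` -/
def ext {k : ℕ} (g : Matrix (Fin k) (Fin k) ℂ) (e : ℕ) : Matrix (Fin (k + e)) (Fin (k + e)) ℂ :=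
  Matrix.reindex finSumFinEquiv finSumFinEquiv (Matrix.fromBlocks g 0 0 1)

lemma ext_det {k : ℕ} (g : Matrix (Fin k) (Fin k) ℂ) (e : ℕ) : (ext g e).det = g.det := by
  unfold ext
  rw [Matrix.det_reindex_self, Matrix.det_fromBlocks_zero₂₁, Matrix.det_one, mul_one]

lemma ext_unitary {k : ℕ} {g : Matrix (Fin k) (Fin k) ℂ} (hg : g * gᴴ = 1) (e : ℕ) :
    ext g e * (ext g e)ᴴ = 1 := by
  unfold ext
  rw [Matrix.conjTranspose_reindex, Matrix.reindex_apply, Matrix.reindex_apply,
    Matrix.submatrix_mul_equiv, Matrix.fromBlocks_conjTranspose, Matrix.fromBlocks_multiply]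
  simp only [Matrix.conjTranspose_zero, Matrix.conjTranspose_one, Matrix.mul_zero,
    Matrix.zero_mul, Matrix.mul_one, add_zero, zero_add, hg, Matrix.fromBlocks_one,
    Matrix.submatrix_one_equiv]

lemma rows_rel {k : ℕ} {A B : Frame k} {g : Matrix (Fin k) (Fin k) ℂ}
    (h : ∀ (i : ℕ) (j : Fin k), B.1 i j = ∑ l : Fin k, A.1 i l * g l j) {m : Type} [Fintype m]
    (e : ℕ) (J : m → ℕ) : rows B.1 (k + e) J = rows A.1 (k + e) J * ext g e := by
  ext i j
  rw [Matrix.mul_apply, ← finSumFinEquiv.sum_comp, Fintype.sum_sum_type]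
  obtain ⟨j', rfl⟩ := finSumFinEquiv.surjective j
  rcases j' with j' | j'
  · have e1 : ∀ a : Fin k, ext g e (finSumFinEquiv (Sum.inl a)) (finSumFinEquiv (Sum.inl j')) =
        g a j' := by
      intro a
      simp [ext]
    have e2 : ∀ a : Fin e, ext g e (finSumFinEquiv (Sum.inr a)) (finSumFinEquiv (Sum.inl j')) =
        0 := by
      intro a
      simp [ext]
    simp only [e1, e2, mul_zero, Finset.sum_const_zero, add_zero]
    simp only [rows, finSumFinEquiv_apply_left, Fin.val_castAdd]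
    exact h (J i) j'
  · have e1 : ∀ a : Fin k, ext g e (finSumFinEquiv (Sum.inl a)) (finSumFinEquiv (Sum.inr j')) =
        0 := by
      intro a
      simp [ext]
    have e2 : ∀ a : Fin e, ext g e (finSumFinEquiv (Sum.inr a)) (finSumFinEquiv (Sum.inr j')) =
        if a = j' then 1 else 0 := by
      intro a
      simp [ext, Matrix.one_apply]
    simp only [e1, e2, mul_zero, Finset.sum_const_zero, zero_add, mul_ite, mul_one,
      Finset.sum_ite_eq', Finset.mem_univ, if_true]
    simp only [rows, finSumFinEquiv_apply_right, Fin.val_natAdd]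
    rw [A.2.1 _ _ (Or.inr (by omega)), B.2.1 _ _ (Or.inr (by omega))]

/-- the relation at the stage `L` -/
def RelL (b : Bool) (X Y : ℕ → ℕ → ℂ) : Prop := ∃ L₀ : ℕ, ∀ L ≥ L₀,
  (∀ (m : ℕ) (J : Fin m → ℕ), rows X L J * (rows X L J)ᴴ = rows Y L J * (rows Y L J)ᴴ) ∧
  (b = true → ∀ J : Fin L → ℕ, (rows X L J).det = (rows Y L J).det)

lemma RelL.symm {b : Bool} {X Y : ℕ → ℕ → ℂ} (h : RelL b X Y) : RelL b Y X := by
  obtain ⟨L₀, h⟩ := h
  exact ⟨L₀, fun L hL => ⟨fun m J => ((h L hL).1 m J).symm, fun hb J => ((h L hL).2 hb J).symm⟩⟩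

lemma RelL.trans {b : Bool} {X Y Z : ℕ → ℕ → ℂ} (h : RelL b X Y) (h' : RelL b Y Z) :
    RelL b X Z := by
  obtain ⟨L₀, h⟩ := h
  obtain ⟨L₁, h'⟩ := h'
  refine ⟨max L₀ L₁, fun L hL => ⟨fun m J => ?_, fun hb J => ?_⟩⟩
  · exact ((h L ((le_max_left _ _).trans hL)).1 m J).trans
      ((h' L ((le_max_right _ _).trans hL)).1 m J)
  · exact ((h L ((le_max_left _ _).trans hL)).2 hb J).trans
      ((h' L ((le_max_right _ _).trans hL)).2 hb J)

lemma relL_of {D : Set ℂ} {b : Bool} (hb : b = true → D = {1}) {x y : Σ k, Frame k}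
    (h : Relation.EqvGen (BRel D) x y) : RelL b x.2.1 y.2.1 := by
  induction h with
  | rel x y h =>
    cases h with
    | @rot k A B h =>
      obtain ⟨g, hg, hd, hB⟩ := h
      have hg' : g * gᴴ = 1 := Matrix.mem_unitaryGroup_iff.1 hg
      refine ⟨k, fun L hL => ?_⟩
      obtain ⟨e, rfl⟩ := Nat.exists_eq_add_of_le hL
      refine ⟨fun m J => ?_, fun hb' J => ?_⟩
      · simp only
        rw [rows_rel hB e J, Matrix.conjTranspose_mul, Matrix.mul_assoc,
          ← Matrix.mul_assoc (ext g e), ext_unitary hg' e, Matrix.one_mul]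
      · simp only
        rw [hb hb', mem_singleton_iff] at hd
        rw [rows_rel hB e J, Matrix.det_mul, ext_det, hd, mul_one]
    | stab A => exact ⟨0, fun L _ => ⟨fun m J => rfl, fun _ J => rfl⟩⟩
  | refl x => exact ⟨0, fun L _ => ⟨fun m J => rfl, fun _ J => rfl⟩⟩
  | symm x y _ ih => exact ih.symm
  | trans x y z _ _ ih1 ih2 => exact ih1.trans ih2

lemma pj_rows {l : ℕ} (A : Frame l) (e : ℕ) :
    rows A.1 (l + e) (fun i : Fin (2 * l) => (i : ℕ)) *
      (rows A.1 (l + e) (fun i : Fin (2 * l) => (i : ℕ)))ᴴ = pj A := by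
  ext i j
  unfold pj
  rw [Matrix.mul_apply, Matrix.mul_apply, ← finSumFinEquiv.sum_comp, Fintype.sum_sum_type]
  have e2 : ∀ a : Fin e, rows A.1 (l + e) (fun i : Fin (2 * l) => (i : ℕ)) i
      (finSumFinEquiv (Sum.inr a)) = 0 := by
    intro a
    simp only [rows, finSumFinEquiv_apply_right, Fin.val_natAdd]
    rw [A.2.1 _ _ (Or.inr (by omega)), if_neg (by have := i.2; omega)]
  simp only [e2, zero_mul, Finset.sum_const_zero, add_zero]
  rfl

lemma om_rows {l : ℕ} (A : Frame l) (e : ℕ) (J : Fin l → Fin (2 * l)) :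
    (rows A.1 (l + e) (fun i : Fin (l + e) => if h : (i : ℕ) < l then ((J ⟨i, h⟩ : Fin (2 * l)) : ℕ)
      else 2 * (i : ℕ))).det = om A J := by
  rw [← Matrix.det_submatrix_equiv_self finSumFinEquiv]
  have e1 : (rows A.1 (l + e) (fun i : Fin (l + e) => if h : (i : ℕ) < l then
      ((J ⟨i, h⟩ : Fin (2 * l)) : ℕ) else 2 * (i : ℕ))).submatrix finSumFinEquiv finSumFinEquiv =
      Matrix.fromBlocks ((cm A).submatrix J id) 0
        (fun (i : Fin e) (j : Fin l) => A.1 (2 * (l + i)) j) 1 := by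
    ext i j
    rcases i with i | i
    · rcases j with j | j
      · simp only [Matrix.submatrix_apply, rows, finSumFinEquiv_apply_left, Fin.val_castAdd,
          Matrix.fromBlocks_apply₁₁, dif_pos i.2]
        rfl
      · simp only [Matrix.submatrix_apply, rows, finSumFinEquiv_apply_left, Fin.val_castAdd,
          finSumFinEquiv_apply_right, Fin.val_natAdd, Matrix.fromBlocks_apply₁₂, dif_pos i.2]
        rw [A.2.1 _ _ (Or.inr (by omega)), if_neg (by have := (J i).2; omega)]
        rfl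
    · rcases j with j | j
      · simp only [Matrix.submatrix_apply, rows, finSumFinEquiv_apply_left, Fin.val_castAdd,
          finSumFinEquiv_apply_right, Fin.val_natAdd, Matrix.fromBlocks_apply₂₁,
          dif_neg (show ¬ (l + (i : ℕ) < l) by omega)]
      · simp only [Matrix.submatrix_apply, rows,
          finSumFinEquiv_apply_right, Fin.val_natAdd, Matrix.fromBlocks_apply₂₂,
          dif_neg (show ¬ (l + (i : ℕ) < l) by omega)]
        rw [A.2.1 _ _ (Or.inr (by omega)), Matrix.one_apply]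
        by_cases hij : i = j
        · rw [if_pos hij, if_pos (by rw [hij])]
        · rw [if_neg hij, if_neg]
          intro h
          exact hij (Fin.ext (by omega))
  rw [e1, Matrix.det_fromBlocks_zero₁₂, Matrix.det_one, mul_one]
  rfl

lemma pj_eq {D : Set ℂ} {l : ℕ} {A B : Frame l}
    (h : toBG D l (Quot.mk _ A) = toBG D l (Quot.mk _ B)) : pj A = pj B := by
  obtain ⟨L₀, h1⟩ := relL_of (D := D) (b := false) (by simp) (Quot.eqvGen_exact h)
  have h2 := (h1 (l + L₀) (by omega)).1 (2 * l) (fun i : Fin (2 * l) => (i : ℕ))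
  simp only at h2
  rwa [pj_rows, pj_rows] at h2

lemma om_eq {l : ℕ} {A B : Frame l}
    (h : toBG {1} l (Quot.mk _ A) = toBG {1} l (Quot.mk _ B)) : om A = om B := by
  obtain ⟨L₀, h1⟩ := relL_of (D := {1}) (b := true) (fun _ => rfl) (Quot.eqvGen_exact h)
  funext J
  have h2 := (h1 (l + L₀) (by omega)).2 rfl (fun i : Fin (l + L₀) => if h : (i : ℕ) < l then
    ((J ⟨i, h⟩ : Fin (2 * l)) : ℕ) else 2 * (i : ℕ))
  simp only at h2
  rwa [om_rows, om_rows] at h2

theorem toBG_univ {l : ℕ} {A B : Frame l} :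
    toBG Set.univ l (Quot.mk _ A) = toBG Set.univ l (Quot.mk _ B) ↔ pj A = pj B := by
  refine ⟨pj_eq, fun h => ?_⟩
  exact congrArg _ (Quot.sound (rel_univ.2 h))

theorem toBG_one {l : ℕ} {A B : Frame l} :
    toBG {1} l (Quot.mk _ A) = toBG {1} l (Quot.mk _ B) ↔ (pj A, om A) = (pj B, om B) := by
  rw [Prod.mk.injEq]
  refine ⟨fun h => ⟨pj_eq h, om_eq h⟩, fun h => ?_⟩
  exact congrArg _ (Quot.sound (rel_one.2 h))

end Pool.Agent.Helper63.Stab
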