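import Pool.Agent.Helper1.Stab.PR
import Pool.Agent.Helper82.Stab.GenAux

/-! Preparations for the Hurewicz image of `x`. -/

open Topology Filter Set Matrix

noncomputable section

namespace Pool.Agent.Helper63.Stab.Hur

open Pool.Agent.Helper1.Stab
open Pool.Agent.Helper37.Stab (mulB mulB_comm mulB_assoc mulB_one mulB_add mulB_pre dg lun)
open Pool.Agent.Helper82.Stab (ext_apply ext_left ext_right pr_ext_iff)

/-! ## Products of classes -/

/-- the pair of two pointed maps -/
def pr2 {K L M : LC} (f : PMap K L.plus) (g : PMap K M.plus) : PMap K (L.prod M).plus :=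
  (f.box g).comp (dg K)

theorem pr2_apply {K L M : LC} (f : PMap K L.plus) (g : PMap K M.plus) (k : K) :
    pr2 f g k = smashPt L M (f k, g k) := rfl

variable (R : Biv)

/-- the exterior product -/
def ep {L M : LC} (x : R.Hom L LC.point) (y : R.Hom M LC.point) : R.Hom (L.prod M) LC.point :=
  R.comp (R.comp (R.tens x M) (R.ltens LC.point y)) (R.J (PMap.ofHomeo (lun LC.point)))

theorem ep_J {K K' L M : LC} (f : PMap K L.plus) (g : PMap K' M.plus) (x : R.Hom L LC.point)
    (y : R.Hom M LC.point) :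
    ep R (R.comp (R.J f) x) (R.comp (R.J g) y) = R.comp (R.J (f.box g)) (ep R x y) := by
  rw [ep, ep, J_box, R.tens_comp, ltens_comp]
  simp only [R.assoc]
  rw [← R.assoc (R.tens x K'), exch' x (R.J g)]
  simp only [R.assoc]

theorem mulB_eq_ep {K : LC} (x y : R.Hom K LC.point) :
    mulB R x y = R.comp (R.J (dg K)) (ep R x y) := rfl

theorem mulB_J {K L M : LC} (f : PMap K L.plus) (g : PMap K M.plus) (x : R.Hom L LC.point)
    (y : R.Hom M LC.point) :
    mulB R (R.comp (R.J f) x) (R.comp (R.J g) y) = R.comp (R.J (pr2 f g)) (ep R x y) := by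
  rw [mulB_eq_ep, ep_J, pr2, R.J_comp, R.assoc]

/-! ## The square of the class of `ℂP¹` -/

/-- `ℂP¹ → ℂ × ℂ` -/
def sqM : PMap (LC.Pr Bool 1) (LC.C.prod LC.C).plus := pr2 collP1 collP1

/-- one step of the powers of an operator -/
def stp {X : LC} (E : PMap X (X.prod LC.C).plus) (i : ℕ) :
    PMap (X.prod (Cn i)) (X.prod (Cn (i + 1))).plus :=
  (PMap.ofHomeo (K := (X.prod LC.C).prod (Cn i)) (L := X.prod ((Cn i).prod LC.C))
    { toFun := fun x => (x.1.1, (x.2, x.1.2))
      invFun := fun x => ((x.1, x.2.2), x.2.1)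
      left_inv := fun _ => rfl
      right_inv := fun _ => rfl
      continuous_toFun := by fun_prop
      continuous_invFun := by fun_prop }).comp (E.tens (Cn i))

theorem stp_inf {X : LC} (E : PMap X (X.prod LC.C).plus) (i : ℕ) (x : X) (v : Cn i)
    (h : E x = OnePoint.infty) : stp E i (x, v) = OnePoint.infty := by
  change (PMap.ofHomeo _).plus (smashPt (X.prod LC.C) (Cn i) (E x, (v : OnePoint (Cn i)))) = _
  rw [h]
  rfl

theorem stp_coe {X : LC} (E : PMap X (X.prod LC.C).plus) (i : ℕ) (x : X) (v : Cn i) (z : LC.C)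
    (h : E x = (((x, z) : X × LC.C) : OnePoint (X × LC.C))) :
    stp E i (x, v) = (((x, (v, z)) : X × (Cn i × LC.C)) : OnePoint (X × (Cn i × LC.C))) := by
  change (PMap.ofHomeo _).plus (smashPt (X.prod LC.C) (Cn i) (E x, (v : OnePoint (Cn i)))) = _
  rw [h]
  rfl

/-- `ℂ² = ℂ × ℂ` -/
def e2 : Cn 2 ≃ₜ LC.C.prod LC.C where
  toFun v := (v.1.2, v.2)
  invFun v := ((PUnit.unit, v.1), v.2)
  left_inv _ := rfl
  right_inv _ := rfl
  continuous_toFun := by fun_prop
  continuous_invFun := by fun_prop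

theorem sqM_eq (E : PMap (LC.Pr Bool 1) ((LC.Pr Bool 1).prod LC.C).plus)
    (hE : ∀ P, E P = smashPt (LC.Pr Bool 1) LC.C ((P : OnePoint (LC.Pr Bool 1)), collP1 P)) :
    sqM = (PMap.ofHomeo e2).comp (((PMap.ofHomeo (LC.lunit (Cn 2))).comp
      ((PMap.toPoint (LC.Pr Bool 1)).tens (Cn 2))).comp ((stp E 1).comp ((stp E 0).comp
        (PMap.ofHomeo (K := LC.Pr Bool 1) (L := (LC.Pr Bool 1).prod LC.point)
          (Homeomorph.prodPUnit (Pr Bool 1)).symm)))) := by
  refine PMap.ext fun P => ?_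
  have hP : ∀ w, collP1 P = w → sqM P = smashPt LC.C LC.C (w, w) := by
    rintro w rfl
    rfl
  have hE' : ∀ w, collP1 P = w → E P = smashPt (LC.Pr Bool 1) LC.C
      ((P : OnePoint (LC.Pr Bool 1)), w) := by
    rintro w rfl
    exact hE P
  change _ = (PMap.ofHomeo e2).plus (((PMap.ofHomeo (LC.lunit (Cn 2))).comp
      ((PMap.toPoint (LC.Pr Bool 1)).tens (Cn 2))).plus ((stp E 1).plus
        (stp E 0 (P, PUnit.unit))))
  rcases hc : collP1 P with _ | z
  · rw [hP _ hc, stp_inf E 0 P PUnit.unit (hE' _ hc)]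
    rfl
  · rw [hP _ hc, stp_coe E 0 P PUnit.unit z (hE' _ hc)]
    refine Eq.trans ?_ (congrArg (fun w => (PMap.ofHomeo e2).plus
      (((PMap.ofHomeo (LC.lunit (Cn 2))).comp
        ((PMap.toPoint (LC.Pr Bool 1)).tens (Cn 2))).plus w))
      (stp_coe E 1 P (PUnit.unit, z) z (hE' _ hc))).symm
    rfl

variable {R} in
theorem J_sqM (o : Orient R) : R.J sqM = 0 := by
  have h := o.upow_eq_zero Bool (i := 2) (by simp)
  have h1 : R.comp (o.upow Bool 2) (R.J (PMap.ofHomeo e2)) = 0 := by
    rw [h, PR.zero_comp]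
  rw [← h1, Orient.upow, Orient.Epow, Orient.Epow, Orient.Epow, Orient.E, o.u_bool]
  simp only [ltens_J, R.tens_J, ← R.J_comp]
  congr 1
  exact sqM_eq _ fun P => rfl

/-! ## Products of classes over `ℂP¹ × ℂP¹` -/

/-- `ℂP¹ × ℂP¹` -/
abbrev QQ : LC := (LC.Pr Bool 1).prod (LC.Pr Bool 1)

/-- first coordinate -/
def fsM : PMap QQ (LC.Pr Bool 1).plus :=
  PMap.ofCont (K := QQ) (L := LC.Pr Bool 1) Prod.fst continuous_fst

/-- second coordinate -/
def snM : PMap QQ (LC.Pr Bool 1).plus :=
  PMap.ofCont (K := QQ) (L := LC.Pr Bool 1) Prod.snd continuous_snd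

/-- `ℂP¹ × ℂP¹ → ℂ × ℂ` -/
def cc : PMap QQ (LC.C.prod LC.C).plus := collP1.box collP1

theorem pr2_cc : pr2 (collP1.comp fsM) (collP1.comp snM) = cc := by
  refine PMap.ext fun x => ?_
  rfl

theorem pr2_cc_fst : pr2 cc (collP1.comp fsM) = (PMap.ofHomeo (K := (LC.C.prod LC.C).prod LC.C)
    (L := (LC.C.prod LC.C).prod LC.C)
    { toFun := fun v => ((v.1.1, v.2), v.1.2)
      invFun := fun v => ((v.1.1, v.2), v.1.2)
      left_inv := fun _ => rfl
      right_inv := fun _ => rfl
      continuous_toFun := by fun_prop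
      continuous_invFun := by fun_prop }).comp (sqM.box collP1) := by
  refine PMap.ext fun x => ?_
  change smashPt (LC.C.prod LC.C) LC.C (smashPt LC.C LC.C (collP1 x.1, collP1 x.2), collP1 x.1) =
    (PMap.ofHomeo _).plus (smashPt (LC.C.prod LC.C) LC.C
      (smashPt LC.C LC.C (collP1 x.1, collP1 x.1), collP1 x.2))
  generalize collP1 x.1 = a
  generalize collP1 x.2 = b
  rcases a with _ | a <;> rcases b with _ | b <;> rfl

theorem pr2_cc_snd : pr2 cc (collP1.comp snM) = (PMap.ofHomeo (K := LC.C.prod (LC.C.prod LC.C))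
    (L := (LC.C.prod LC.C).prod LC.C)
    { toFun := fun v => ((v.1, v.2.1), v.2.2)
      invFun := fun v => (v.1.1, (v.1.2, v.2))
      left_inv := fun _ => rfl
      right_inv := fun _ => rfl
      continuous_toFun := by fun_prop
      continuous_invFun := by fun_prop }).comp (collP1.box sqM) := by
  refine PMap.ext fun x => ?_
  change smashPt (LC.C.prod LC.C) LC.C (smashPt LC.C LC.C (collP1 x.1, collP1 x.2), collP1 x.2) =
    (PMap.ofHomeo _).plus (smashPt LC.C (LC.C.prod LC.C)
      (collP1 x.1, smashPt LC.C LC.C (collP1 x.2, collP1 x.2)))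
  generalize collP1 x.1 = a
  generalize collP1 x.2 = b
  rcases a with _ | a <;> rcases b with _ | b <;> rfl

theorem tens_zero {K L : LC} (Z : LC) : R.tens (0 : R.Hom K L) Z = 0 := by
  have h := R.tens_add (0 : R.Hom K L) 0 Z
  rw [add_zero] at h
  exact left_eq_add.1 h

theorem J_pr2_fst (h : R.J sqM = 0) : R.J (pr2 cc (collP1.comp fsM)) = 0 := by
  rw [pr2_cc_fst, R.J_comp, J_box, h, tens_zero, PR.zero_comp, PR.zero_comp]

theorem J_pr2_snd (h : R.J sqM = 0) : R.J (pr2 cc (collP1.comp snM)) = 0 := by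
  rw [pr2_cc_snd, R.J_comp, J_box, h, Orient.pj_ltens_zero, PR.comp_zero, PR.zero_comp]

/-! ## Extensions of lines -/

section
variable {S T : Type} [Fintype S] [Fintype T] {n : ℕ}

open Classical in
/-- the inclusion matrix -/
def inM (j : S ↪ T) : Matrix T S ℂ := fun t s => if t = j s then 1 else 0

omit [Fintype T] in
theorem inM_mul (j : S ↪ T) (P : Matrix S S ℂ) (s t : S) : (inM j * P) (j s) t = P s t := by
  classical
  rw [Matrix.mul_apply, Finset.sum_eq_single s]
  · rw [inM, if_pos rfl, one_mul]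
  · intro b _ hb
    rw [inM, if_neg (fun h => hb (j.injective h).symm), zero_mul]
  · intro h
    exact absurd (Finset.mem_univ _) h

omit [Fintype T] in
theorem inM_mul' (j : S ↪ T) (P : Matrix S S ℂ) {a : T} (ha : ∀ s, j s ≠ a) (t : S) :
    (inM j * P) a t = 0 := by
  classical
  rw [Matrix.mul_apply]
  refine Finset.sum_eq_zero fun s _ => ?_
  rw [inM, if_neg (fun h => ha s h.symm), zero_mul]

theorem inM_conj (j : S ↪ T) (P : Matrix S S ℂ) : (inM j)ᴴ * (inM j * P) = P := by
  classical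
  ext s t
  rw [Matrix.mul_apply, Finset.sum_eq_single (j s)]
  · rw [Matrix.conjTranspose_apply, inM_mul, inM, if_pos rfl, star_one, one_mul]
  · intro b _ hb
    rw [Matrix.conjTranspose_apply, inM, if_neg hb, star_zero, zero_mul]
  · intro h
    exact absurd (Finset.mem_univ _) h

theorem inM_sandwich (j : S ↪ T) (P : Pr S n) :
    inM j * P.1 * (inM j)ᴴ = (Pr.ext j P).1 := by
  classical
  ext a b
  rw [Matrix.mul_apply]
  by_cases hb : ∃ t, j t = b
  · obtain ⟨t, rfl⟩ := hb
    rw [Finset.sum_eq_single t]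
    · rw [Matrix.conjTranspose_apply, inM, if_pos rfl, star_one, mul_one]
      by_cases ha : ∃ s, j s = a
      · obtain ⟨s, rfl⟩ := ha
        exact (inM_mul j P.1 s t).trans (ext_apply j P s t).symm
      · push Not at ha
        exact (inM_mul' j P.1 ha t).trans (ext_left j P ha _).symm
    · intro c _ hc
      rw [Matrix.conjTranspose_apply, inM, if_neg (fun h => hc (j.injective h).symm), star_zero,
        mul_zero]
    · intro h
      exact absurd (Finset.mem_univ _) h
  · push Not at hb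
    rw [ext_right j P a hb]
    refine Finset.sum_eq_zero fun c _ => ?_
    rw [Matrix.conjTranspose_apply, inM, if_neg (fun h => hb c h.symm), star_zero, mul_zero]

/-- extension by zero is an equivalence of families -/
theorem uequiv_ext {X : Type} [TopologicalSpace X] (E : C(X, Pr S n)) (j : S ↪ T) :
    UEquiv E (fun x => Pr.ext j (E x)) := by
  refine ⟨fun x => inM j * (E x).1, ?_, fun x => ?_, fun x => ?_⟩
  · exact continuous_const.matrix_mul (Pr.continuous_val69.comp E.continuous)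
  · rw [Matrix.conjTranspose_mul, (E x).2.1, Matrix.mul_assoc, inM_conj, (E x).2.2.1]
  · rw [Matrix.conjTranspose_mul, (E x).2.1, Matrix.mul_assoc, ← Matrix.mul_assoc (E x).1,
      (E x).2.2.1, ← Matrix.mul_assoc, inM_sandwich]

/-- `t ↦ (s, t)` -/
def jR (s : S) : T ↪ S × T := ⟨fun t => (s, t), fun _ _ h => (Prod.mk.inj h).2⟩

/-- `s ↦ (s, t)` -/
def jL (t : T) : S ↪ S × T := ⟨fun s => (s, t), fun _ _ h => (Prod.mk.inj h).1⟩

theorem tensor_line_left (s : S) (Q : Pr T 1) : Pr.tensor (Pr.line s, Q) = Pr.ext (jR s) Q := by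
  classical
  refine pr_ext_iff ?_
  rintro ⟨a, b⟩ ⟨c, d⟩
  change (if a = s ∧ c = s then (1 : ℂ) else 0) * Q.1 b d = _
  by_cases h1 : a = s
  · by_cases h2 : c = s
    · subst h1
      subst h2
      rw [if_pos ⟨rfl, rfl⟩, one_mul]
      exact (ext_apply (jR c) Q b d).symm
    · rw [if_neg (fun h => h2 h.2), zero_mul]
      exact (ext_right (jR s) Q _ fun t h => h2 (Prod.mk.inj h).1.symm).symm
  · rw [if_neg (fun h => h1 h.1), zero_mul]
    exact (ext_left (jR s) Q (fun t h => h1 (Prod.mk.inj h).1.symm) _).symm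

theorem tensor_line_right (t : T) (P : Pr S 1) : Pr.tensor (P, Pr.line t) = Pr.ext (jL t) P := by
  classical
  refine pr_ext_iff ?_
  rintro ⟨a, b⟩ ⟨c, d⟩
  change P.1 a c * (if b = t ∧ d = t then (1 : ℂ) else 0) = _
  by_cases h1 : b = t
  · by_cases h2 : d = t
    · subst h1
      subst h2
      rw [if_pos ⟨rfl, rfl⟩, mul_one]
      exact (ext_apply (jL d) P a c).symm
    · rw [if_neg (fun h => h2 h.2), mul_zero]
      exact (ext_right (jL t) P _ fun s h => h2 (Prod.mk.inj h).2.symm).symm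
  · rw [if_neg (fun h => h1 h.1), mul_zero]
    exact (ext_left (jL t) P (fun s h => h1 (Prod.mk.inj h).2.symm) _).symm

end

/-! ## Classes of tautological lines -/

section
variable (T : GBiv)

/-- the class of the tautological line -/
def tau (S : Type) [Fintype S] : T.Hom (LC.Pr S 1) LC.point :=
  T.bun (K := LC.Pr S 1) (ContinuousMap.id _)

theorem bun_ext {K : LC} [CompactSpace K] {S S' : Type} [Fintype S] [Fintype S'] {n : ℕ}
    (E : C(K, Pr S n)) (j : S ↪ S') :
    T.bun ((⟨Pr.ext j, Pr.continuous_ext j⟩ : C(Pr S n, Pr S' n)).comp E) = T.bun E :=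
  (T.bun_congr E _ (uequiv_ext E j)).symm

theorem tau_ext {S S' : Type} [Fintype S] [Fintype S'] (j : S ↪ S') :
    T.comp (T.J (Pr.extM j 1)) (tau T S') = tau T S := by
  have h := T.bun_comp (K := LC.Pr S 1) (L := LC.Pr S' 1)
    (⟨Pr.ext j, Pr.continuous_ext j⟩ : C(Pr S 1, Pr S' 1)) (ContinuousMap.id _)
  refine h.trans ?_
  exact bun_ext T (K := LC.Pr S 1) (ContinuousMap.id _) j

/-- a family of lines -/
theorem bun_line {K : LC} [CompactSpace K] {S : Type} [Fintype S] (E : C(K, Pr S 1)) :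
    T.bun E = T.comp (T.J (PMap.ofCont (K := K) (L := LC.Pr S 1) E E.continuous)) (tau T S) :=
  (T.bun_comp (K := K) (L := LC.Pr S 1) E (ContinuousMap.id _)).symm

end

end Pool.Agent.Helper63.Stab.Hur
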