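import Pool.Agent.Helper63.Stab.HurA

/-! The Hurewicz image of `x`. -/

open Topology Filter Set Matrix

noncomputable section

namespace Pool.Agent.Helper63.Stab.Hur

open Pool.Agent.Helper1.Stab
open Pool.Agent.Helper37.Stab (mulB mulB_comm mulB_assoc mulB_one mulB_add mulB_pre dg lun)

/-! ## Splitting of `ℂP¹ × ℂP¹` -/

section
variable {R : Biv}

/-- the retraction of `ℂP¹` to the point at infinity -/
def piM : PMap (LC.Pr Bool 1) (LC.Pr Bool 1).plus :=
  (PMap.ofPoint (K := LC.Pr Bool 1) (Pr.line true)).comp (PMap.toPoint (LC.Pr Bool 1))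

/-- the splitting of the product -/
def r2 (r : R.Hom LC.C (LC.Pr Bool 1)) : R.Hom (LC.C.prod LC.C) QQ :=
  R.comp (R.tens r LC.C) (R.ltens (LC.Pr Bool 1) r)

theorem r2_cc (r : R.Hom LC.C (LC.Pr Bool 1)) (hr : R.comp r (R.J collP1) = R.J (PMap.id _)) :
    R.comp (r2 r) (R.J cc) = R.J (PMap.id _) := by
  rw [r2, cc, J_box', R.assoc, ← R.assoc (R.ltens _ r), ← ltens_comp, hr, ltens_id, R.id_comp,
    ← R.tens_comp, hr, tens_id]

theorem cc_r2 (r : R.Hom LC.C (LC.Pr Bool 1))
    (hr : R.comp (R.J collP1) r = R.J (PMap.id _) - R.J piM) :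
    R.comp (R.J cc) (r2 r) = R.J (PMap.id _) - R.J (piM.tens (LC.Pr Bool 1)) -
      R.J (PMap.ltens (LC.Pr Bool 1) piM) + R.J (piM.box piM) := by
  have e1 : R.comp (R.J cc) (r2 r) = R.comp (R.tens (R.comp (R.J collP1) r) (LC.Pr Bool 1))
      (R.ltens (LC.Pr Bool 1) (R.comp (R.J collP1) r)) := by
    rw [r2, cc, J_box, R.assoc, ← R.assoc (R.ltens _ _), ← exch', R.tens_comp, ltens_comp]
    simp only [R.assoc]
  have e2 : R.tens (R.J (PMap.id (LC.Pr Bool 1)) - R.J piM) (LC.Pr Bool 1) =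
      R.J (PMap.id _) - R.J (piM.tens (LC.Pr Bool 1)) := by
    have h := R.tens_add (R.J (PMap.id (LC.Pr Bool 1)) - R.J piM) (R.J piM) (LC.Pr Bool 1)
    rw [sub_add_cancel, tens_id, R.tens_J] at h
    rw [h, add_sub_cancel_right]
  have e3 : R.ltens (LC.Pr Bool 1) (R.J (PMap.id (LC.Pr Bool 1)) - R.J piM) =
      R.J (PMap.id _) - R.J (PMap.ltens (LC.Pr Bool 1) piM) := by
    have h := PR.ltens_add (LC.Pr Bool 1) (R.J (PMap.id (LC.Pr Bool 1)) - R.J piM) (R.J piM)
    rw [sub_add_cancel, ltens_id, ltens_J] at h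
    rw [h, add_sub_cancel_right]
  have e4 : R.comp (R.J (piM.tens (LC.Pr Bool 1))) (R.J (PMap.ltens (LC.Pr Bool 1) piM)) =
      R.J (piM.box piM) := by
    rw [J_box R piM piM, R.tens_J, ltens_J]
  rw [e1, hr, e2, e3]
  generalize R.J (piM.tens (LC.Pr Bool 1)) = a at *
  generalize R.J (PMap.ltens (LC.Pr Bool 1) piM) = b at *
  rw [← e4]
  have sub_comp : ∀ {K L M : LC} (x x' : R.Hom K L) (y : R.Hom L M),
      R.comp (x - x') y = R.comp x y - R.comp x' y := fun x x' y => by
    rw [eq_sub_iff_add_eq, ← R.add_comp, sub_add_cancel]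
  have comp_sub : ∀ {K L M : LC} (x : R.Hom K L) (y y' : R.Hom L M),
      R.comp x (y - y') = R.comp x y - R.comp x y' := fun x y y' => by
    rw [eq_sub_iff_add_eq, ← R.comp_add, sub_add_cancel]
  rw [sub_comp, comp_sub, comp_sub, R.id_comp, R.comp_id]
  erw [R.id_comp]
  abel

end

/-! ## The ring of classes -/

/-- the ring `T(K, pt)` -/
@[reducible] def ringP (T : GBiv) (K : LC) [CompactSpace K] : CommRing (T.Hom K LC.point) :=
  { (T.grp K LC.point : AddCommGroup _) with
    mul := T.mul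
    one := T.one K
    mul_assoc := T.mul_assoc
    one_mul := fun x => (T.mul_comm _ _).trans (T.mul_one x)
    mul_one := T.mul_one
    left_distrib := T.mul_add
    right_distrib := fun x y z => by
      change T.mul (x + y) z = T.mul x z + T.mul y z
      rw [T.mul_comm, T.mul_add, T.mul_comm z, T.mul_comm z]
    zero_mul := fun x => by
      change T.mul 0 x = 0
      have h := T.mul_add x 0 0
      rw [add_zero] at h
      rw [T.mul_comm]
      exact left_eq_add.1 h
    mul_zero := fun x => by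
      change T.mul x 0 = 0
      have h := T.mul_add x 0 0
      rw [add_zero] at h
      exact left_eq_add.1 h
    mul_comm := T.mul_comm }

/-! ## The classes `b_i` -/

section
variable {R : Biv} (P : PRTheory R) (o : Orient R)

theorem b_eq (S : Type) [Fintype S] {i : ℕ} (h : i < Fintype.card S) :
    P.comp (P.inc (o.b S i)) (tau P.toGBiv S) = P.b o i := by
  obtain ⟨j⟩ : Nonempty (Fin (i + 1) ↪ S) :=
    Function.Embedding.nonempty_of_card_le (by rw [Fintype.card_fin]; omega)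
  have h2 := tau_ext P.toGBiv j
  rw [PRTheory.b, ← o.b_ext j (by rw [Fintype.card_fin]; omega), P.inc_comp, P.inc_J, P.assoc]
  exact congrArg _ h2

theorem inc_sum {K L : LC} (s : Finset ℕ) (f : ℕ → R.Hom K L) :
    P.inc (∑ i ∈ s, f i) = ∑ i ∈ s, P.inc (f i) :=
  map_sum (AddMonoidHom.mk' (fun x : R.Hom K L => P.inc x) P.inc_add) f s

theorem sum_comp (T : Biv) {K L M : LC} (s : Finset ℕ) (f : ℕ → T.Hom K L) (y : T.Hom L M) :
    T.comp (∑ i ∈ s, f i) y = ∑ i ∈ s, T.comp (f i) y :=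
  map_sum (AddMonoidHom.mk' (fun x : T.Hom K L => T.comp x y) fun a b => T.add_comp a b y) f s

theorem comp_sum (T : Biv) {K L M : LC} (s : Finset ℕ) (x : T.Hom K L) (f : ℕ → T.Hom L M) :
    T.comp x (∑ i ∈ s, f i) = ∑ i ∈ s, T.comp x (f i) :=
  map_sum (AddMonoidHom.mk' (fun y : T.Hom L M => T.comp x y) fun a b => T.comp_add x a b) f s

theorem tau_sum (S : Type) [Fintype S] : tau P.toGBiv S =
    ∑ i ∈ Finset.range (Fintype.card S), P.comp (P.inc (o.upow S i)) (P.b o i) := by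
  have h := (o.exists_dual S).choose_spec.2.2.2
  have h2 : ∑ i ∈ Finset.range (Fintype.card S), R.comp (o.upow S i) (o.b S i) =
    R.J (PMap.id _) := h
  have h3 : tau P.toGBiv S = P.comp (P.inc (R.J (PMap.id _))) (tau P.toGBiv S) := by
    rw [P.inc_J, P.id_comp]
  rw [h3, ← h2, inc_sum, sum_comp]
  refine Finset.sum_congr rfl fun i hi => ?_
  rw [P.inc_comp, P.assoc, b_eq P o S (Finset.mem_range.1 hi)]

end

end Pool.Agent.Helper63.Stab.Hur
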