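import Pool.Agent.Helper63.Stab.CalC

/-! Extension of projections along injections of index sets. -/

open Topology Filter Set

noncomputable section

namespace Pool.Agent.Helper63.Stab

open Pool.Agent.Helper1.Stab

/-- the index set as the sum of the image and the complement -/
def gextE {κ l : Type} (j : κ ↪ l) : κ ⊕ {x : l // x ∉ Set.range j} ≃ l := by
  classical
  exact ((Equiv.ofInjective j j.injective).sumCongr (Equiv.refl _)).trans
    (Equiv.Set.sumCompl (Set.range j))

theorem gextE_inl {κ l : Type} (j : κ ↪ l) (a : κ) : gextE j (Sum.inl a) = j a := by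
  classical
  rfl

theorem gextE_inr {κ l : Type} (j : κ ↪ l) (a : {x : l // x ∉ Set.range j}) :
    gextE j (Sum.inr a) = a.1 := by
  classical
  rfl

theorem gextE_symm {κ l : Type} (j : κ ↪ l) (a : κ) : (gextE j).symm (j a) = Sum.inl a := by
  rw [Equiv.symm_apply_eq, gextE_inl]

theorem gextE_symm' {κ l : Type} (j : κ ↪ l) {x : l} (h : x ∉ Set.range j) :
    (gextE j).symm x = Sum.inr ⟨x, h⟩ := by
  rw [Equiv.symm_apply_eq, gextE_inr]

/-- the extension by the base point -/
def gext {κ l : Type} [Fintype κ] [Fintype l] (j : κ ↪ l) (P : GK κ) : GK l := by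
  classical
  exact GK.reindex (gextE j) (GK.sum (P, GK.base {x : l // x ∉ Set.range j}))

theorem continuous_gext {κ l : Type} [Fintype κ] [Fintype l] (j : κ ↪ l) :
    Continuous (gext j) := by
  classical
  exact (GK.reindex (gextE j)).continuous.comp
    (GK.continuous_sum.comp (continuous_id.prodMk continuous_const))

theorem gext_in {κ l : Type} [Fintype κ] [Fintype l] (j : κ ↪ l) (P : GK κ) (a c : κ)
    (b d : Bool) : (gext j P).1 (j a, b) (j c, d) = P.1 (a, b) (c, d) := by
  classical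
  change sumFun P.1 _ ((gextE j).symm (j a), b) ((gextE j).symm (j c), d) = _
  rw [gextE_symm, gextE_symm]
  rfl

theorem gext_out {κ l : Type} [Fintype κ] [Fintype l] (j : κ ↪ l) (P : GK κ) (x y : l × Bool)
    (h : x.1 ∉ Set.range j ∨ y.1 ∉ Set.range j) : (gext j P).1 x y = (GK.base l).1 x y := by
  classical
  obtain ⟨x, b⟩ := x
  obtain ⟨y, c⟩ := y
  change sumFun P.1 _ ((gextE j).symm x, b) ((gextE j).symm y, c) = _
  by_cases hx : x ∈ Set.range j
  · obtain ⟨a, rfl⟩ := hx
    have hy : y ∉ Set.range j := h.resolve_left fun h' => h' ⟨a, rfl⟩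
    rw [gextE_symm, gextE_symm' j hy, Datum.GK.base_ne]
    · rfl
    · intro h'
      rw [Prod.mk.injEq] at h'
      exact hy ⟨a, h'.1⟩
  · rw [gextE_symm' j hx]
    by_cases hy : y ∈ Set.range j
    · obtain ⟨a, rfl⟩ := hy
      rw [gextE_symm, Datum.GK.base_ne]
      · rfl
      · intro h'
        rw [Prod.mk.injEq] at h'
        exact hx ⟨a, h'.1.symm⟩
    · rw [gextE_symm' j hy]
      change (GK.base {x : l // x ∉ Set.range j}).1 ((⟨x, hx⟩ : {x : l // x ∉ Set.range j}), b)
        ((⟨y, hy⟩ : {x : l // x ∉ Set.range j}), c) = _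
      by_cases hxy : (x, b) = (y, c)
      · rw [Prod.mk.injEq] at hxy
        obtain ⟨rfl, rfl⟩ := hxy
        rw [Datum.GK.base_eq, Datum.GK.base_eq]
      · rw [Datum.GK.base_ne hxy, Datum.GK.base_ne]
        intro h'
        apply hxy
        rw [Prod.mk.injEq, Subtype.mk.injEq] at h'
        rw [h'.1, h'.2]

/-- characterisation of the extension -/
theorem eq_gext {κ l : Type} [Fintype κ] [Fintype l] (j : κ ↪ l) (P : GK κ) (Q : GK l)
    (h1 : ∀ a b c d, Q.1 (j a, b) (j c, d) = P.1 (a, b) (c, d))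
    (h2 : ∀ x y : l × Bool, x.1 ∉ Set.range j ∨ y.1 ∉ Set.range j →
      Q.1 x y = (GK.base l).1 x y) : Q = gext j P := by
  refine Datum.GK.ext fun x y => ?_
  by_cases h : x.1 ∉ Set.range j ∨ y.1 ∉ Set.range j
  · rw [h2 x y h, gext_out j P x y h]
  · push Not at h
    obtain ⟨⟨a, ha⟩, ⟨c, hc⟩⟩ := h
    obtain ⟨x, b⟩ := x
    obtain ⟨y, d⟩ := y
    subst ha
    subst hc
    rw [h1, gext_in]

theorem base_inj {κ l : Type} [Fintype κ] [Fintype l] (j : κ ↪ l) (a c : κ) (b d : Bool) :
    (GK.base l).1 (j a, b) (j c, d) = (GK.base κ).1 (a, b) (c, d) := by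
  by_cases h : (a, b) = (c, d)
  · rw [Prod.mk.injEq] at h
    obtain ⟨rfl, rfl⟩ := h
    rw [Datum.GK.base_eq, Datum.GK.base_eq]
  · rw [Datum.GK.base_ne h, Datum.GK.base_ne]
    intro h'
    rw [Prod.mk.injEq] at h'
    exact h (by rw [j.injective h'.1, h'.2])

theorem gext_base {κ l : Type} [Fintype κ] [Fintype l] (j : κ ↪ l) :
    gext j (GK.base κ) = GK.base l :=
  (eq_gext j _ _ (fun a b c d => base_inj j a c b d) fun _ _ _ => rfl).symm

theorem gext_trans {κ l m : Type} [Fintype κ] [Fintype l] [Fintype m] (j : κ ↪ l) (j' : l ↪ m)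
    (P : GK κ) : gext j' (gext j P) = gext (j.trans j') P := by
  refine eq_gext _ _ _ (fun a b c d => ?_) fun x y h => ?_
  · exact (gext_in j' (gext j P) (j a) (j c) b d).trans (gext_in j P a c b d)
  · by_cases h' : x.1 ∉ Set.range j' ∨ y.1 ∉ Set.range j'
    · exact gext_out j' _ x y h'
    · push Not at h'
      obtain ⟨⟨a, ha⟩, ⟨c, hc⟩⟩ := h'
      obtain ⟨x, b⟩ := x
      obtain ⟨y, d⟩ := y
      subst ha
      subst hc
      rw [gext_in, base_inj]
      refine gext_out j P _ _ ?_
      rcases h with h | h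
      · exact Or.inl fun ⟨e, he⟩ => h ⟨e, congrArg j' he⟩
      · exact Or.inr fun ⟨e, he⟩ => h ⟨e, congrArg j' he⟩

theorem gext_equiv {κ l : Type} [Fintype κ] [Fintype l] (e : κ ≃ l) (P : GK κ) :
    gext e.toEmbedding P = GK.reindex e P := by
  refine (eq_gext _ _ _ (fun a b c d => ?_) fun x y h => ?_).symm
  · change P.1 (e.symm (e a), b) (e.symm (e c), d) = _
    rw [e.symm_apply_apply, e.symm_apply_apply]
  · exfalso
    rcases h with h | h
    · exact h ⟨e.symm x.1, e.apply_symm_apply _⟩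
    · exact h ⟨e.symm y.1, e.apply_symm_apply _⟩

theorem gext_refl {κ : Type} [Fintype κ] (P : GK κ) : gext (Function.Embedding.refl κ) P = P := by
  have h := gext_equiv (Equiv.refl κ) P
  exact h

theorem gext_inl {κ l : Type} [Fintype κ] [Fintype l] (P : GK κ) :
    GK.sum (P, GK.base l) = gext Function.Embedding.inl P := by
  refine eq_gext _ _ _ (fun a b c d => rfl) fun x y h => ?_
  obtain ⟨x | x, b⟩ := x
  · obtain ⟨y | y, d⟩ := y
    · exfalso
      rcases h with h | h
      · exact h ⟨x, rfl⟩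
      · exact h ⟨y, rfl⟩
    · rw [Datum.GK.base_ne]
      · rfl
      · intro h'
        rw [Prod.mk.injEq] at h'
        exact Sum.inl_ne_inr h'.1
  · obtain ⟨y | y, d⟩ := y
    · rw [Datum.GK.base_ne]
      · rfl
      · intro h'
        rw [Prod.mk.injEq] at h'
        exact Sum.inr_ne_inl h'.1
    · exact (base_inj (Function.Embedding.inr : l ↪ κ ⊕ l) x y b d).symm

theorem gext_inr {κ l : Type} [Fintype κ] [Fintype l] (P : GK l) :
    GK.sum (GK.base κ, P) = gext Function.Embedding.inr P := by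
  refine eq_gext _ _ _ (fun a b c d => rfl) fun x y h => ?_
  obtain ⟨x | x, b⟩ := x
  · obtain ⟨y | y, d⟩ := y
    · exact (base_inj (Function.Embedding.inl : κ ↪ κ ⊕ l) x y b d).symm
    · rw [Datum.GK.base_ne]
      · rfl
      · intro h'
        rw [Prod.mk.injEq] at h'
        exact Sum.inl_ne_inr h'.1
  · obtain ⟨y | y, d⟩ := y
    · rw [Datum.GK.base_ne]
      · rfl
      · intro h'
        rw [Prod.mk.injEq] at h'
        exact Sum.inr_ne_inl h'.1
    · exfalso
      rcases h with h | h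
      · exact h ⟨x, rfl⟩
      · exact h ⟨y, rfl⟩

theorem gext_sum {κ l κ' l' : Type} [Fintype κ] [Fintype l] [Fintype κ'] [Fintype l'] (j : κ ↪ κ')
    (j' : l ↪ l') (P : GK κ) (Q : GK l) :
    GK.sum (gext j P, gext j' Q) = gext (Function.Embedding.sumMap j j') (GK.sum (P, Q)) := by
  refine eq_gext _ _ _ (fun a b c d => ?_) fun x y h => ?_
  · rcases a with a | a <;> rcases c with c | c
    · exact gext_in j P a c b d
    · rfl
    · rfl
    · exact gext_in j' Q a c b d
  · obtain ⟨x | x, b⟩ := x <;> obtain ⟨y | y, d⟩ := y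
    · refine (gext_out j P (x, b) (y, d) ?_).trans
        (base_inj (Function.Embedding.inl : κ' ↪ κ' ⊕ l') x y b d).symm
      rcases h with h | h
      · exact Or.inl fun ⟨e, he⟩ => h ⟨Sum.inl e, congrArg Sum.inl he⟩
      · exact Or.inr fun ⟨e, he⟩ => h ⟨Sum.inl e, congrArg Sum.inl he⟩
    · rw [Datum.GK.base_ne]
      · rfl
      · intro h'
        rw [Prod.mk.injEq] at h'
        exact Sum.inl_ne_inr h'.1
    · rw [Datum.GK.base_ne]
      · rfl
      · intro h'
        rw [Prod.mk.injEq] at h'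
        exact Sum.inr_ne_inl h'.1
    · refine (gext_out j' Q (x, b) (y, d) ?_).trans
        (base_inj (Function.Embedding.inr : l' ↪ κ' ⊕ l') x y b d).symm
      rcases h with h | h
      · exact Or.inl fun ⟨e, he⟩ => h ⟨Sum.inr e, congrArg Sum.inr he⟩
      · exact Or.inr fun ⟨e, he⟩ => h ⟨Sum.inr e, congrArg Sum.inr he⟩

theorem gsum_assoc {κ l m : Type} [Fintype κ] [Fintype l] [Fintype m] (P : GK κ) (Q : GK l)
    (S : GK m) : gext (Equiv.sumAssoc κ l m).toEmbedding (GK.sum (GK.sum (P, Q), S)) =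
      GK.sum (P, GK.sum (Q, S)) := by
  rw [gext_equiv]
  refine Datum.GK.ext fun x y => ?_
  obtain ⟨x | x | x, b⟩ := x <;> obtain ⟨y | y | y, d⟩ := y <;> rfl

theorem gsum_comm {κ l : Type} [Fintype κ] [Fintype l] (P : GK κ) (Q : GK l) :
    gext (Equiv.sumComm κ l).toEmbedding (GK.sum (P, Q)) = GK.sum (Q, P) := by
  rw [gext_equiv]
  refine Datum.GK.ext fun x y => ?_
  obtain ⟨x | x, b⟩ := x <;> obtain ⟨y | y, d⟩ := y <;> rfl

/-- two embeddings differ by a permutation -/
theorem exists_perm_embedding {κ l : Type} [Fintype κ] [Fintype l] (j j' : κ ↪ l) :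
    ∃ e : Equiv.Perm l, j.trans e.toEmbedding = j' := by
  classical
  have hc : ∀ i : κ ↪ l, Fintype.card {x : l // x ∉ Set.range i} =
      Fintype.card l - Fintype.card κ := by
    intro i
    have h1 := Fintype.card_congr (gextE i)
    rw [Fintype.card_sum] at h1
    omega
  have w : {x : l // x ∉ Set.range j} ≃ {x : l // x ∉ Set.range j'} :=
    Fintype.equivOfCardEq ((hc j).trans (hc j').symm)
  refine ⟨(gextE j).symm.trans (((Equiv.refl κ).sumCongr w).trans (gextE j')), ?_⟩
  ext a
  change gextE j' (((Equiv.refl κ).sumCongr w) ((gextE j).symm (j a))) = j' a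
  rw [gextE_symm]
  exact gextE_inl j' a

/-- the extension as a map of locally compact spaces -/
def gx {κ l : Type} [Fintype κ] [Fintype l] (j : κ ↪ l) : PMap (LC.G κ) (LC.G l).plus :=
  PMap.ofProper (K := LC.G κ) (L := LC.G l) (gext j) (continuous_gext j)
    (by rw [cocompact_eq_bot]; exact tendsto_bot)

theorem gx_trans {κ l m : Type} [Fintype κ] [Fintype l] [Fintype m] (j : κ ↪ l) (j' : l ↪ m) :
    (gx j').comp (gx j) = gx (j.trans j') := by
  ext P
  exact congrArg (fun Q : GK m => (Q : OnePoint (GK m))) (gext_trans j j' P)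

theorem gx_equiv {κ l : Type} [Fintype κ] [Fintype l] (e : κ ≃ l) :
    gx e.toEmbedding = PMap.ofHomeo (K := LC.G κ) (L := LC.G l) (GK.reindex e) := by
  ext P
  exact congrArg (fun Q : GK l => (Q : OnePoint (GK l))) (gext_equiv e P)

theorem gx_refl {κ : Type} [Fintype κ] : gx (Function.Embedding.refl κ) = PMap.id (LC.G κ) := by
  ext P
  exact congrArg (fun Q : GK κ => (Q : OnePoint (GK κ))) (gext_refl P)

/-- the class of an extension does not depend on the embedding -/
theorem J_gx (R : Biv) {κ l : Type} [Fintype κ] [Fintype l] (j j' : κ ↪ l) :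
    R.J (gx j) = R.J (gx j') := by
  obtain ⟨e, rfl⟩ := exists_perm_embedding j j'
  rw [← gx_trans, R.J_comp, gx_equiv]
  have h : R.J (PMap.ofHomeo (K := LC.G l) (L := LC.G l) (GK.reindex e)) = R.J (PMap.id _) :=
    R.J_homotopic (rotG e)
  rw [h, R.comp_id]

end Pool.Agent.Helper63.Stab
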