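import Pool.Agent.Helper63.Stab.PrA

/-! The colimit of the groups `R(K, G(κ) × Z)`. -/

open Topology Filter Set

noncomputable section

namespace Pool.Agent.Helper63.Stab

open Pool.Agent.Helper1.Stab

namespace PR

variable (R : Biv)

/-! ## Structure maps -/

/-- representatives at stage `κ` -/
abbrev Rp (κ : Type) [Fintype κ] (K Z : LC) : Type := R.Hom K ((LC.G κ).prod Z)

/-- `G κ × (G l × Z) → G (κ ⊔ l) × Z` -/
def mu (κ l : Type) [Fintype κ] [Fintype l] (Z : LC) :
    PMap ((LC.G κ).prod ((LC.G l).prod Z)) ((LC.G (κ ⊕ l)).prod Z).plus :=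
  ((GK.sumMap κ l).tens Z).comp (PMap.ofHomeo (Homeomorph.prodAssoc (LC.G κ) (LC.G l) Z :
    ((LC.G κ).prod (LC.G l)).prod Z ≃ₜ (LC.G κ).prod ((LC.G l).prod Z)).symm)

/-- `Z → G κ × Z` -/
def eta (κ : Type) [Fintype κ] (Z : LC) : PMap Z ((LC.G κ).prod Z).plus :=
  ((PMap.ofPoint (K := LC.G κ) (GK.base κ)).tens Z).comp (PMap.ofHomeo
    ((Homeomorph.prodPUnit Z : Z.prod LC.point ≃ₜ Z).symm.trans (LC.swap Z LC.point)))

variable {R}
variable {κ l m κ' l' : Type} [Fintype κ] [Fintype l] [Fintype m] [Fintype κ'] [Fintype l']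
variable {K L M N Z W : LC}

/-- the extension of a representative -/
def ex (x : Rp R κ K Z) (j : κ ↪ l) : Rp R l K Z := R.comp x (R.tens (R.J (gx j)) Z)

theorem ex_ex (x : Rp R κ K Z) (j : κ ↪ l) (j' : l ↪ m) : ex (ex x j) j' = ex x (j.trans j') := by
  rw [ex, ex, ex, R.assoc, ← R.tens_comp, ← R.J_comp, gx_trans]

theorem ex_congr (x : Rp R κ K Z) (j j' : κ ↪ l) : ex x j = ex x j' := by
  rw [ex, ex, J_gx R j j']

theorem ex_refl (x : Rp R κ K Z) : ex x (Function.Embedding.refl κ) = x := by
  rw [ex, gx_refl, tens_id, R.comp_id]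

theorem ex_add (x y : Rp R κ K Z) (j : κ ↪ l) : ex (x + y) j = ex x j + ex y j := R.add_comp _ _ _

theorem zero_comp (y : R.Hom L M) : R.comp (0 : R.Hom K L) y = 0 := by
  have h := R.add_comp (0 : R.Hom K L) 0 y
  rw [add_zero] at h
  exact left_eq_add.1 h

theorem comp_zero (x : R.Hom K L) : R.comp x (0 : R.Hom L M) = 0 := by
  have h := R.comp_add x (0 : R.Hom L M) 0
  rw [add_zero] at h
  exact left_eq_add.1 h

/-- composition of representatives -/
def cmp (x : Rp R κ K L) (y : Rp R l L Z) : Rp R (κ ⊕ l) K Z :=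
  R.comp x (R.comp (R.ltens (LC.G κ) y) (R.J (mu κ l Z)))

theorem cmp_add_left (x x' : Rp R κ K L) (y : Rp R l L Z) :
    cmp (x + x') y = cmp x y + cmp x' y := R.add_comp _ _ _

theorem ltens_add (X : LC) (x y : R.Hom K L) : R.ltens X (x + y) = R.ltens X x + R.ltens X y := by
  rw [ltens_def, ltens_def, ltens_def, R.tens_add, R.add_comp, R.comp_add]

theorem cmp_add_right (x : Rp R κ K L) (y y' : Rp R l L Z) :
    cmp x (y + y') = cmp x y + cmp x y' := by
  rw [cmp, cmp, cmp, ltens_add, R.add_comp, R.comp_add]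

theorem mu_ex (j : κ ↪ κ') (j' : l ↪ l') (Z : LC) :
    (mu κ' l' Z).comp ((gx j).box ((gx j').tens Z)) =
      ((gx (Function.Embedding.sumMap j j')).tens Z).comp (mu κ l Z) := by
  ext ⟨P, Q, z⟩
  exact congrArg (fun S : GK (κ' ⊕ l') => (((S, z) : GK (κ' ⊕ l') × Z) :
    OnePoint (GK (κ' ⊕ l') × Z))) (gext_sum j j' P Q)

theorem cmp_ex_left (x : Rp R κ K L) (y : Rp R l L Z) (j : κ ↪ κ') :
    cmp (ex x j) y = ex (cmp x y) (Function.Embedding.sumMap j (Function.Embedding.refl l)) := by
  have h1 := congrArg R.J (mu_ex j (Function.Embedding.refl l) Z)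
  rw [R.J_comp, R.J_comp, J_box', gx_refl, PMap.tens, PMap.box_id, ltens_J, PMap.ltens, PMap.box_id,
    R.id_comp, ← R.tens_J] at h1
  rw [cmp, cmp, ex, ex, R.assoc, R.assoc, ← R.assoc (R.tens _ _), R.exch, R.assoc, h1]
  simp only [R.assoc]

theorem cmp_ex_right (x : Rp R κ K L) (y : Rp R l L Z) (j : l ↪ l') :
    cmp x (ex y j) = ex (cmp x y) (Function.Embedding.sumMap (Function.Embedding.refl κ) j) := by
  have h1 := congrArg R.J (mu_ex (Function.Embedding.refl κ) j Z)
  rw [R.J_comp, R.J_comp, J_box', gx_refl, ← R.tens_J, R.tens_J (PMap.id _), PMap.tens, PMap.box_id,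
    R.comp_id, ← R.tens_J] at h1
  rw [cmp, cmp, ex, ex, ltens_comp, R.assoc, R.assoc, h1]
  simp only [R.assoc]

/-! ## The colimit -/

variable (R) in
/-- transition maps -/
def tr (K Z : LC) (i j : ℕ) (h : i ≤ j) : Rp R (Fin i) K Z →+ Rp R (Fin j) K Z where
  toFun x := ex x (Fin.castLEEmb h)
  map_zero' := zero_comp _
  map_add' x y := ex_add x y _

instance (K Z : LC) : DirectedSystem (fun n => Rp R (Fin n) K Z) (fun i j h => tr R K Z i j h) where
  map_self i x := by
    have h : ex x (Fin.castLEEmb le_rfl) = ex x (Function.Embedding.refl _) := ex_congr _ _ _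
    exact h.trans (ex_refl x)
  map_map i j k h h' x := by
    refine (ex_ex _ _ _).trans ?_
    exact ex_congr _ _ _

variable (R) in
/-- the colimit -/
def P (K Z : LC) : Type := AddCommGroup.DirectLimit (fun n => Rp R (Fin n) K Z) (tr R K Z)

instance (K Z : LC) : AddCommGroup (P R K Z) :=
  inferInstanceAs (AddCommGroup (AddCommGroup.DirectLimit (fun n => Rp R (Fin n) K Z) (tr R K Z)))

/-- the class of a representative at a natural number -/
def of (n : ℕ) (K Z : LC) : Rp R (Fin n) K Z →+ P R K Z :=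
  AddCommGroup.DirectLimit.of (fun n => Rp R (Fin n) K Z) (tr R K Z) n

theorem of_tr {i j : ℕ} (h : i ≤ j) (x : Rp R (Fin i) K Z) :
    of j K Z (ex x (Fin.castLEEmb h)) = of i K Z x :=
  AddCommGroup.DirectLimit.of_f (f := tr R K Z) h x

theorem of_ex {i j : ℕ} (x : Rp R (Fin i) K Z) (e : Fin i ↪ Fin j) :
    of j K Z (ex x e) = of i K Z x := by
  have h : i ≤ j := by
    have := Fintype.card_le_of_embedding e
    simpa using this
  rw [← of_tr h x]
  exact congrArg _ (ex_congr _ _ _)

/-- the class of a representative -/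
def cls (x : Rp R κ K Z) : P R K Z :=
  of (Fintype.card κ) K Z (ex x (Fintype.equivFin κ).toEmbedding)

theorem cls_add (x y : Rp R κ K Z) : cls (x + y) = cls x + cls y := by
  rw [cls, ex_add, map_add]
  rfl

theorem cls_zero : cls (0 : Rp R κ K Z) = 0 := by
  have h : ex (0 : Rp R κ K Z) (Fintype.equivFin κ).toEmbedding = 0 := zero_comp _
  rw [cls, h, map_zero]

theorem cls_ex (x : Rp R κ K Z) (j : κ ↪ l) : cls (ex x j) = cls x := by
  have hle : Fintype.card κ ≤ Fintype.card l := Fintype.card_le_of_embedding j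
  rw [cls, cls, ← of_tr hle, ex_ex, ex_ex]
  exact congrArg _ (ex_congr _ _ _)

theorem cls_fin {n : ℕ} (x : Rp R (Fin n) K Z) : cls x = of n K Z x := of_ex _ _

theorem exists_cls (x : P R K Z) : ∃ (n : ℕ) (y : Rp R (Fin n) K Z), x = cls y := by
  refine AddCommGroup.DirectLimit.induction_on (f := tr R K Z) x fun i y => ?_
  exact ⟨i, y, (cls_fin y).symm⟩

theorem exists_cls_ge (x : P R K Z) (N : ℕ) : ∃ n ≥ N, ∃ y : Rp R (Fin n) K Z, x = cls y := by
  obtain ⟨n, y, rfl⟩ := exists_cls x
  exact ⟨n + N, Nat.le_add_left _ _, ex y (Fin.castLEEmb (Nat.le_add_right _ _)), (cls_ex _ _).symm⟩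

/-- two elements have representatives at a common stage -/
theorem exists_common (x : P R K Z) (y : P R L W) :
    ∃ (n : ℕ) (x' : Rp R (Fin n) K Z) (y' : Rp R (Fin n) L W), x = cls x' ∧ y = cls y' := by
  obtain ⟨n, x', rfl⟩ := exists_cls x
  obtain ⟨m, y', rfl⟩ := exists_cls y
  exact ⟨n + m, ex x' (Fin.castLEEmb (Nat.le_add_right _ _)),
    ex y' (Fin.castLEEmb (Nat.le_add_left _ _)), (cls_ex _ _).symm, (cls_ex _ _).symm⟩

theorem cls_eq_zero {x : Rp R κ K Z} (h : cls x = 0) : ∃ n, ∀ m ≥ n,
    ex x (Function.Embedding.inl : κ ↪ κ ⊕ Fin m) = 0 := by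
  obtain ⟨N, hN, h1⟩ := AddCommGroup.DirectLimit.of.zero_exact (f := tr R K Z) _ _ h
  refine ⟨N, fun m hm => ?_⟩
  have h2 : ex (ex x (Fintype.equivFin κ).toEmbedding) (Fin.castLEEmb hN) = 0 := h1
  have h3 : ex x (Function.Embedding.inl : κ ↪ κ ⊕ Fin m) =
      ex (ex (ex x (Fintype.equivFin κ).toEmbedding) (Fin.castLEEmb hN))
        ((Fin.castLEEmb hm).trans Function.Embedding.inr) := by
    rw [ex_ex, ex_ex]
    exact ex_congr _ _ _
  rw [h3, h2]
  exact zero_comp _

/-- induction over representatives -/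
theorem ind {p : P R K Z → Prop} (h : ∀ (n : ℕ) (x : Rp R (Fin n) K Z), p (cls x)) (x : P R K Z) :
    p x := by
  obtain ⟨n, y, rfl⟩ := exists_cls x
  exact h n y

/-- homomorphisms out of the colimit -/
def lift {A : Type} [AddCommGroup A] (g : ∀ n, Rp R (Fin n) K Z →+ A)
    (hg : ∀ (i j : ℕ) (h : i ≤ j) (x : Rp R (Fin i) K Z), g j (ex x (Fin.castLEEmb h)) = g i x) :
    P R K Z →+ A :=
  AddCommGroup.DirectLimit.lift (fun n => Rp R (Fin n) K Z) (tr R K Z) A g hg

theorem lift_cls {A : Type} [AddCommGroup A] (g : ∀ n, Rp R (Fin n) K Z →+ A)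
    (hg : ∀ (i j : ℕ) (h : i ≤ j) (x : Rp R (Fin i) K Z), g j (ex x (Fin.castLEEmb h)) = g i x)
    {n : ℕ} (x : Rp R (Fin n) K Z) : lift g hg (cls x) = g n x := by
  rw [cls_fin]
  exact AddCommGroup.DirectLimit.lift_of (G := fun n => Rp R (Fin n) K Z) (f := tr R K Z) A g hg n x

/-! ## Operations -/

/-- the composition as a homomorphism -/
def compHom (K L Z : LC) : P R K L →+ P R L Z →+ P R K Z :=
  lift (fun n =>
    { toFun := fun x => lift (fun m =>
        { toFun := fun y => cls (cmp x y)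
          map_zero' := by
            have h : cmp x (0 : Rp R (Fin m) L Z) = 0 := by
              have := cmp_add_right x (0 : Rp R (Fin m) L Z) 0
              rw [add_zero] at this
              exact left_eq_add.1 this
            rw [h, cls_zero]
          map_add' := fun y y' => by rw [cmp_add_right, cls_add] })
        (fun i j h y => by
          change cls (cmp x (ex y _)) = cls (cmp x y)
          rw [cmp_ex_right, cls_ex])
      map_zero' := by
        ext z
        induction z using ind with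
        | h m y =>
          rw [lift_cls]
          change cls (cmp 0 y) = 0
          have h : cmp (0 : Rp R (Fin n) K L) y = 0 := zero_comp _
          rw [h, cls_zero]
      map_add' := fun x x' => by
        ext z
        induction z using ind with
        | h m y =>
          rw [AddMonoidHom.add_apply, lift_cls, lift_cls, lift_cls]
          change cls (cmp (x + x') y) = cls (cmp x y) + cls (cmp x' y)
          rw [cmp_add_left, cls_add] })
    (fun i j h x => by
      ext z
      induction z using ind with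
      | h m y =>
        change lift _ _ (cls y) = lift _ _ (cls y)
        rw [lift_cls, lift_cls]
        change cls (cmp (ex x _) y) = cls (cmp x y)
        rw [cmp_ex_left, cls_ex])

/-- composition -/
def comp (x : P R K L) (y : P R L Z) : P R K Z := compHom K L Z x y

theorem comp_fin {n m : ℕ} (x : Rp R (Fin n) K L) (y : Rp R (Fin m) L Z) :
    comp (cls x) (cls y) = cls (cmp x y) := by
  rw [comp, compHom, lift_cls]
  change lift _ _ (cls y) = _
  rw [lift_cls]
  rfl

theorem comp_cls (x : Rp R κ K L) (y : Rp R l L Z) : comp (cls x) (cls y) = cls (cmp x y) := by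
  rw [← cls_ex x (Fintype.equivFin κ).toEmbedding, ← cls_ex y (Fintype.equivFin l).toEmbedding,
    comp_fin, cmp_ex_left, cmp_ex_right, cls_ex, cls_ex]

theorem add_comp (x x' : P R K L) (y : P R L Z) : comp (x + x') y = comp x y + comp x' y := by
  rw [comp, map_add]
  rfl

theorem comp_add (x : P R K L) (y y' : P R L Z) : comp x (y + y') = comp x y + comp x y' := by
  rw [comp, map_add]
  rfl

/-- the product of a representative with `W` -/
def tn (x : Rp R κ K L) (W : LC) : Rp R κ (K.prod W) (L.prod W) :=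
  R.comp (R.tens x W) (jh R (Homeomorph.prodAssoc (LC.G κ) L W :
    ((LC.G κ).prod L).prod W ≃ₜ (LC.G κ).prod (L.prod W)))

theorem tn_add (x y : Rp R κ K L) (W : LC) : tn (x + y) W = tn x W + tn y W := by
  rw [tn, R.tens_add, R.add_comp]
  rfl

theorem tn_ex (x : Rp R κ K L) (j : κ ↪ l) (W : LC) : tn (ex x j) W = ex (tn x W) j := by
  have h : R.comp (R.tens (R.tens (R.J (gx j)) L) W) (jh R (Homeomorph.prodAssoc (LC.G l) L W :
      ((LC.G l).prod L).prod W ≃ₜ (LC.G l).prod (L.prod W))) = R.comp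
      (jh R (Homeomorph.prodAssoc (LC.G κ) L W :
      ((LC.G κ).prod L).prod W ≃ₜ (LC.G κ).prod (L.prod W))) (R.tens (R.J (gx j)) (L.prod W)) :=
    R.tens_tens _ _ _
  rw [tn, ex, R.tens_comp, R.assoc, h, tn, ex, R.assoc]

/-- product with `W` as a homomorphism -/
def tensHom (K L W : LC) : P R K L →+ P R (K.prod W) (L.prod W) :=
  lift (fun n =>
    { toFun := fun x => cls (tn x W)
      map_zero' := by
        have h : tn (0 : Rp R (Fin n) K L) W = 0 := by
          have := tn_add (0 : Rp R (Fin n) K L) 0 W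
          rw [add_zero] at this
          exact left_eq_add.1 this
        rw [h, cls_zero]
      map_add' := fun x y => by rw [tn_add, cls_add] })
    (fun i j h x => by
      change cls (tn (ex x _) W) = cls (tn x W)
      rw [tn_ex, cls_ex])

/-- product with `W` -/
def tens (x : P R K L) (W : LC) : P R (K.prod W) (L.prod W) := tensHom K L W x

theorem tens_cls (x : Rp R κ K L) (W : LC) : tens (cls x) W = cls (tn x W) := by
  have h : ∀ (n : ℕ) (x : Rp R (Fin n) K L), tens (cls x) W = cls (tn x W) := by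
    intro n x
    rw [tens, tensHom, lift_cls]
    rfl
  rw [← cls_ex x (Fintype.equivFin κ).toEmbedding, h, tn_ex, cls_ex]

theorem tens_add (x y : P R K L) (W : LC) : tens (x + y) W = tens x W + tens y W :=
  map_add _ _ _

/-- the morphism from `R` -/
def inc (x : R.Hom K L) : P R K L := cls (κ := PEmpty) (R.comp x (R.J (eta PEmpty L)))

theorem eta_ex (j : κ ↪ l) (Z : LC) : ((gx j).tens Z).comp (eta κ Z) = eta l Z := by
  ext z
  exact congrArg (fun S : GK l => (((S, z) : GK l × Z) : OnePoint (GK l × Z))) (gext_base j)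

theorem inc_eq (κ : Type) [Fintype κ] (x : R.Hom K L) :
    inc x = cls (κ := κ) (R.comp x (R.J (eta κ L))) := by
  have h := eta_ex (Function.Embedding.ofIsEmpty : PEmpty ↪ κ) L
  rw [inc, ← cls_ex _ (Function.Embedding.ofIsEmpty : PEmpty ↪ κ), ex, R.assoc, R.tens_J,
    ← R.J_comp, h]

end PR

end Pool.Agent.Helper63.Stab
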