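import Pool.Agent.Helper63.Stab.PrB

/-! The colimit of the groups `R(K, G(κ) × Z)` is a bivariant theory. -/

open Topology Filter Set

noncomputable section

namespace Pool.Agent.Helper63.Stab

open Pool.Agent.Helper1.Stab

namespace PR

variable {R : Biv}
variable {κ l m κ' l' : Type} [Fintype κ] [Fintype l] [Fintype m] [Fintype κ'] [Fintype l']
variable {K L M N Z W : LC}

/-! ## Naturality -/

theorem eta_nat (κ : Type) [Fintype κ] (z : R.Hom Z W) :
    R.comp (R.J (eta κ Z)) (R.ltens (LC.G κ) z) = R.comp z (R.J (eta κ W)) := by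
  have h1 : R.comp (jh R ((Homeomorph.prodPUnit Z : Z.prod LC.point ≃ₜ Z).symm.trans
      (LC.swap Z LC.point))) (R.ltens LC.point z) = R.comp z
      (jh R ((Homeomorph.prodPUnit W : W.prod LC.point ≃ₜ W).symm.trans
      (LC.swap W LC.point))) := by
    conv_rhs => rw [eq_pl z]
    rw [ltens_eq_pl]
    exact pl_comm z (Homeomorph.refl _) _ _ _ _ _ _ (fun _ => rfl) (fun _ => rfl)
  rw [eta, eta, R.J_comp, R.J_comp, ← R.tens_J, ← R.tens_J, R.assoc, R.exch, ← R.assoc, jh_def, h1,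
    R.assoc]
  rfl

theorem mu_nat (κ l : Type) [Fintype κ] [Fintype l] (z : R.Hom Z W) :
    R.comp (R.J (mu κ l Z)) (R.ltens (LC.G (κ ⊕ l)) z) =
      R.comp (R.ltens (LC.G κ) (R.ltens (LC.G l) z)) (R.J (mu κ l W)) := by
  have h1 : R.comp (jh R (Homeomorph.prodAssoc (LC.G κ) (LC.G l) Z :
      ((LC.G κ).prod (LC.G l)).prod Z ≃ₜ (LC.G κ).prod ((LC.G l).prod Z)).symm)
      (R.ltens ((LC.G κ).prod (LC.G l)) z) = R.comp (R.ltens (LC.G κ) (R.ltens (LC.G l) z))
      (jh R (Homeomorph.prodAssoc (LC.G κ) (LC.G l) W :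
      ((LC.G κ).prod (LC.G l)).prod W ≃ₜ (LC.G κ).prod ((LC.G l).prod W)).symm) := by
    rw [ltens_eq_pl z, ltens_eq_pl z, ltens_pl]
    exact pl_comm z (Homeomorph.refl _) _ _ _ _ _ _ (fun _ => rfl) (fun _ => rfl)
  rw [mu, mu, R.J_comp, R.J_comp, ← R.tens_J, ← R.tens_J, R.assoc, R.exch, ← R.assoc, jh_def, h1,
    R.assoc]
  rfl

theorem eta_mu (κ l : Type) [Fintype κ] [Fintype l] (Z : LC) :
    (mu κ l Z).comp (eta κ ((LC.G l).prod Z)) =
      (gx (Function.Embedding.inr : l ↪ κ ⊕ l)).tens Z := by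
  ext ⟨P, z⟩
  exact congrArg (fun S : GK (κ ⊕ l) => (((S, z) : GK (κ ⊕ l) × Z) :
    OnePoint (GK (κ ⊕ l) × Z))) (gext_inr P)

theorem mu_eta (κ l : Type) [Fintype κ] [Fintype l] (Z : LC) :
    (mu κ l Z).comp (PMap.ltens (LC.G κ) (eta l Z)) =
      (gx (Function.Embedding.inl : κ ↪ κ ⊕ l)).tens Z := by
  ext ⟨P, z⟩
  exact congrArg (fun S : GK (κ ⊕ l) => (((S, z) : GK (κ ⊕ l) × Z) :
    OnePoint (GK (κ ⊕ l) × Z))) (gext_inl P)

theorem mu_mu (κ l m : Type) [Fintype κ] [Fintype l] [Fintype m] (Z : LC) :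
    ((gx (Equiv.sumAssoc κ l m).toEmbedding).tens Z).comp ((mu (κ ⊕ l) m Z).comp
      (mu κ l ((LC.G m).prod Z))) =
      (mu κ (l ⊕ m) Z).comp (PMap.ltens (LC.G κ) (mu l m Z)) := by
  ext ⟨P, Q, S, z⟩
  exact congrArg (fun S : GK (κ ⊕ l ⊕ m) => (((S, z) : GK (κ ⊕ l ⊕ m) × Z) :
    OnePoint (GK (κ ⊕ l ⊕ m) × Z))) (gsum_assoc P Q S)

/-! ## Composition with classes of `R` -/

theorem inc_comp_cls (x : R.Hom K L) (y : Rp R κ L Z) :
    comp (inc x) (cls y) = cls (R.comp x y) := by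
  have h := congrArg R.J (eta_mu PEmpty κ Z)
  rw [R.J_comp, ← R.tens_J] at h
  have h2 : cmp (R.comp x (R.J (eta PEmpty L))) y = ex (R.comp x y) Function.Embedding.inr := by
    rw [cmp, ex, R.assoc, R.assoc, ← R.assoc (R.J (eta PEmpty L)), eta_nat, R.assoc, h]
  rw [inc, comp_cls, h2, cls_ex]

theorem cls_comp_inc (x : Rp R κ K L) (z : R.Hom L Z) :
    comp (cls x) (inc z) = cls (R.comp x (R.ltens (LC.G κ) z)) := by
  have h := congrArg R.J (mu_eta κ PEmpty Z)
  rw [R.J_comp, ← R.tens_J, ← ltens_J] at h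
  have h2 : cmp x (R.comp z (R.J (eta PEmpty Z))) =
      ex (R.comp x (R.ltens (LC.G κ) z)) Function.Embedding.inl := by
    rw [cmp, ex, ltens_comp, R.assoc, R.assoc, h]
  rw [inc, comp_cls, h2, cls_ex]

theorem comp_assoc (x : P R K L) (y : P R L M) (z : P R M N) :
    comp (comp x y) z = comp x (comp y z) := by
  induction x using ind with | h n x => ?_
  induction y using ind with | h n' y => ?_
  induction z using ind with | h n'' z => ?_
  rw [comp_cls, comp_cls, comp_cls, comp_cls,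
    ← cls_ex (cmp (cmp x y) z) (Equiv.sumAssoc _ _ _).toEmbedding]
  congr 1
  have h := congrArg R.J (mu_mu (Fin n) (Fin n') (Fin n'') N)
  rw [R.J_comp, R.J_comp, R.J_comp, ← R.tens_J, ← ltens_J] at h
  rw [ex, cmp, cmp, cmp, cmp, ltens_comp, ltens_comp]
  simp only [R.assoc] at h ⊢
  rw [← R.assoc (R.J (mu _ _ _)) (R.ltens _ z), mu_nat, R.assoc, h]

theorem inc_comp (x : R.Hom K L) (y : R.Hom L M) : inc (R.comp x y) = comp (inc x) (inc y) := by
  rw [inc_eq PEmpty y, inc_comp_cls, ← R.assoc]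
  rfl

theorem inc_add (x y : R.Hom K L) : inc (x + y) = inc x + inc y := by
  rw [inc, R.add_comp, cls_add]
  rfl

theorem id_comp (x : P R K L) : comp (inc (R.J (PMap.id K))) x = x := by
  induction x using ind with | h n x => ?_
  rw [inc_comp_cls, R.id_comp]

theorem comp_id (x : P R K L) : comp x (inc (R.J (PMap.id L))) = x := by
  induction x using ind with | h n x => ?_
  rw [cls_comp_inc, ltens_id, R.comp_id]

theorem inc_tens (x : R.Hom K L) (W : LC) : inc (R.tens x W) = tens (inc x) W := by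
  have h : (PMap.ofHomeo (Homeomorph.prodAssoc (LC.G PEmpty) L W :
      ((LC.G PEmpty).prod L).prod W ≃ₜ (LC.G PEmpty).prod (L.prod W))).comp
      ((eta PEmpty L).tens W) = eta PEmpty (L.prod W) := by
    ext ⟨k, w⟩
    rfl
  have h2 := congrArg R.J h
  rw [R.J_comp, ← R.tens_J] at h2
  rw [inc, inc, tens_cls, tn, R.tens_comp, R.assoc, ← h2]
  rfl

theorem tn_cmp (x : Rp R κ K L) (y : Rp R l L Z) (W : LC) :
    tn (cmp x y) W = cmp (tn x W) (tn y W) := by
  have h1 : R.comp (jh R (Homeomorph.prodAssoc (LC.G κ) L W :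
      ((LC.G κ).prod L).prod W ≃ₜ (LC.G κ).prod (L.prod W))) (R.ltens (LC.G κ) (R.tens y W)) =
      R.comp (R.tens (R.ltens (LC.G κ) y) W) (jh R (Homeomorph.prodAssoc (LC.G κ)
        ((LC.G l).prod Z) W : ((LC.G κ).prod ((LC.G l).prod Z)).prod W ≃ₜ
        (LC.G κ).prod (((LC.G l).prod Z).prod W))) := by
    rw [tens_eq_pl y, ltens_pl, ltens_eq_pl y, tens_pl]
    exact pl_comm y (Homeomorph.refl _) _ _ _ _ _ _ (fun _ => rfl) (fun _ => rfl)
  have h2 : (PMap.ofHomeo (Homeomorph.prodAssoc (LC.G (κ ⊕ l)) Z W :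
      ((LC.G (κ ⊕ l)).prod Z).prod W ≃ₜ (LC.G (κ ⊕ l)).prod (Z.prod W))).comp
      ((mu κ l Z).tens W) = (mu κ l (Z.prod W)).comp ((PMap.ltens (LC.G κ)
      (PMap.ofHomeo (K := ((LC.G l).prod Z).prod W) (L := (LC.G l).prod (Z.prod W))
        (Homeomorph.prodAssoc (LC.G l) Z W))).comp
      (PMap.ofHomeo (K := ((LC.G κ).prod ((LC.G l).prod Z)).prod W)
        (L := (LC.G κ).prod (((LC.G l).prod Z).prod W)) (Homeomorph.prodAssoc (LC.G κ)
        ((LC.G l).prod Z) W))) := by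
    ext ⟨⟨P, Q, z⟩, w⟩
    rfl
  have h3 := congrArg R.J h2
  rw [R.J_comp, R.J_comp, R.J_comp, ← R.tens_J, ← ltens_J] at h3
  rw [tn, cmp, cmp, tn, tn, R.tens_comp, R.tens_comp, ltens_comp]
  simp only [R.assoc] at h3 ⊢
  rw [← R.assoc (jh R _) (R.ltens (LC.G κ) (R.tens y W)), h1, R.assoc]
  congr 2

theorem tens_comp (x : P R K L) (y : P R L M) (W : LC) :
    tens (comp x y) W = comp (tens x W) (tens y W) := by
  induction x using ind with | h n x => ?_
  induction y using ind with | h n' y => ?_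
  rw [comp_cls, tens_cls, tens_cls, tens_cls, comp_cls, tn_cmp]

theorem tens_tens (x : P R K L) (Z W : LC) :
    comp (tens (tens x Z) W) (inc (R.J (PMap.ofHomeo (Homeomorph.prodAssoc L Z W :
      (L.prod Z).prod W ≃ₜ L.prod (Z.prod W))))) =
    comp (inc (R.J (PMap.ofHomeo (Homeomorph.prodAssoc K Z W :
      (K.prod Z).prod W ≃ₜ K.prod (Z.prod W))))) (tens x (Z.prod W)) := by
  induction x using ind with | h n x => ?_
  rw [tens_cls, tens_cls, tens_cls, cls_comp_inc, inc_comp_cls]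
  congr 1
  have h1 := R.tens_tens x Z W
  rw [tn, tn, tn, R.tens_comp, jh_def, jh_def, tens_jh, ltens_jh, ← R.assoc (jh R _)]
  rw [jh_def, jh_def] at h1
  rw [← h1]
  simp only [R.assoc, ← jh_trans]
  congr 1

theorem tens_point (x : P R K L) :
    comp (tens x LC.point) (inc (R.J (PMap.ofHomeo (Homeomorph.prodPUnit L :
      L.prod LC.point ≃ₜ L)))) =
    comp (inc (R.J (PMap.ofHomeo (Homeomorph.prodPUnit K : K.prod LC.point ≃ₜ K)))) x := by
  induction x using ind with | h n x => ?_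
  rw [tens_cls, cls_comp_inc, inc_comp_cls]
  congr 1
  have h1 := R.tens_point x
  rw [← h1, tn, jh_def, ltens_jh, jh_def, R.assoc, ← jh_trans]
  congr 1

variable (R) in
/-- the data of the theory -/
def data : BivData where
  Hom := P R
  J f := inc (R.J f)
  comp := comp
  tens := tens

/-- the product with `X` on the left -/
def lt (X : LC) (y : Rp R κ K L) : Rp R κ (X.prod K) (X.prod L) :=
  R.comp (R.ltens X y) (jh R
    ({ toFun := fun v => (v.2.1, (v.1, v.2.2))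
       invFun := fun v => (v.2.1, (v.1, v.2.2))
       left_inv := fun _ => rfl
       right_inv := fun _ => rfl
       continuous_toFun := by fun_prop
       continuous_invFun := by fun_prop } :
      X.prod ((LC.G κ).prod L) ≃ₜ (LC.G κ).prod (X.prod L)))

theorem ltens_cls (X : LC) (y : Rp R κ K L) :
    (data R).ltens X (cls y : (data R).Hom K L) = cls (lt X y) := by
  change comp (inc (R.J (PMap.ofHomeo (LC.swap X K)))) (comp (tens (cls y) X)
    (inc (R.J (PMap.ofHomeo (LC.swap L X))))) = _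
  rw [tens_cls, cls_comp_inc, inc_comp_cls, jh_def, jh_def, ltens_jh, tn, lt, ltens_def]
  congr 1
  simp only [R.assoc, ← jh_trans]
  congr 1

/-- `(Gκ × L) × (Gl × W) → Gκ × (L × (Gl × W))` -/
def exA (κ l : Type) [Fintype κ] [Fintype l] (L W : LC) :
    ((LC.G κ).prod L).prod ((LC.G l).prod W) ≃ₜ (LC.G κ).prod (L.prod ((LC.G l).prod W)) :=
  Homeomorph.prodAssoc (LC.G κ) L ((LC.G l).prod W)

/-- `X × (Gκ × L) → Gκ × (X × L)` -/
def exS (κ : Type) [Fintype κ] (X L : LC) :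
    X.prod ((LC.G κ).prod L) ≃ₜ (LC.G κ).prod (X.prod L) where
  toFun v := (v.2.1, (v.1, v.2.2))
  invFun v := (v.2.1, (v.1, v.2.2))
  left_inv _ := rfl
  right_inv _ := rfl
  continuous_toFun := by fun_prop
  continuous_invFun := by fun_prop

theorem lt_def (X : LC) (y : Rp R κ K L) :
    lt X y = R.comp (R.ltens X y) (jh R (exS κ X L)) := rfl

theorem exch_rep (x : Rp R κ K L) (y : Rp R l Z W) :
    ex (cmp (tn x Z) (lt L y)) (Equiv.sumComm κ l).toEmbedding = cmp (lt K y) (tn x W) := by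
  have h1 : R.comp (jh R (Homeomorph.prodAssoc (LC.G κ) L Z :
      ((LC.G κ).prod L).prod Z ≃ₜ (LC.G κ).prod (L.prod Z)))
      (R.ltens (LC.G κ) (R.ltens L y)) =
      R.comp (R.ltens ((LC.G κ).prod L) y) (jh R (exA κ l L W)) := by
    rw [ltens_eq_pl y, ltens_eq_pl y, ltens_pl]
    exact pl_comm y (Homeomorph.refl _) _ _ _ _ _ _ (fun _ => rfl) (fun _ => rfl)
  have h2 : R.comp (jh R (exS l K W)) (R.ltens (LC.G l) (R.tens x W)) =
      R.comp (R.tens x ((LC.G l).prod W)) (jh R (exS l ((LC.G κ).prod L) W)) := by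
    rw [tens_eq_pl x W, tens_eq_pl x, ltens_pl]
    exact pl_comm x (Homeomorph.refl _) _ _ _ _ _ _ (fun _ => rfl) (fun _ => rfl)
  have h3 : ((gx (Equiv.sumComm κ l).toEmbedding).tens (L.prod W)).comp
      ((mu κ l (L.prod W)).comp ((PMap.ltens (LC.G κ) (PMap.ofHomeo (exS l L W))).comp
        (PMap.ofHomeo (exA κ l L W)))) = (mu l κ (L.prod W)).comp
      ((PMap.ltens (LC.G l) (PMap.ofHomeo (Homeomorph.prodAssoc (LC.G κ) L W :
      ((LC.G κ).prod L).prod W ≃ₜ (LC.G κ).prod (L.prod W)))).comp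
      (PMap.ofHomeo (exS l ((LC.G κ).prod L) W))) := by
    ext ⟨⟨P, k⟩, Q, w⟩
    exact congrArg (fun S : GK (l ⊕ κ) => (((S, (k, w)) : GK (l ⊕ κ) × (L × W)) :
      OnePoint (GK (l ⊕ κ) × (L × W)))) (gsum_comm P Q)
  have h4 := congrArg R.J h3
  rw [R.J_comp, R.J_comp, R.J_comp, R.J_comp, R.J_comp, ← R.tens_J, ← ltens_J, ← ltens_J] at h4
  rw [ex, cmp, cmp, tn, tn, lt_def, lt_def, ltens_comp, ltens_comp]
  simp only [R.assoc] at h4 ⊢
  rw [← R.assoc (jh R _) (R.ltens (LC.G κ) (R.ltens L y)), h1, R.assoc,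
    ← R.assoc (R.tens x Z), exch', ← R.assoc (jh R (exS l K W)), h2]
  simp only [R.assoc]
  congr 2

theorem exch (x : P R K L) (y : P R Z W) :
    comp (tens x Z) ((data R).ltens L (y : (data R).Hom Z W)) =
      comp ((data R).ltens K (y : (data R).Hom Z W) : P R _ _) (tens x W) := by
  induction x using ind with | h n x => ?_
  induction y using ind with | h n' y => ?_
  rw [ltens_cls, ltens_cls, tens_cls, tens_cls, comp_cls, comp_cls,
    ← cls_ex (cmp (tn x Z) (lt L y)) (Equiv.sumComm _ _).toEmbedding, exch_rep]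

end PR

end Pool.Agent.Helper63.Stab
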